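import Mathlib

/-!
# Project Y734/I: integral points of bounded degree, definitions

Points `x : Fin (N + 1) → κ` with coordinates in a field `κ` of characteristic zero, linear forms
with rational coefficients, tuples `P : Fin r → Fin (N + 1) → κ` of points and their
specialisations (along valuation rings of `κ` containing `ℚ`).
-/

set_option autoImplicit false

namespace Pool.Agent.Y734.I

open MvPolynomial

/-- the value at `x` of the linear form with coefficients `l` -/
noncomputable def ev {κ : Type} [Field κ] [Algebra ℚ κ] {N : ℕ} (l : Fin (N + 1) → ℚ)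
    (x : Fin (N + 1) → κ) : κ := ∑ j, algebraMap ℚ κ (l j) * x j

/-- the product of the values of the `i`-th form at the points `P k` -/
noncomputable def nf {κ : Type} [Field κ] [Algebra ℚ κ] {N r q : ℕ} (H : Fin q → Fin (N + 1) → ℚ)
    (P : Fin r → Fin (N + 1) → κ) (i : Fin q) : κ := ∏ k, ev (H i) (P k)

/-- the projective variety with equations `𝓕` -/
def OnX {κ : Type} [Field κ] [Algebra ℚ κ] {N : ℕ} (𝓕 : Set (MvPolynomial (Fin (N + 1)) ℚ))
    (x : Fin (N + 1) → κ) : Prop := ∀ F ∈ 𝓕, aeval x F = 0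

/-- no point of `X` is on more than `n` of the hyperplanes -/
def GPX {N q : ℕ} (𝓕 : Set (MvPolynomial (Fin (N + 1)) ℚ)) (n : ℕ)
    (H : Fin q → Fin (N + 1) → ℚ) : Prop :=
  ∀ (κ : Type) [Field κ] [Algebra ℚ κ] (x : Fin (N + 1) → κ), x ≠ 0 → OnX 𝓕 x →
    ∀ B : Finset (Fin q), (∀ i ∈ B, ev (H i) x = 0) → B.card ≤ n

/-- `P'` is a specialisation of `P` -/
structure Sp {κ κ' : Type} [Field κ] [Algebra ℚ κ] [Field κ'] [Algebra ℚ κ'] {N r : ℕ}
    (P : Fin r → Fin (N + 1) → κ) (P' : Fin r → Fin (N + 1) → κ') where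
  V : ValuationSubring κ
  ρ : V →+* κ'
  unit : ∀ x : V, ρ x ≠ 0 → IsUnit x
  c : Fin r → κ
  mem : ∀ k j, c k * P k j ∈ V
  eq : ∀ k j, ρ ⟨c k * P k j, mem k j⟩ = P' k j
  ne : ∀ k, P' k ≠ 0

/-- the ratios of the coordinates of a point -/
def rat {κ : Type} [Field κ] {N : ℕ} (x : Fin (N + 1) → κ) : Set κ :=
  {y | ∃ j j', y = x j / x j'}

/-- the ratios of the coordinates of a tuple of points -/
def rats {κ : Type} [Field κ] {N r : ℕ} (P : Fin r → Fin (N + 1) → κ) : Set κ :=
  {y | ∃ k j j', y = P k j / P k j'}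

/-- the transcendence degree over `ℚ` of the subfield generated by a set -/
noncomputable def trd {κ : Type} [Field κ] [Algebra ℚ κ] (s : Set κ) : Cardinal :=
  Algebra.trdeg ℚ (IntermediateField.adjoin ℚ s)

end Pool.Agent.Y734.I
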