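import Mathlib
import Pool.Agent.Y734.Stms
import Pool.Agent.Y734.I.Defs
import Pool.Agent.Y660.QP.Germ

/-!
# Project Y734/I: integral points of bounded degree, statements of the lemmas

Goal (MP_651af7_nt): for `n ≥ 2`, `r ≥ 1`, `q ≥ r n + 2` and `q` hyperplanes of `ℙⁿ` over `ℚ` outside
a proper closed subset of the space of arrangements (depending on `n, r, q` only), the
`(D, S)`-integral points of degree at most `r` are not Zariski dense, for every `S`. For `n = 2` the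
bound `q ≥ 2 r + 2` is the one in Vojta's conjecture.
-/

set_option autoImplicit false

namespace Pool.Agent.Y734.I

open MvPolynomial NumberField Filter

/-- Job DIMQ. Krull's principal ideal theorem in terms of transcendence degrees. -/
def DimqStmt : Prop :=
  ∀ (A : Type) [CommRing A] [IsDomain A] [Algebra ℚ A] [Algebra.FiniteType ℚ A] (f : A)
    (_ : f ≠ 0) (Q : Ideal A) (_ : Q ∈ (Ideal.span {f}).minimalPrimes),
    Algebra.trdeg ℚ A ≤ Algebra.trdeg ℚ (A ⧸ Q) + 1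

/-- Job STEP. Let `P₁` be a specialisation of `P` at which the form `l` vanishes at the `k`-th
point, while `l` is different from zero at `P k`. There is a specialisation `P'` with `l(P' k) = 0`
whose transcendence degree is only one less, and which satisfies no more equations than `P₁`. -/
def StepStmt : Prop :=
  ∀ (κ κ₁ : Type) [Field κ] [Algebra ℚ κ] [Field κ₁] [Algebra ℚ κ₁] (N r : ℕ)
    (P : Fin r → Fin (N + 1) → κ) (P₁ : Fin r → Fin (N + 1) → κ₁) (_ : Nonempty (Sp P P₁))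
    (l : Fin (N + 1) → ℚ) (k : Fin r) (_ : ev l (P k) ≠ 0) (_ : ev l (P₁ k) = 0),
    ∃ (κ' : Type) (_ : Field κ') (_ : Algebra ℚ κ') (P' : Fin r → Fin (N + 1) → κ'),
      Nonempty (Sp P P') ∧ ev l (P' k) = 0 ∧ trd (rats P) ≤ trd (rats P') + 1 ∧
      ∀ (k' : Fin r) (d : ℕ) (Φ : MvPolynomial (Fin (N + 1)) ℚ), Φ.IsHomogeneous d →
        aeval (P' k') Φ = 0 → aeval (P₁ k') Φ = 0

/-- Job NV. If not all coordinates of `P k / l(P k)` are algebraic over `k₁`, there is a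
specialisation of `P`, along a valuation ring containing `k₁`, such that `l` vanishes at the `k`-th
point. -/
def NvStmt : Prop :=
  ∀ (κ : Type) [Field κ] [Algebra ℚ κ] (N r : ℕ) (P : Fin r → Fin (N + 1) → κ)
    (_ : ∀ k, P k ≠ 0) (k₁ : IntermediateField ℚ κ) (k : Fin r) (l : Fin (N + 1) → ℚ)
    (_ : ev l (P k) ≠ 0) (j : Fin (N + 1)) (_ : ¬ IsAlgebraic k₁ (P k j / ev l (P k))),
    ∃ (κ₁ : Type) (_ : Field κ₁) (_ : Algebra ℚ κ₁) (P₁ : Fin r → Fin (N + 1) → κ₁)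
      (s : Sp P P₁), (∀ x ∈ k₁, x ∈ s.V) ∧ ev l (P₁ k) = 0

/-- Job RED. Reduction of a tuple along a given valuation ring containing `ℚ`. -/
def RedStmt : Prop :=
  ∀ (κ : Type) [Field κ] [Algebra ℚ κ] (N r : ℕ) (P : Fin r → Fin (N + 1) → κ)
    (_ : ∀ k, P k ≠ 0) (V : ValuationSubring κ) (_ : ∀ a : ℚ, algebraMap ℚ κ a ∈ V),
    ∃ (κ₁ : Type) (_ : Field κ₁) (_ : Algebra ℚ κ₁) (P₁ : Fin r → Fin (N + 1) → κ₁)
      (s : Sp P P₁), s.V = V

/-- Job MONO. A point which satisfies fewer equations has larger transcendence degree. -/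
def MonoStmt : Prop :=
  ∀ (κ' κ₁ : Type) [Field κ'] [Algebra ℚ κ'] [Field κ₁] [Algebra ℚ κ₁] (N : ℕ)
    (x' : Fin (N + 1) → κ') (x₁ : Fin (N + 1) → κ₁) (_ : x₁ ≠ 0)
    (_ : ∀ (d : ℕ) (Φ : MvPolynomial (Fin (N + 1)) ℚ), Φ.IsHomogeneous d →
        aeval x' Φ = 0 → aeval x₁ Φ = 0), trd (rat x₁) ≤ trd (rat x')

/-- Job IND. Germs of `S`-units which are multiplicatively independent modulo constants are
algebraically independent. -/
def IndStmt : Prop :=
  ∀ (U : Ultrafilter ℕ) (Ω : Type) [Field Ω] [Algebra ℚ Ω] (g : Pool.Agent.Y660.QP.Gm U Ω)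
    (S : Finset ℕ) (_ : ∀ p ∈ S, p.Prime) (m : ℕ) (f : Fin m → ℕ → ℚ) (_ : ∀ i t, f i t ≠ 0)
    (_ : ∀ i t (p : ℕ), p.Prime → p ∉ S → padicValRat p (f i t) = 0)
    (_ : ∀ e : Fin m → ℤ, e ≠ 0 → ∀ c : ℚ,
      ∏ i, (g.π (fun t => ((f i t : ℚ) : ℂ))) ^ e i ≠ algebraMap ℚ Ω c),
    AlgebraicIndependent ℚ (fun i => g.π (fun t => ((f i t : ℚ) : ℂ)))

/-- Job LG. For the points of degree at most `r` with `q h(x) ≤ m_S(D, x) + C` the norms of the
values of the `q` linear forms have the same divisor outside of a finite set of primes. -/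
def LgStmt : Prop :=
  ∀ (N q : ℕ) (H : Fin q → Fin (N + 1) → ℚ) (S : Finset ℕ) (_ : ∀ p ∈ S, p.Prime) (r : ℕ)
    (C : ℝ), ∃ S' : Finset ℕ, (∀ p ∈ S', p.Prime) ∧
      ∀ (L : Type) [Field L] [NumberField L], Module.finrank ℚ L ≤ r →
        ∀ x : Fin (N + 1) → L, x ≠ 0 → aeval x (∏ i, lin (n := N) (H i)) ≠ 0 →
          (q : ℝ) * height (n := N) x ≤ proximity (n := N) S (∏ i, lin (H i)) q x + C →
          ∀ (i j : Fin q) (p : ℕ), p.Prime → p ∉ S' →
            padicValRat p (Algebra.norm ℚ (aeval x (lin (n := N) (H i)))) =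
              padicValRat p (Algebra.norm ℚ (aeval x (lin (n := N) (H j))))

/-- The genericity condition on the arrangement: for disjoint sets `C ≠ ∅`, `A`, `J` of indices
with `|A| = n - 1` and `|J| = |C|` there are no `κ i`, `i ∈ C`, such that for every `j ∈ J` there
are points `p 0, …, p (r - 1)` of `X` such that the hyperplanes `i ∉ C` contain one of them, the
products `∏ k, H i (p k)`, `i ∈ C`, are proportional to the `κ i`, and one of the points is on all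
the hyperplanes in `A ∪ {j}`. -/
def GenPX {N q : ℕ} (𝓕 : Set (MvPolynomial (Fin (N + 1)) ℚ)) (n r : ℕ)
    (H : Fin q → Fin (N + 1) → ℚ) : Prop :=
  ∀ (C A J : Finset (Fin q)), C.Nonempty → A.card + 1 = n → J.card = C.card →
    Disjoint A C → Disjoint J C → Disjoint J A → ∀ κ : Fin q → ℚ, (∀ i ∈ C, κ i ≠ 0) →
      ¬ ∀ j ∈ J, ∃ p : Fin r → Fin (N + 1) → ℂ, (∀ k, p k ≠ 0) ∧ (∀ k, OnX 𝓕 (p k)) ∧
        (∃ k, ∀ i ∈ insert j A, ev (H i) (p k) = 0) ∧ (∀ i ∉ C, nf H p i = 0) ∧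
        ∃ c : ℂ, c ≠ 0 ∧ ∀ i ∈ C, nf H p i = c * (κ i : ℂ)

/-- Job HBAR. A degenerate arrangement without base points: `H (φ j)` is a combination of the
`H a`, `a ∈ A`, and `H j`. -/
def HbarStmt : Prop :=
  ∀ (n r q : ℕ) (_ : 2 ≤ n) (_ : r * n + 2 ≤ q) (C A J : Finset (Fin q)) (_ : A.card + 1 = n)
    (_ : Disjoint A C) (_ : Disjoint J C) (_ : Disjoint J A) (φ : Fin q → Fin q)
    (_ : Set.BijOn φ J C),
    ∃ H : Fin q → Fin (n + 1) → ℚ,
      (∀ j ∈ J, H (φ j) ∈ Submodule.span ℚ (H '' (insert j A : Finset (Fin q)))) ∧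
      ∀ (κ : Type) [Field κ] [Algebra ℚ κ] (p : Fin r → Fin (n + 1) → κ), (∀ k, p k ≠ 0) →
        ∃ i, nf H p i ≠ 0

/-- Job GEN. The genericity condition holds outside a proper closed subset. -/
def GenStmt : Prop :=
  ∀ (n r q : ℕ) (_ : 2 ≤ n) (_ : r * n + 2 ≤ q),
    ∃ Φ : MvPolynomial (Fin q × Fin (n + 1)) ℚ, Φ ≠ 0 ∧ ∀ H : Fin q → Fin (n + 1) → ℚ,
      eval (fun ij => H ij.1 ij.2) Φ ≠ 0 → GPX ∅ n H ∧ GenPX ∅ n r H

end Pool.Agent.Y734.I
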