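import Mathlib
import Pool.Agent.Y734.I.Defs

/-!
# Project Y734/I: basic facts about specialisations of tuples of points
-/

set_option autoImplicit false

namespace Pool.Agent.Y734.I

open MvPolynomial

variable {κ κ' : Type} [Field κ] [Algebra ℚ κ] [Field κ'] [Algebra ℚ κ'] {N r q : ℕ}

lemma ev_mul (l : Fin (N + 1) → ℚ) (c : κ) (x : Fin (N + 1) → κ) :
    ev l (fun j => c * x j) = c * ev l x := by
  unfold ev
  rw [Finset.mul_sum]
  exact Finset.sum_congr rfl fun j _ => by ring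

lemma aeval_mul {d : ℕ} {Φ : MvPolynomial (Fin (N + 1)) ℚ} (h : Φ.IsHomogeneous d) (c : κ)
    (x : Fin (N + 1) → κ) : aeval (fun j => c * x j) Φ = c ^ d * aeval x Φ := by
  rw [aeval_def, aeval_def, eval₂_eq', eval₂_eq', Finset.mul_sum]
  refine Finset.sum_congr rfl fun m hm => ?_
  have h2 : ∑ i, m i = d := by
    have := h (mem_support_iff.1 hm)
    rw [← this, Finsupp.weight_apply, Finsupp.sum_fintype _ _ (by simp)]
    simp
  have h3 : ∏ i, (c * x i) ^ m i = c ^ d * ∏ i, x i ^ m i := by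
    rw [← h2, ← Finset.prod_pow_eq_pow_sum, ← Finset.prod_mul_distrib]
    exact Finset.prod_congr rfl fun i _ => mul_pow _ _ _
  rw [h3]
  ring

namespace Sp

variable {P : Fin r → Fin (N + 1) → κ} {P' : Fin r → Fin (N + 1) → κ'}

/-- `x` reduces to `y` -/
def R (s : Sp P P') (x : κ) (y : κ') : Prop := ∃ hx : x ∈ s.V, s.ρ ⟨x, hx⟩ = y


lemma R.unique {s : Sp P P'} {x : κ} {y z : κ'} (h : s.R x y) (h' : s.R x z) : y = z := by
  obtain ⟨hx, h⟩ := h
  obtain ⟨hx', h'⟩ := h'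
  rw [← h, ← h']

lemma R.add {s : Sp P P'} {x x' : κ} {y y' : κ'} (h : s.R x y) (h' : s.R x' y') : s.R (x + x') (y + y') := by
  obtain ⟨hx, h⟩ := h
  obtain ⟨hx', h'⟩ := h'
  refine ⟨s.V.add_mem _ _ hx hx', ?_⟩
  rw [← h, ← h', ← map_add]
  rfl

lemma R.mul {s : Sp P P'} {x x' : κ} {y y' : κ'} (h : s.R x y) (h' : s.R x' y') : s.R (x * x') (y * y') := by
  obtain ⟨hx, h⟩ := h
  obtain ⟨hx', h'⟩ := h'
  refine ⟨s.V.mul_mem _ _ hx hx', ?_⟩
  rw [← h, ← h', ← map_mul]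
  rfl

lemma R.zero (s : Sp P P') : s.R 0 0 := ⟨s.V.zero_mem, map_zero s.ρ⟩

lemma R.one (s : Sp P P') : s.R 1 1 := ⟨s.V.one_mem, map_one s.ρ⟩

lemma R.inv {s : Sp P P'} {x : κ} {y : κ'} (h : s.R x y) (hy : y ≠ 0) : s.R x⁻¹ y⁻¹ := by
  obtain ⟨hx, h⟩ := h
  have h1 : IsUnit (⟨x, hx⟩ : s.V) := s.unit _ (by rw [h]; exact hy)
  obtain ⟨u, hu⟩ := h1
  have h2 : ((u⁻¹ : s.Vˣ) : s.V) * ⟨x, hx⟩ = 1 := by rw [← hu]; simp
  have h3 : (((u⁻¹ : s.Vˣ) : s.V) : κ) * x = 1 := by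
    have := congrArg (fun z : s.V => (z : κ)) h2
    simpa using this
  have h4 : (((u⁻¹ : s.Vˣ) : s.V) : κ) = x⁻¹ := eq_inv_of_mul_eq_one_left h3
  have hx' : x⁻¹ ∈ s.V := by rw [← h4]; exact ((u⁻¹ : s.Vˣ) : s.V).2
  refine ⟨hx', ?_⟩
  have h5 : (⟨x⁻¹, hx'⟩ : s.V) = ((u⁻¹ : s.Vˣ) : s.V) := Subtype.ext h4.symm
  rw [h5]
  have h6 := congrArg s.ρ h2
  rw [map_mul, map_one, h] at h6
  exact eq_inv_of_mul_eq_one_left h6

lemma R.div {s : Sp P P'} {x x' : κ} {y y' : κ'} (h : s.R x y) (h' : s.R x' y') (hy : y' ≠ 0) :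
    s.R (x / x') (y / y') := by
  rw [div_eq_mul_inv, div_eq_mul_inv]
  exact h.mul (h'.inv hy)

lemma R.pow {s : Sp P P'} {x : κ} {y : κ'} (h : s.R x y) (m : ℕ) : s.R (x ^ m) (y ^ m) := by
  induction m with
  | zero => rw [pow_zero, pow_zero]; exact R.one s
  | succ m ih => rw [pow_succ, pow_succ]; exact ih.mul h

lemma R.zpow {s : Sp P P'} {x : κ} {y : κ'} (h : s.R x y) (hy : y ≠ 0) (m : ℤ) : s.R (x ^ m) (y ^ m) := by
  cases m with
  | ofNat m =>
    rw [Int.ofNat_eq_natCast, zpow_natCast, zpow_natCast]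
    exact h.pow m
  | negSucc m =>
    rw [zpow_negSucc, zpow_negSucc]
    exact (h.pow (m + 1)).inv (pow_ne_zero _ hy)

lemma R.sum {s : Sp P P'} {ι : Type*} (t : Finset ι) {x : ι → κ} {y : ι → κ'} (h : ∀ i ∈ t, s.R (x i) (y i)) :
    s.R (∑ i ∈ t, x i) (∑ i ∈ t, y i) := by
  classical
  induction t using Finset.induction_on with
  | empty => simpa using R.zero s
  | insert a t ha ih =>
    rw [Finset.sum_insert ha, Finset.sum_insert ha]
    exact (h a (Finset.mem_insert_self _ _)).add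
      (ih fun i hi => h i (Finset.mem_insert_of_mem hi))

lemma R.prod {s : Sp P P'} {ι : Type*} (t : Finset ι) {x : ι → κ} {y : ι → κ'} (h : ∀ i ∈ t, s.R (x i) (y i)) :
    s.R (∏ i ∈ t, x i) (∏ i ∈ t, y i) := by
  classical
  induction t using Finset.induction_on with
  | empty => simpa using R.one s
  | insert a t ha ih =>
    rw [Finset.prod_insert ha, Finset.prod_insert ha]
    exact (h a (Finset.mem_insert_self _ _)).mul
      (ih fun i hi => h i (Finset.mem_insert_of_mem hi))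

lemma R.nat (s : Sp P P') (m : ℕ) : s.R (m : κ) (m : κ') := by
  refine ⟨natCast_mem s.V m, ?_⟩
  have : (⟨(m : κ), natCast_mem s.V m⟩ : s.V) = ((m : ℕ) : s.V) := by
    apply Subtype.ext
    simp
  rw [this, map_natCast]

lemma R.int (s : Sp P P') (m : ℤ) : s.R (m : κ) (m : κ') := by
  refine ⟨intCast_mem s.V m, ?_⟩
  have : (⟨(m : κ), intCast_mem s.V m⟩ : s.V) = ((m : ℤ) : s.V) := by
    apply Subtype.ext
    simp
  rw [this, map_intCast]

lemma R.rat (s : Sp P P') (a : ℚ) : s.R (algebraMap ℚ κ a) (algebraMap ℚ κ' a) := by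
  have := algebraRat.charZero κ'
  have h1 := (R.int s a.num).div (R.nat s a.den) (by exact_mod_cast a.den_nz)
  have e1 : algebraMap ℚ κ a = (a.num : κ) / (a.den : κ) := by
    rw [eq_ratCast, Rat.cast_def]
  have e2 : algebraMap ℚ κ' a = (a.num : κ') / (a.den : κ') := by
    rw [eq_ratCast, Rat.cast_def]
  rw [e1, e2]
  exact h1

lemma R.coord (s : Sp P P') (k : Fin r) (j : Fin (N + 1)) : s.R (s.c k * P k j) (P' k j) :=
  ⟨s.mem k j, s.eq k j⟩

lemma R.ev (s : Sp P P') (k : Fin r) (l : Fin (N + 1) → ℚ) : s.R (s.c k * ev l (P k)) (ev l (P' k)) := by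
  rw [← ev_mul]
  unfold I.ev
  exact R.sum _ fun j _ => (R.rat s (l j)).mul (R.coord s k j)

lemma R.nf (s : Sp P P') (H : Fin q → Fin (N + 1) → ℚ) (i : Fin q) :
    s.R ((∏ k, s.c k) * nf H P i) (nf H P' i) := by
  unfold I.nf
  rw [← Finset.prod_mul_distrib]
  exact R.prod _ fun k _ => R.ev s k (H i)

lemma R.poly (s : Sp P P') (k : Fin r) (Φ : MvPolynomial (Fin (N + 1)) ℚ) :
    s.R (aeval (fun j => s.c k * P k j) Φ) (aeval (P' k) Φ) := by
  induction Φ using MvPolynomial.induction_on with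
  | C a => rw [aeval_C, aeval_C]; exact R.rat s a
  | add p q hp hq => rw [map_add, map_add]; exact hp.add hq
  | mul_X p i hp =>
    rw [map_mul, map_mul, aeval_X, aeval_X]
    exact hp.mul (R.coord s k i)

lemma c_ne (s : Sp P P') (k : Fin r) : s.c k ≠ 0 := by
  intro h0
  apply s.ne k
  ext j
  have := R.coord s k j
  rw [h0, zero_mul] at this
  exact this.unique (R.zero s)

lemma P_ne (s : Sp P P') (k : Fin r) : P k ≠ 0 := by
  intro h0
  apply s.ne k
  ext j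
  have := R.coord s k j
  rw [h0, Pi.zero_apply, mul_zero] at this
  exact this.unique (R.zero s)

lemma ev_zero (s : Sp P P') {k : Fin r} {l : Fin (N + 1) → ℚ} (h : I.ev l (P k) = 0) : I.ev l (P' k) = 0 := by
  have := R.ev s k l
  rw [h, mul_zero] at this
  exact this.unique (R.zero s)

lemma nf_zero (s : Sp P P') {H : Fin q → Fin (N + 1) → ℚ} {i : Fin q} (h : I.nf H P i = 0) :
    I.nf H P' i = 0 := by
  have := R.nf s H i
  rw [h, mul_zero] at this
  exact this.unique (R.zero s)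

lemma onX (s : Sp P P') {𝓕 : Set (MvPolynomial (Fin (N + 1)) ℚ)} (h𝓕 : ∀ F ∈ 𝓕, ∃ d, F.IsHomogeneous d)
    {k : Fin r} (h : OnX 𝓕 (P k)) : OnX 𝓕 (P' k) := by
  intro F hF
  obtain ⟨d, hd⟩ := h𝓕 F hF
  have h1 := R.poly s k F
  rw [aeval_mul hd, h F hF, mul_zero] at h1
  exact h1.unique (R.zero s)

/-- the relation between the values at `P'` -/
lemma nf_div (s : Sp P P') {H : Fin q → Fin (N + 1) → ℚ} {i i' : Fin q} (h : I.nf H P' i' ≠ 0) :
    s.R (I.nf H P i / I.nf H P i') (I.nf H P' i / I.nf H P' i') := by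
  have h1 := (R.nf s H i).div (R.nf s H i') h
  have h2 : (∏ k, s.c k) ≠ 0 := Finset.prod_ne_zero_iff.2 fun k _ => s.c_ne k
  rwa [mul_div_mul_left _ _ h2] at h1

/-- algebraic elements are units -/
lemma R.alg (s : Sp P P') {x : κ} (hx : x ≠ 0) (h : IsAlgebraic ℚ x) :
    ∃ y : κ', y ≠ 0 ∧ IsAlgebraic ℚ y ∧ s.R x y := by
  have key : ∀ z : κ, IsAlgebraic ℚ z → z ∈ s.V := by
    intro z hz
    have h1 : IsIntegral ℚ z := hz.isIntegral
    obtain ⟨p, hp, hp0⟩ := h1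
    -- the polynomial with coefficients in `V`
    let f : ℚ →+* s.V := (algebraMap ℚ κ).codRestrict s.V.toSubring (fun a => (R.rat s a).1)
    have h2 : IsIntegral s.V z := by
      refine ⟨p.map f, hp.map f, ?_⟩
      rw [Polynomial.eval₂_map]
      have : (algebraMap s.V κ).comp f = algebraMap ℚ κ := by
        ext a
        rfl
      rw [this]
      exact hp0
    obtain ⟨w, hw⟩ := IsIntegrallyClosed.isIntegral_iff.1 h2
    rw [← hw]
    exact w.2
  obtain ⟨p, hp, hp0⟩ := h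
  have hxV := key x ⟨p, hp, hp0⟩
  have hxV' := key x⁻¹ (IsAlgebraic.inv ⟨p, hp, hp0⟩)
  have h3 : s.R x (s.ρ ⟨x, hxV⟩) := ⟨hxV, rfl⟩
  have h4 : s.R x⁻¹ (s.ρ ⟨x⁻¹, hxV'⟩) := ⟨hxV', rfl⟩
  refine ⟨s.ρ ⟨x, hxV⟩, ?_, ⟨p, hp, ?_⟩, h3⟩
  · intro h0
    have h5 := h3.mul h4
    rw [mul_inv_cancel₀ hx, h0, zero_mul] at h5
    exact zero_ne_one (h5.unique (R.one s))
  · have h6 : s.R (Polynomial.aeval x p) (Polynomial.aeval (s.ρ ⟨x, hxV⟩) p) := by
      rw [Polynomial.aeval_eq_sum_range, Polynomial.aeval_eq_sum_range]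
      refine R.sum _ fun i _ => ?_
      rw [Algebra.smul_def, Algebra.smul_def]
      exact (R.rat s _).mul (h3.pow i)
    rw [hp0] at h6
    exact h6.unique (R.zero s)

end Sp

end Pool.Agent.Y734.I
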