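import Mathlib
import Pool.Agent.Y734.I.Defs

set_option autoImplicit false

namespace Pool.Agent.Y734.I

attribute [-instance] DivisionRing.toRatAlgebra

/-- the definition of `trd` with the algebra structure of an intermediate field -/
lemma trd_eq {κ : Type} [Field κ] [Algebra ℚ κ] (s : Set κ) :
    trd s = Algebra.trdeg ℚ (IntermediateField.adjoin ℚ s) := by
  unfold trd
  congr 1
  exact Subsingleton.elim _ _

end Pool.Agent.Y734.I
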