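import Mathlib
import Pool.Agent.Y734.I.Defs

/-!
# Project Y734/I: transcendence degrees
-/

set_option autoImplicit false

namespace Pool.Agent.Y734.I

lemma trd_le_of_alg {κ : Type} [Field κ] [Algebra ℚ κ] {s s' : Set κ}
    (h : ∀ y ∈ s, IsAlgebraic (IntermediateField.adjoin ℚ s') y) : trd s ≤ trd s' := by
  unfold trd
  let K' := IntermediateField.adjoin ℚ s'
  let Kc : IntermediateField K' κ := algebraicClosure K' κ
  have h1 : IntermediateField.adjoin ℚ s ≤ Kc.restrictScalars ℚ := by
    rw [IntermediateField.adjoin_le_iff]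
    intro y hy
    exact mem_algebraicClosure_iff.2 (h y hy)
  let f : IntermediateField.adjoin ℚ s →+* Kc :=
    (IntermediateField.inclusion h1 : _ →+* (Kc.restrictScalars ℚ))
  have h2 : Algebra.trdeg ℚ (IntermediateField.adjoin ℚ s) ≤ Algebra.trdeg ℚ Kc :=
    trdeg_le_of_injective f.toRatAlgHom f.injective
  refine h2.trans ?_
  have h3 : Algebra.trdeg ℚ K' + Algebra.trdeg K' Kc = Algebra.trdeg ℚ Kc :=
    trdeg_add_eq (R := ℚ) (S := K') (A := Kc)
  have h4 : Algebra.trdeg K' Kc = 0 := trdeg_eq_zero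
  rw [h4, add_zero] at h3
  exact h3.symm.le

end Pool.Agent.Y734.I
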