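import Mathlib
import Pool.Agent.Y734.I.Base
import Pool.Agent.Y734.I.Trd0
import Pool.Agent.Y734.I.Trd1

/-!
# Project Y734/I: transcendence degrees
-/

set_option autoImplicit false

namespace Pool.Agent.Y734.I

attribute [-instance] DivisionRing.toRatAlgebra

open MvPolynomial

section

variable {κ : Type} [Field κ] [Algebra ℚ κ]

lemma trd_le_card (s : Set κ) : trd s ≤ Cardinal.mk s := by
  rw [trd_eq]
  let K := IntermediateField.adjoin ℚ s
  let s₀ : Set K := {x | (x : κ) ∈ s}
  have h1 : Cardinal.mk s₀ ≤ Cardinal.mk s :=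
    Cardinal.mk_le_of_injective (f := fun x : s₀ => (⟨((x : K) : κ), x.2⟩ : s))
      (fun x y hxy => by
        apply Subtype.ext
        apply Subtype.ext
        exact congrArg (fun z : s => (z : κ)) hxy)
  refine le_trans ?_ h1
  have h2 : Algebra.IsAlgebraic (Algebra.adjoin ℚ s₀) K := by
    constructor
    intro x
    obtain ⟨y, hy, z, hz, hxyz⟩ := (IntermediateField.mem_adjoin_iff_div ..).1 x.2
    have key : ∀ y ∈ Algebra.adjoin ℚ s, ∃ y' ∈ Algebra.adjoin ℚ s₀, (y' : κ) = y := by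
      intro y hy
      have : (Algebra.adjoin ℚ s₀).map K.val = Algebra.adjoin ℚ s := by
        rw [AlgHom.map_adjoin]
        congr 1
        ext w
        constructor
        · rintro ⟨w', hw', rfl⟩
          exact hw'
        · intro hw
          exact ⟨⟨w, IntermediateField.subset_adjoin ℚ s hw⟩, hw, rfl⟩
      rw [← this] at hy
      obtain ⟨y', hy', h⟩ := hy
      exact ⟨y', hy', h⟩
    obtain ⟨y', hy', hy2⟩ := key y hy
    obtain ⟨z', hz', hz2⟩ := key z hz
    have e : x = y' / z' := by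
      apply Subtype.ext
      rw [hxyz]
      push_cast
      rw [hy2, hz2]
    rw [e]
    have a1 : IsAlgebraic (Algebra.adjoin ℚ s₀) (y' : K) :=
      isAlgebraic_algebraMap (R := Algebra.adjoin ℚ s₀) ⟨y', hy'⟩
    have a2 : IsAlgebraic (Algebra.adjoin ℚ s₀) (z' : K) :=
      isAlgebraic_algebraMap (R := Algebra.adjoin ℚ s₀) ⟨z', hz'⟩
    rw [div_eq_mul_inv]
    exact a1.mul a2.inv
  exact Algebra.IsAlgebraic.trdeg_le_cardinalMk (R := ℚ) (s := s₀)

lemma le_trd {s : Set κ} {m : ℕ} {y : Fin m → κ} (hy : AlgebraicIndependent ℚ y)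
    (h : ∀ i, y i ∈ IntermediateField.adjoin ℚ s) : (m : Cardinal) ≤ trd s := by
  rw [trd_eq]
  let y' : Fin m → IntermediateField.adjoin ℚ s := fun i => ⟨y i, h i⟩
  have h1 : AlgebraicIndependent ℚ y' :=
    AlgebraicIndependent.of_comp (IntermediateField.adjoin ℚ s).val hy
  have := h1.cardinalMk_le_trdeg
  simpa using this

lemma alg_of_trd {s : Set κ} (h : trd s = 0) {y : κ} (hy : y ∈ s) : IsAlgebraic ℚ y := by
  rw [trd_eq, trdeg_eq_zero_iff] at h
  have h1 := h.isAlgebraic ⟨y, IntermediateField.subset_adjoin ℚ s hy⟩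
  exact h1.algebraMap (A := κ)

lemma trd_eq_zero {s : Set κ} (h : ∀ y ∈ s, IsAlgebraic ℚ y) : trd s = 0 := by
  have h1 := trd_le_of_alg (s := s) (s' := ∅) (fun y hy => (h y hy).tower_top _)
  have h2 := trd_le_card (κ := κ) ∅
  simp only [Cardinal.mk_eq_zero, nonpos_iff_eq_zero] at h2
  rw [h2] at h1
  exact nonpos_iff_eq_zero.1 h1

end

end Pool.Agent.Y734.I
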