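import Mathlib
import Pool.Agent.Y734.I.Trd
import Pool.Agent.Y734.I.Stms

/-!
# Project Y734/I: the rank of the group of the norms
-/

set_option autoImplicit false

namespace Pool.Agent.Y734.I

open MvPolynomial

section

variable {κ κ' : Type} [Field κ] [Algebra ℚ κ] [Field κ'] [Algebra ℚ κ'] {N n r q T : ℕ}
  {𝓕 : Set (MvPolynomial (Fin (N + 1)) ℚ)} {H : Fin q → Fin (N + 1) → ℚ}

/-- some hyperplane contains none of the points -/
lemma exists_nf_ne (hH : GPX 𝓕 n H) (hq : r * n + 1 ≤ q) (P : Fin r → Fin (N + 1) → κ)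
    (hP : ∀ k, P k ≠ 0) (hX : ∀ k, OnX 𝓕 (P k)) : ∃ i, nf H P i ≠ 0 := by
  classical
  by_contra hno
  push Not at hno
  let B : Fin r → Finset (Fin q) := fun k => Finset.univ.filter fun i => ev (H i) (P k) = 0
  have h1 : ∀ k, (B k).card ≤ n := fun k => hH κ (P k) (hP k) (hX k) (B k) fun i hi =>
    (Finset.mem_filter.1 hi).2
  have h2 : (Finset.univ : Finset (Fin q)) ⊆ Finset.univ.biUnion B := by
    intro i _
    have h3 := hno i
    unfold nf at h3
    obtain ⟨k, _, hk⟩ := Finset.prod_eq_zero_iff.1 h3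
    exact Finset.mem_biUnion.2 ⟨k, Finset.mem_univ _, Finset.mem_filter.2 ⟨Finset.mem_univ _, hk⟩⟩
  have h4 := Finset.card_le_card h2
  have h5 : (Finset.univ.biUnion B).card ≤ r * n := by
    refine Finset.card_biUnion_le.trans ?_
    refine (Finset.sum_le_sum fun k _ => h1 k).trans ?_
    simp
  rw [Finset.card_univ, Fintype.card_fin] at h4
  omega

/-- the quotients of the nonzero norms -/
def uset (H : Fin q → Fin (N + 1) → ℚ) (P : Fin r → Fin (N + 1) → κ) : Set κ :=
  {y | ∃ i i', nf H P i ≠ 0 ∧ nf H P i' ≠ 0 ∧ y = nf H P i / nf H P i'}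

lemma ev_ne_of_nf {P : Fin r → Fin (N + 1) → κ} {i : Fin q} (h : nf H P i ≠ 0) (k : Fin r) :
    ev (H i) (P k) ≠ 0 := by
  unfold nf at h
  exact Finset.prod_ne_zero_iff.1 h k (Finset.mem_univ _)

lemma nf_eq_zero {P : Fin r → Fin (N + 1) → κ} {i : Fin q} {k : Fin r}
    (h : ev (H i) (P k) = 0) : nf H P i = 0 := Finset.prod_eq_zero (Finset.mem_univ k) h

/-- the coordinates of the points are algebraic over the field of the quotients of norms -/
theorem tr (hnv : NvStmt) (h𝓕 : ∀ F ∈ 𝓕, ∃ d, F.IsHomogeneous d) (hH : GPX 𝓕 n H)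
    (hq : r * n + 1 ≤ q) (P : Fin r → Fin (N + 1) → κ) (hP : ∀ k, P k ≠ 0)
    (hX : ∀ k, OnX 𝓕 (P k)) : trd (rats P) ≤ trd (uset H P) := by
  obtain ⟨b, hb⟩ := exists_nf_ne hH hq P hP hX
  let k₁ := IntermediateField.adjoin ℚ (uset H P)
  have key : ∀ k j, IsAlgebraic k₁ (P k j / ev (H b) (P k)) := by
    intro k j
    by_contra hno
    obtain ⟨κ₁, i1, i2, P₁, s, hs, h0⟩ := hnv κ N r P hP k₁ k (H b) (ev_ne_of_nf hb k) j hno
    obtain ⟨i, hi⟩ := exists_nf_ne hH hq P₁ s.ne (fun k => s.onX h𝓕 (hX k))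
    have hi' : nf H P i ≠ 0 := fun h => hi (s.nf_zero h)
    have h1 : nf H P i / nf H P b ∈ s.V :=
      hs _ (IntermediateField.subset_adjoin ℚ _ ⟨i, b, hi', hb, rfl⟩)
    have h2 : s.R (nf H P b / nf H P i) (nf H P₁ b / nf H P₁ i) := Sp.nf_div s hi
    have h3 : nf H P₁ b = 0 := nf_eq_zero h0
    rw [h3, zero_div] at h2
    have h4 : s.R (nf H P i / nf H P b) (s.ρ ⟨_, h1⟩) := ⟨h1, rfl⟩
    have h5 := h2.mul h4
    have h6 : nf H P b / nf H P i * (nf H P i / nf H P b) = 1 := by
      field_simp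
    rw [h6, zero_mul] at h5
    exact zero_ne_one (h5.unique (Sp.R.one s))
  apply trd_le_of_alg
  rintro y ⟨k, j, j', rfl⟩
  have e : P k j / P k j' = (P k j / ev (H b) (P k)) / (P k j' / ev (H b) (P k)) := by
    rw [div_div_div_cancel_right₀ (ev_ne_of_nf hb k)]
  rw [e, div_eq_mul_inv]
  exact (key k j).mul (key k j').inv

/-- the multiplicative relations -/
def Rel (H : Fin q → Fin (N + 1) → ℚ) (a : Fin q → Fin T → ℚ) (P : Fin r → Fin (N + 1) → κ) :
    Prop :=
  ∀ e : Fin q → ℤ, (∀ i, nf H P i = 0 → e i = 0) → ∑ i, e i = 0 →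
    ∑ i, (e i : ℚ) • a i = 0 → IsAlgebraic ℚ (∏ i, nf H P i ^ e i)

/-- a rational relation is a multiple of an integral one -/
lemma int_rel {W : Type} [AddCommGroup W] [Module ℚ W] (v : Fin q → W) (B : Finset (Fin q))
    {w : W} (h : w ∈ Submodule.span ℚ (v '' B)) :
    ∃ M : ℕ, 1 ≤ M ∧ ∃ m : Fin q → ℤ, (∀ i, i ∉ B → m i = 0) ∧
      (M : ℚ) • w = ∑ i, (m i : ℚ) • v i := by
  classical
  obtain ⟨c, hc⟩ := (Submodule.mem_span_image_finset_iff_exists_fun' ℚ).1 h
  let c' : Fin q → ℚ := fun i => if i ∈ B then c i else 0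
  have hw : w = ∑ i, c' i • v i := by
    rw [← hc, ← Finset.sum_subset (Finset.subset_univ B) (fun i _ hi => by simp [c', hi])]
    exact Finset.sum_congr rfl fun i hi => by simp [c', hi]
  refine ⟨∏ i, (c' i).den, ?_, fun i => (c' i).num * ∏ i' ∈ Finset.univ.erase i, ((c' i').den : ℤ),
    ?_, ?_⟩
  · exact Nat.one_le_iff_ne_zero.2 (Finset.prod_ne_zero_iff.2 fun i _ => (c' i).den_nz)
  · intro i hi
    simp [c', hi]
  · rw [hw, Finset.smul_sum]
    refine Finset.sum_congr rfl fun i _ => ?_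
    rw [smul_smul]
    congr 1
    rw [← Finset.mul_prod_erase Finset.univ _ (Finset.mem_univ i)]
    push_cast
    have h1 := Rat.mul_den_eq_num (c' i)
    rw [← h1]
    ring

/-- the multiplicative relation attached to a linear relation of the exponents -/
lemma mult_rel {a : Fin q → Fin T → ℚ} {P : Fin r → Fin (N + 1) → κ} (hrel : Rel H a P)
    {B : Finset (Fin q)} (hB : ∀ i ∈ B, nf H P i ≠ 0) {b j : Fin q} (hb : nf H P b ≠ 0)
    (hj : nf H P j ≠ 0) (h : a j - a b ∈ Submodule.span ℚ ((fun i => a i - a b) '' B)) :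
    ∃ M : ℕ, 1 ≤ M ∧ ∃ m : Fin q → ℤ, (∀ i, i ∉ B → m i = 0) ∧ ∃ g : κ, g ≠ 0 ∧
      IsAlgebraic ℚ g ∧
      (nf H P j / nf H P b) ^ M = g * ∏ i, (nf H P i / nf H P b) ^ (m i) := by
  classical
  obtain ⟨M, hM, m, hm, hrel2⟩ := int_rel (fun i => a i - a b) B h
  let e : Fin q → ℤ := fun i => (if i = j then (M : ℤ) else 0) - m i +
    (if i = b then (∑ i, m i) - M else 0)
  have hm0 : ∀ i, nf H P i = 0 → m i = 0 := fun i hi => hm i fun h => hB i h hi
  have he0 : ∀ i, nf H P i = 0 → e i = 0 := by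
    intro i hi
    have h1 : i ≠ j := fun h => hj (h ▸ hi)
    have h2 : i ≠ b := fun h => hb (h ▸ hi)
    simp [e, h1, h2, hm0 i hi]
  have he1 : ∑ i, e i = 0 := by
    simp [e, Finset.sum_add_distrib, Finset.sum_sub_distrib]
  have he2 : ∑ i, (e i : ℚ) • a i = 0 := by
    have h1 : ∑ i, (e i : ℚ) • a i = (M : ℚ) • a j - ∑ i, (m i : ℚ) • a i +
        ((∑ i, (m i : ℚ)) - M) • a b := by
      simp only [e]
      push_cast
      simp only [add_smul, sub_smul, Finset.sum_add_distrib, Finset.sum_sub_distrib]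
      congr 2
      · simp
      · simp [sub_smul]
    rw [h1]
    simp only [smul_sub, Finset.sum_sub_distrib] at hrel2
    rw [← Finset.sum_smul] at hrel2
    rw [sub_smul]
    linear_combination (exp := 1) hrel2
  have h3 := hrel e he0 he1 he2
  refine ⟨M, hM, m, hm, _, ?_, h3, ?_⟩
  · refine Finset.prod_ne_zero_iff.2 fun i _ => ?_
    by_cases hi : nf H P i = 0
    · rw [he0 i hi, zpow_zero]
      exact one_ne_zero
    · exact zpow_ne_zero _ hi
  · let w : Fin q → κ := fun i => if nf H P i = 0 then 1 else nf H P i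
    have hw : ∀ i, w i ≠ 0 := by
      intro i
      simp only [w]
      split_ifs with h
      · exact one_ne_zero
      · exact h
    have hwb : nf H P b = w b := by simp [w, hb]
    have hwj : nf H P j = w j := by simp [w, hj]
    have e1 : ∏ i, nf H P i ^ e i = ∏ i, w i ^ e i := by
      refine Finset.prod_congr rfl fun i _ => ?_
      by_cases hi : nf H P i = 0
      · rw [he0 i hi, zpow_zero, zpow_zero]
      · simp [w, hi]
    have e2 : ∏ i, (nf H P i / nf H P b) ^ m i = ∏ i, (w i / w b) ^ m i := by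
      refine Finset.prod_congr rfl fun i _ => ?_
      by_cases hi : nf H P i = 0
      · rw [hm0 i hi, zpow_zero, zpow_zero]
      · rw [hwb]
        simp [w, hi]
    have e3 : ∏ i, w i ^ e i = w j ^ M * (∏ i, w i ^ m i)⁻¹ * (w b ^ (∑ i, m i) * (w b ^ M)⁻¹) := by
      have h4 : ∀ i, w i ^ e i = (if i = j then w i ^ M else 1) * (w i ^ m i)⁻¹ *
          (if i = b then w i ^ ((∑ i, m i) - M) else 1) := by
        intro i
        simp only [e]
        rw [zpow_add₀ (hw i), zpow_sub₀ (hw i), div_eq_mul_inv]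
        congr 2
        · split_ifs
          · rw [zpow_natCast]
          · rw [zpow_zero]
        · split_ifs
          · rfl
          · rw [zpow_zero]
      rw [Finset.prod_congr rfl fun i _ => h4 i, Finset.prod_mul_distrib, Finset.prod_mul_distrib]
      congr 1
      · congr 1
        · simp
        · rw [Finset.prod_inv_distrib]
      · rw [Finset.prod_ite_eq' Finset.univ b, if_pos (Finset.mem_univ b), zpow_sub₀ (hw b),
          zpow_natCast, div_eq_mul_inv]
    have e5 : ∀ t : Finset (Fin q), ∏ i ∈ t, w b ^ m i = w b ^ (∑ i ∈ t, m i) := by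
      intro t
      induction t using Finset.induction_on with
      | empty => simp
      | insert x t hx ih =>
        rw [Finset.prod_insert hx, Finset.sum_insert hx, ih, zpow_add₀ (hw b)]
    have e4 : ∏ i, (w i / w b) ^ m i = (∏ i, w i ^ m i) * (w b ^ (∑ i, m i))⁻¹ := by
      rw [← e5, ← div_eq_mul_inv, ← Finset.prod_div_distrib]
      exact Finset.prod_congr rfl fun i _ => div_zpow _ _ _
    rw [e1, e2, e3, e4, hwb, hwj, div_pow]
    have h5 : ∏ i, w i ^ m i ≠ 0 := Finset.prod_ne_zero_iff.2 fun i _ => zpow_ne_zero _ (hw i)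
    have h6 : w b ^ (∑ i, m i) ≠ 0 := zpow_ne_zero _ (hw b)
    have h7 : w b ^ M ≠ 0 := pow_ne_zero _ (hw b)
    field_simp

/-- the dimension of the polytope spanned by the exponents in `E` -/
noncomputable def rk (a : Fin q → Fin T → ℚ) (E : Finset (Fin q)) : ℕ :=
  Module.finrank ℚ (Submodule.span ℚ {v | ∃ i ∈ E, ∃ i' ∈ E, v = a i - a i'})

lemma span_eq (a : Fin q → Fin T → ℚ) {E : Finset (Fin q)} {b : Fin q} (hb : b ∈ E) :
    Submodule.span ℚ {v | ∃ i ∈ E, ∃ i' ∈ E, v = a i - a i'} =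
      Submodule.span ℚ ((fun i => a i - a b) '' E) := by
  apply le_antisymm
  · rw [Submodule.span_le]
    rintro v ⟨i, hi, i', hi', rfl⟩
    have e : a i - a i' = (a i - a b) - (a i' - a b) := by abel
    rw [e]
    exact Submodule.sub_mem _ (Submodule.subset_span ⟨i, hi, rfl⟩)
      (Submodule.subset_span ⟨i', hi', rfl⟩)
  · rw [Submodule.span_le]
    rintro v ⟨i, hi, rfl⟩
    exact Submodule.subset_span ⟨i, hi, b, hb, rfl⟩

/-- the rank drops under a specialisation which is smaller on the norms -/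
lemma rk_lt {a : Fin q → Fin T → ℚ} {P : Fin r → Fin (N + 1) → κ} {P' : Fin r → Fin (N + 1) → κ'}
    (hrel : Rel H a P) (s : Sp P P') {E E' : Finset (Fin q)} (hE : ∀ i, i ∈ E ↔ nf H P i ≠ 0)
    (hE' : ∀ i, i ∈ E' ↔ nf H P' i ≠ 0) {b j : Fin q} (hb : b ∈ E') (hj : j ∈ E) (hj' : j ∉ E') :
    rk a E' < rk a E := by
  have hsub : E' ⊆ E := fun i hi => (hE i).2 fun h => (hE' i).1 hi (s.nf_zero h)
  have hle : Submodule.span ℚ {v | ∃ i ∈ E', ∃ i' ∈ E', v = a i - a i'} ≤
      Submodule.span ℚ {v | ∃ i ∈ E, ∃ i' ∈ E, v = a i - a i'} := by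
    apply Submodule.span_mono
    rintro v ⟨i, hi, i', hi', rfl⟩
    exact ⟨i, hsub hi, i', hsub hi', rfl⟩
  unfold rk
  by_contra hno
  push Not at hno
  have heq := Submodule.eq_of_le_of_finrank_le hle hno
  have h1 : a j - a b ∈ Submodule.span ℚ ((fun i => a i - a b) '' E') := by
    rw [← span_eq a hb, heq]
    exact Submodule.subset_span ⟨j, hj, b, hsub hb, rfl⟩
  have hb0 := (hE' b).1 hb
  have hbP := (hE b).1 (hsub hb)
  obtain ⟨M, hM, m, hm, g, hg0, hg, hrel2⟩ := mult_rel hrel
    (fun i hi => (hE i).1 (hsub hi)) hbP ((hE j).1 hj) h1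
  obtain ⟨y, hy0, -, hy⟩ := Sp.R.alg s hg0 hg
  have h2 : s.R (g * ∏ i, (nf H P i / nf H P b) ^ (m i))
      (y * ∏ i, (nf H P' i / nf H P' b) ^ (m i)) := by
    refine hy.mul (Sp.R.prod _ fun i _ => ?_)
    by_cases hi : i ∈ E'
    · exact (Sp.nf_div s hb0).zpow (div_ne_zero ((hE' i).1 hi) hb0) _
    · rw [hm i hi, zpow_zero, zpow_zero]
      exact Sp.R.one s
  have h3 : nf H P' j = 0 := by
    by_contra h
    exact hj' ((hE' j).2 h)
  have h4 := (Sp.nf_div (i := j) s hb0).pow M
  rw [h3, zero_div, zero_pow (by omega), hrel2] at h4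
  have h5 := h4.unique h2
  have h6 : y * ∏ i, (nf H P' i / nf H P' b) ^ (m i) ≠ 0 := by
    refine mul_ne_zero hy0 (Finset.prod_ne_zero_iff.2 fun i _ => ?_)
    by_cases hi : i ∈ E'
    · exact zpow_ne_zero _ (div_ne_zero ((hE' i).1 hi) hb0)
    · rw [hm i hi, zpow_zero]
      exact one_ne_zero
  exact h6 h5.symm

/-- the transcendence degree of the field of the quotients of norms is at most the rank -/
lemma trd_uset_le {a : Fin q → Fin T → ℚ} {P : Fin r → Fin (N + 1) → κ} (hrel : Rel H a P)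
    {E : Finset (Fin q)} (hE : ∀ i, i ∈ E ↔ nf H P i ≠ 0) : trd (uset H P) ≤ rk a E := by
  classical
  rcases E.eq_empty_or_nonempty with h0 | ⟨b, hb⟩
  · have : trd (uset H P) = 0 := by
      apply trd_eq_zero
      rintro y ⟨i, i', hi, _, _⟩
      have := (hE i).2 hi
      rw [h0] at this
      exact absurd this (Finset.notMem_empty _)
    rw [this]
    exact zero_le
  have hb0 := (hE b).1 hb
  obtain ⟨B, hBE, -, hspan, hli⟩ := exists_linearIndepOn_extension (K := ℚ)
    (v := fun i => a i - a b) (linearIndepOn_empty ℚ _) (Set.empty_subset (E : Set (Fin q)))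
  have hBfin : B.Finite := Set.toFinite B
  obtain ⟨B', rfl⟩ : ∃ B' : Finset (Fin q), (B' : Set (Fin q)) = B := ⟨hBfin.toFinset, hBfin.coe_toFinset⟩
  have hspan2 : Submodule.span ℚ ((fun i => a i - a b) '' E) =
      Submodule.span ℚ ((fun i => a i - a b) '' B') := by
    apply le_antisymm
    · rw [Submodule.span_le]
      exact hspan
    · exact Submodule.span_mono (Set.image_mono hBE)
  have hrk : rk a E = B'.card := by
    unfold rk
    rw [span_eq a hb, hspan2, Set.image_eq_range]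
    have h1 := finrank_span_eq_card (R := ℚ) (b := fun i : B' => a i - a b) hli
    rw [Fintype.card_coe] at h1
    exact h1
  let K := IntermediateField.adjoin ℚ ((fun i => nf H P i / nf H P b) '' (B' : Set (Fin q)))
  have hK : ∀ i ∈ B', IsAlgebraic K (nf H P i / nf H P b) := fun i hi =>
    isAlgebraic_algebraMap (R := K)
      ⟨nf H P i / nf H P b, IntermediateField.subset_adjoin ℚ _ ⟨i, hi, rfl⟩⟩
  have key : ∀ i ∈ E, IsAlgebraic K (nf H P i / nf H P b) := by
    intro j hj
    have h1 : a j - a b ∈ Submodule.span ℚ ((fun i => a i - a b) '' B') := by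
      rw [← hspan2]
      exact Submodule.subset_span ⟨j, hj, rfl⟩
    obtain ⟨M, hM, m, hm, g, hg0, hg, hrel2⟩ := mult_rel hrel
      (fun i hi => (hE i).1 (hBE hi)) hb0 ((hE j).1 hj) h1
    have h2 : IsAlgebraic K ((nf H P j / nf H P b) ^ M) := by
      rw [hrel2]
      refine (hg.tower_top K).mul ?_
      have : ∀ t : Finset (Fin q), IsAlgebraic K (∏ i ∈ t, (nf H P i / nf H P b) ^ (m i)) := by
        intro t
        induction t using Finset.induction_on with
        | empty => simpa using isAlgebraic_one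
        | insert x t hx ih =>
          rw [Finset.prod_insert hx]
          refine IsAlgebraic.mul ?_ ih
          by_cases hx' : x ∈ B'
          · cases m x with
            | ofNat k =>
              rw [Int.ofNat_eq_natCast, zpow_natCast]
              exact (hK x hx').pow k
            | negSucc k =>
              rw [zpow_negSucc]
              exact ((hK x hx').pow (k + 1)).inv
          · rw [hm x hx', zpow_zero]
            exact isAlgebraic_one
      exact this _
    exact IsAlgebraic.of_pow (by omega) h2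
  have h3 : trd (uset H P) ≤
      trd ((fun i => nf H P i / nf H P b) '' (B' : Set (Fin q))) := by
    apply trd_le_of_alg
    rintro y ⟨i, i', hi, hi', rfl⟩
    have e : nf H P i / nf H P i' = (nf H P i / nf H P b) / (nf H P i' / nf H P b) := by
      rw [div_div_div_cancel_right₀ hb0]
    rw [e, div_eq_mul_inv]
    exact (key i ((hE i).2 hi)).mul (key i' ((hE i').2 hi')).inv
  refine h3.trans ((trd_le_card _).trans ?_)
  refine Cardinal.mk_image_le.trans ?_
  rw [hrk]
  simp

end

end Pool.Agent.Y734.I
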