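import Mathlib
import Pool.Agent.Y734.I.Rk

/-!
# Project Y734/I: specialisations which lose little
-/

set_option autoImplicit false

namespace Pool.Agent.Y734.I

open MvPolynomial

section

variable {κ κ' κ'' : Type} [Field κ] [Algebra ℚ κ] [Field κ'] [Algebra ℚ κ'] [Field κ'']
  [Algebra ℚ κ''] {N n r r' q T : ℕ}
  {𝓕 : Set (MvPolynomial (Fin (N + 1)) ℚ)} {H : Fin q → Fin (N + 1) → ℚ}

lemma aeval_lin (l : Fin (N + 1) → ℚ) (x : Fin (N + 1) → κ) :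
    aeval x (Pool.Agent.Y734.lin (n := N) l) = ev l x := by
  simp [Pool.Agent.Y734.lin, ev]

lemma lin_hom (l : Fin (N + 1) → ℚ) : (Pool.Agent.Y734.lin (n := N) l).IsHomogeneous 1 := by
  unfold Pool.Agent.Y734.lin
  refine IsHomogeneous.sum _ _ _ fun j _ => ?_
  have := (isHomogeneous_C (Fin (N + 1)) (l j)).mul (isHomogeneous_X ℚ j)
  simpa using this

lemma R_zero_of {P : Fin r → Fin (N + 1) → κ} {P' : Fin r → Fin (N + 1) → κ'}
    {Q : Fin r' → Fin (N + 1) → κ} {Q' : Fin r' → Fin (N + 1) → κ''} (s : Sp P P') (t : Sp Q Q')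
    (hV : s.V = t.V) {x : κ} (hx : s.R x 0) : t.R x 0 := by
  obtain ⟨hx1, hx2⟩ := hx
  have hx3 : x ∈ t.V := hV ▸ hx1
  refine ⟨hx3, ?_⟩
  by_contra hno
  have h1 : t.R x (t.ρ ⟨x, hx3⟩) := ⟨hx3, rfl⟩
  obtain ⟨h2, -⟩ := h1.inv hno
  have h3 : x⁻¹ ∈ s.V := hV ▸ h2
  have hx0 : x ≠ 0 := by
    rintro rfl
    exact hno (map_zero t.ρ)
  have h4 : s.R x⁻¹ (s.ρ ⟨x⁻¹, h3⟩) := ⟨h3, rfl⟩
  have h5 := Sp.R.mul (s := s) ⟨hx1, hx2⟩ h4
  rw [mul_inv_cancel₀ hx0, zero_mul] at h5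
  exact zero_ne_one (h5.unique (Sp.R.one s))

/-- reductions of the same point along the same valuation ring satisfy the same equations -/
lemma same_V {P : Fin r → Fin (N + 1) → κ} {P' : Fin r → Fin (N + 1) → κ'}
    {Q : Fin r' → Fin (N + 1) → κ} {Q' : Fin r' → Fin (N + 1) → κ''} (s : Sp P P') (t : Sp Q Q')
    (hV : s.V = t.V) {k : Fin r} {k' : Fin r'} (hPQ : Q k' = P k) {d : ℕ}
    {Φ : MvPolynomial (Fin (N + 1)) ℚ} (hΦ : Φ.IsHomogeneous d) (h : aeval (P' k) Φ = 0) :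
    aeval (Q' k') Φ = 0 := by
  obtain ⟨j, hj⟩ := Function.ne_iff.1 (s.ne k)
  have h1 := Sp.R.coord s k j
  obtain ⟨h2, -⟩ := h1.inv hj
  have h3 : t.c k' * P k j ∈ t.V := by
    rw [← hPQ]
    exact t.mem k' j
  have hcP : s.c k * P k j ≠ 0 := by
    intro h0
    rw [h0] at h1
    exact hj (h1.unique (Sp.R.zero s))
  have h4 : t.c k' / s.c k ∈ t.V := by
    have e : t.c k' / s.c k = (t.c k' * P k j) * (s.c k * P k j)⁻¹ := by
      have := s.c_ne k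
      have : P k j ≠ 0 := right_ne_zero_of_mul hcP
      field_simp
    rw [e]
    exact t.V.mul_mem _ _ h3 (hV ▸ h2)
  have h5 := Sp.R.poly s k Φ
  rw [h] at h5
  have h6 := R_zero_of s t hV h5
  have h7 : t.R (t.c k' / s.c k) (t.ρ ⟨_, h4⟩) := ⟨h4, rfl⟩
  have h8 := (h7.pow d).mul h6
  rw [mul_zero] at h8
  have e : (t.c k' / s.c k) ^ d * aeval (fun j => s.c k * P k j) Φ =
      aeval (fun j => t.c k' * Q k' j) Φ := by
    rw [aeval_mul hΦ, aeval_mul hΦ, hPQ, div_pow]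
    have := s.c_ne k
    field_simp
  rw [e] at h8
  exact (h8.unique (Sp.R.poly t k' Φ)).symm

lemma same_V_ev {P : Fin r → Fin (N + 1) → κ} {P' : Fin r → Fin (N + 1) → κ'}
    {Q : Fin r' → Fin (N + 1) → κ} {Q' : Fin r' → Fin (N + 1) → κ''} (s : Sp P P') (t : Sp Q Q')
    (hV : s.V = t.V) {k : Fin r} {k' : Fin r'} (hPQ : Q k' = P k) {l : Fin (N + 1) → ℚ}
    (h : ev l (P' k) = 0) : ev l (Q' k') = 0 := by
  rw [← aeval_lin] at h ⊢
  exact same_V s t hV hPQ (lin_hom l) h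

/-- if the quotients by `l(x)` are algebraic then all ratios are -/
lemma rat_alg {k₁ : IntermediateField ℚ κ} {x : Fin (N + 1) → κ} {l : Fin (N + 1) → ℚ}
    (hl : ev l x ≠ 0) (h : ∀ j, IsAlgebraic k₁ (x j / ev l x)) (j j' : Fin (N + 1)) :
    IsAlgebraic k₁ (x j / x j') := by
  have e : x j / x j' = (x j / ev l x) / (x j' / ev l x) := by
    rw [div_div_div_cancel_right₀ hl]
  rw [e, div_eq_mul_inv]
  exact (h j).mul (h j').inv

lemma bot_alg {x : κ} (h : IsAlgebraic (⊥ : IntermediateField ℚ κ) x) : IsAlgebraic ℚ x := by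
  have h1 : Algebra.IsAlgebraic ℚ (⊥ : IntermediateField ℚ κ) := by
    constructor
    intro y
    obtain ⟨a, ha⟩ := IntermediateField.mem_bot.1 y.2
    have : y = algebraMap ℚ (⊥ : IntermediateField ℚ κ) a := by
      apply Subtype.ext
      rw [← ha, eq_ratCast, eq_ratCast]
      simp
    rw [this]
    exact isAlgebraic_algebraMap a
  exact h.restrictScalars ℚ

theorem pl (hstep : StepStmt) (hnv : NvStmt) (hred : RedStmt) (hmono : MonoStmt)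
    (P : Fin r → Fin (N + 1) → κ) (hP : ∀ k, P k ≠ 0) (k : Fin r) (l : Fin (N + 1) → ℚ)
    (hl : ev l (P k) ≠ 0) (m : ℕ) (hm : ((m + 1 : ℕ) : Cardinal) ≤ trd (rat (P k))) :
    ∃ (κ' : Type) (_ : Field κ') (_ : Algebra ℚ κ') (P' : Fin r → Fin (N + 1) → κ'),
      Nonempty (Sp P P') ∧ ev l (P' k) = 0 ∧ trd (rats P) ≤ trd (rats P') + 1 ∧
        (m : Cardinal) ≤ trd (rat (P' k)) := by
  let Q : Fin 1 → Fin (N + 1) → κ := fun _ => P k
  have hrats : ∀ {κ₂ : Type} [Field κ₂] [Algebra ℚ κ₂] (Q : Fin 1 → Fin (N + 1) → κ₂),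
      rats Q = rat (Q 0) := by
    intro κ₂ _ _ Q
    ext y
    constructor
    · rintro ⟨i, j, j', h⟩
      obtain rfl : i = 0 := Subsingleton.elim _ _
      exact ⟨j, j', h⟩
    · rintro ⟨j, j', h⟩
      exact ⟨0, j, j', h⟩
  obtain ⟨j, hj⟩ : ∃ j, ¬ IsAlgebraic (⊥ : IntermediateField ℚ κ) (P k j / ev l (P k)) := by
    by_contra hno
    push Not at hno
    have h1 : trd (rat (P k)) = 0 := by
      apply trd_eq_zero
      rintro y ⟨j, j', rfl⟩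
      exact bot_alg (rat_alg hl hno j j')
    rw [h1] at hm
    exact absurd hm (by simp)
  obtain ⟨κ₁, i1, i2, Q₁, s₁, -, h1⟩ := hnv κ N 1 Q (fun _ => hP k) ⊥ 0 l hl j hj
  obtain ⟨κ₂, i3, i4, Q₂, ⟨s₂⟩, h2, h3, -⟩ := hstep κ κ₁ N 1 Q Q₁ ⟨s₁⟩ l 0 hl h1
  obtain ⟨κ₃, i5, i6, P₃, s₃, hV⟩ := hred κ N r P hP s₂.V (fun a => (Sp.R.rat s₂ a).1)
  have h4 : ev l (P₃ k) = 0 := same_V_ev s₂ s₃ hV.symm (k := 0) (k' := k) rfl h2
  have h5 : trd (rat (Q₂ 0)) ≤ trd (rat (P₃ k)) :=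
    hmono κ₃ κ₂ N (P₃ k) (Q₂ 0) (s₂.ne 0)
      (fun d Φ hΦ h => same_V s₃ s₂ hV (k := k) (k' := 0) rfl hΦ h)
  obtain ⟨κ', i7, i8, P', hs', h6, h7, h8⟩ := hstep κ κ₃ N r P P₃ ⟨s₃⟩ l k hl h4
  have h9 : trd (rat (P₃ k)) ≤ trd (rat (P' k)) := hmono κ' κ₃ N (P' k) (P₃ k) (s₃.ne k)
    (fun d Φ hΦ h => h8 k d Φ hΦ h)
  refine ⟨κ', i7, i8, P', hs', h6, h7, ?_⟩
  rw [hrats, hrats] at h3
  have h10 : ((m + 1 : ℕ) : Cardinal) ≤ trd (rat (P' k)) + 1 := by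
    refine hm.trans (h3.trans ?_)
    exact add_le_add (h5.trans h9) le_rfl
  rw [Nat.cast_add, Nat.cast_one] at h10
  exact Cardinal.add_one_le_add_one_iff.1 h10

end

end Pool.Agent.Y734.I
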