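import Mathlib
import Pool.Agent.Y734.I.Pl

/-!
# Project Y734/I: the invariants of a tuple of points, and specialisation to a vertex
-/

set_option autoImplicit false

namespace Pool.Agent.Y734.I

open MvPolynomial

section

variable {κ κ' : Type} [Field κ] [Algebra ℚ κ] [Field κ'] [Algebra ℚ κ'] {N n r q T : ℕ}
  {𝓕 : Set (MvPolynomial (Fin (N + 1)) ℚ)} {H : Fin q → Fin (N + 1) → ℚ}
  {a : Fin q → Fin T → ℚ} {ω : Fin q → ℚ}

open Classical in
/-- the indices with nonzero norm -/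
noncomputable def su (H : Fin q → Fin (N + 1) → ℚ) (P : Fin r → Fin (N + 1) → κ) :
    Finset (Fin q) := Finset.univ.filter fun i => nf H P i ≠ 0

lemma mem_su {P : Fin r → Fin (N + 1) → κ} (i : Fin q) : i ∈ su H P ↔ nf H P i ≠ 0 := by
  unfold su
  simp

/-- the invariants -/
structure Good (𝓕 : Set (MvPolynomial (Fin (N + 1)) ℚ)) (H : Fin q → Fin (N + 1) → ℚ)
    (a : Fin q → Fin T → ℚ) (ω : Fin q → ℚ) (P : Fin r → Fin (N + 1) → κ) : Prop where
  ne : ∀ k, P k ≠ 0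
  onX : ∀ k, OnX 𝓕 (P k)
  rel : Rel H a P
  con : ∀ i i', a i = a i' →
    nf H P i * algebraMap ℚ κ (ω i') = nf H P i' * algebraMap ℚ κ (ω i)
  rk : (rk a (su H P) : Cardinal) ≤ trd (rats P)

lemma Sp.rel {P : Fin r → Fin (N + 1) → κ} {P' : Fin r → Fin (N + 1) → κ'} (s : Sp P P')
    (h : Rel H a P) : Rel H a P' := by
  intro e he0 he1 he2
  have he0' : ∀ i, nf H P i = 0 → e i = 0 := fun i hi => he0 i (s.nf_zero hi)
  have h1 := h e he0' he1 he2
  have hne : ∏ i, nf H P i ^ e i ≠ 0 := by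
    refine Finset.prod_ne_zero_iff.2 fun i _ => ?_
    by_cases hi : nf H P i = 0
    · rw [he0' i hi, zpow_zero]
      exact one_ne_zero
    · exact zpow_ne_zero _ hi
  obtain ⟨y, -, hy, hR⟩ := Sp.R.alg s hne h1
  set C := ∏ k, s.c k with hC
  have hC0 : C ≠ 0 := Finset.prod_ne_zero_iff.2 fun k _ => s.c_ne k
  have h2 : s.R (∏ i, (C * nf H P i) ^ e i) (∏ i, nf H P' i ^ e i) := by
    refine Sp.R.prod _ fun i _ => ?_
    by_cases hi : nf H P' i = 0
    · rw [he0 i hi, zpow_zero, zpow_zero]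
      exact Sp.R.one s
    · exact (Sp.R.nf s H i).zpow hi _
  have h3 : ∏ i, (C * nf H P i) ^ e i = ∏ i, nf H P i ^ e i := by
    have h4 : ∀ t : Finset (Fin q), ∏ i ∈ t, C ^ e i = C ^ (∑ i ∈ t, e i) := by
      classical
      intro t
      induction t using Finset.induction_on with
      | empty => simp
      | insert x t hx ih =>
        rw [Finset.prod_insert hx, Finset.sum_insert hx, ih, zpow_add₀ hC0]
    have h5 : ∀ i, (C * nf H P i) ^ e i = C ^ e i * nf H P i ^ e i := fun i => mul_zpow _ _ _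
    rw [Finset.prod_congr rfl fun i _ => h5 i, Finset.prod_mul_distrib, h4, he1, zpow_zero,
      one_mul]
  rw [h3] at h2
  rw [← hR.unique h2]
  exact hy

lemma Sp.con {P : Fin r → Fin (N + 1) → κ} {P' : Fin r → Fin (N + 1) → κ'} (s : Sp P P')
    {i i' : Fin q} {x y : ℚ}
    (h : nf H P i * algebraMap ℚ κ x = nf H P i' * algebraMap ℚ κ y) :
    nf H P' i * algebraMap ℚ κ' x = nf H P' i' * algebraMap ℚ κ' y := by
  have h1 := (Sp.R.nf s H i).mul (Sp.R.rat s x)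
  have h2 := (Sp.R.nf s H i').mul (Sp.R.rat s y)
  rw [mul_assoc, h, ← mul_assoc] at h1
  exact h1.unique h2

theorem Good.sp (h𝓕 : ∀ F ∈ 𝓕, ∃ d, F.IsHomogeneous d) (hH : GPX 𝓕 n H) (hq : r * n + 1 ≤ q)
    {P : Fin r → Fin (N + 1) → κ} {P' : Fin r → Fin (N + 1) → κ'} (hg : Good 𝓕 H a ω P)
    (s : Sp P P') (htrd : trd (rats P) ≤ trd (rats P') + 1) {j : Fin q} (hj : j ∈ su H P)
    (hj' : j ∉ su H P') : Good 𝓕 H a ω P' ∧ I.rk a (su H P') < I.rk a (su H P) := by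
  have hX : ∀ k, OnX 𝓕 (P' k) := fun k => s.onX h𝓕 (hg.onX k)
  obtain ⟨b, hb⟩ := exists_nf_ne hH hq P' s.ne hX
  have hlt : I.rk a (su H P') < I.rk a (su H P) :=
    rk_lt hg.rel s (fun i => mem_su i) (fun i => mem_su i) ((mem_su b).2 hb) hj hj'
  refine ⟨⟨s.ne, hX, s.rel hg.rel, fun i i' h => s.con (hg.con i i' h), ?_⟩, hlt⟩
  have h1 : ((I.rk a (su H P') + 1 : ℕ) : Cardinal) ≤ trd (rats P') + 1 := by
    refine le_trans ?_ (hg.rk.trans htrd)
    exact_mod_cast hlt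
  rw [Nat.cast_add, Nat.cast_one] at h1
  exact Cardinal.add_one_le_add_one_iff.1 h1

lemma su_sub {P : Fin r → Fin (N + 1) → κ} {P' : Fin r → Fin (N + 1) → κ'} (s : Sp P P') :
    su H P' ⊆ su H P := fun i hi => (mem_su i).2 fun h => (mem_su i).1 hi (s.nf_zero h)

/-- specialisation to a vertex -/
theorem descend (hstep : StepStmt) (hnv : NvStmt) (h𝓕 : ∀ F ∈ 𝓕, ∃ d, F.IsHomogeneous d)
    (hH : GPX 𝓕 n H) (hq : r * n + 1 ≤ q) (m : ℕ) : ∀ (κ : Type) [Field κ] [Algebra ℚ κ]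
    (P : Fin r → Fin (N + 1) → κ), Good 𝓕 H a ω P → I.rk a (su H P) = m →
    ∃ (κ' : Type) (_ : Field κ') (_ : Algebra ℚ κ') (P' : Fin r → Fin (N + 1) → κ'),
      Good 𝓕 H a ω P' ∧ I.rk a (su H P') = 0 ∧ su H P' ⊆ su H P ∧
      ∀ k (l : Fin (N + 1) → ℚ), ev l (P k) = 0 → ev l (P' k) = 0 := by
  induction m using Nat.strong_induction_on with
  | _ m ih =>
    intro κ _ _ P hg hm
    rcases Nat.eq_zero_or_pos m with h0 | hpos
    · exact ⟨κ, inferInstance, inferInstance, P, hg, hm.trans h0, subset_rfl, fun k l h => h⟩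
    obtain ⟨b, hb⟩ := exists_nf_ne hH hq P hg.ne hg.onX
    obtain ⟨k, j, hkj⟩ : ∃ k j,
        ¬ IsAlgebraic (⊥ : IntermediateField ℚ κ) (P k j / ev (H b) (P k)) := by
      by_contra hno
      push Not at hno
      have h1 : trd (rats P) = 0 := by
        apply trd_eq_zero
        rintro y ⟨k, j, j', rfl⟩
        exact bot_alg (rat_alg (ev_ne_of_nf hb k) (hno k) j j')
      have h2 := hg.rk
      rw [h1, hm] at h2
      have h3 : (m : Cardinal) = 0 := nonpos_iff_eq_zero.1 h2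
      have h4 : m = 0 := by exact_mod_cast h3
      omega
    obtain ⟨κ₁, i1, i2, P₁, s₁, -, h1⟩ := hnv κ N r P hg.ne ⊥ k (H b) (ev_ne_of_nf hb k) j hkj
    obtain ⟨κ₂, i3, i4, P₂, ⟨s₂⟩, h2, h3, -⟩ :=
      hstep κ κ₁ N r P P₁ ⟨s₁⟩ (H b) k (ev_ne_of_nf hb k) h1
    have hb' : b ∉ su H P₂ := fun h => (mem_su b).1 h (nf_eq_zero h2)
    obtain ⟨hg₂, hlt⟩ := hg.sp h𝓕 hH hq s₂ h3 ((mem_su b).2 hb) hb'
    obtain ⟨κ', i5, i6, P', hg', hr', hs', hv'⟩ := ih _ (hm ▸ hlt) κ₂ P₂ hg₂ rfl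
    exact ⟨κ', i5, i6, P', hg', hr', hs'.trans (su_sub s₂),
      fun k l h => hv' k l (s₂.ev_zero h)⟩

/-- specialisation to the line (or curve) of the intersection of `s` hyperplanes -/
theorem levels (hstep : StepStmt) (hnv : NvStmt) (hred : RedStmt) (hmono : MonoStmt)
    (h𝓕 : ∀ F ∈ 𝓕, ∃ d, F.IsHomogeneous d)
    (hH : GPX 𝓕 n H) (hq : r * n + 1 ≤ q) (k₀ : Fin r) (κ : Type) [Field κ] [Algebra ℚ κ]
    (P : Fin r → Fin (N + 1) → κ) (hg : Good 𝓕 H a ω P)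
    (htd : (n : Cardinal) ≤ trd (rat (P k₀))) (s : ℕ) (hs : s ≤ n) :
    ∃ (κ' : Type) (_ : Field κ') (_ : Algebra ℚ κ') (P' : Fin r → Fin (N + 1) → κ'),
      Good 𝓕 H a ω P' ∧ ((n - s : ℕ) : Cardinal) ≤ trd (rat (P' k₀)) ∧
      ∃ A : Finset (Fin q), A.card = s ∧ ∀ i ∈ A, ev (H i) (P' k₀) = 0 := by
  classical
  induction s with
  | zero => exact ⟨κ, inferInstance, inferInstance, P, hg, htd, ∅, rfl, by simp⟩
  | succ s ih =>
    obtain ⟨κ₁, i1, i2, P₁, hg₁, htd₁, A, hA, hAv⟩ := ih (by omega)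
    obtain ⟨b, hb⟩ := exists_nf_ne hH hq P₁ hg₁.ne hg₁.onX
    have e : n - s = (n - (s + 1)) + 1 := by omega
    rw [e] at htd₁
    obtain ⟨κ', i3, i4, P', ⟨s'⟩, h1, h2, h3⟩ := pl hstep hnv hred hmono P₁ hg₁.ne k₀ (H b)
      (ev_ne_of_nf hb k₀) _ htd₁
    have hb' : b ∉ su H P' := fun h => (mem_su b).1 h (nf_eq_zero h1)
    obtain ⟨hg', -⟩ := hg₁.sp h𝓕 hH hq s' h2 ((mem_su b).2 hb) hb'
    refine ⟨κ', i3, i4, P', hg', h3, insert b A, ?_, ?_⟩
    · rw [Finset.card_insert_of_notMem, hA]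
      intro hbA
      exact ev_ne_of_nf hb k₀ (hAv b hbA)
    · intro i hi
      rcases Finset.mem_insert.1 hi with rfl | hi
      · exact h1
      · exact s'.ev_zero (hAv i hi)

/-- at a vertex the nonzero norms form one class -/
lemma vertex {P : Fin r → Fin (N + 1) → κ} (hg : Good 𝓕 H a ω P) (hω : ∀ i, ω i ≠ 0)
    (hr : I.rk a (su H P) = 0) {b : Fin q} (hb : b ∈ su H P) (i : Fin q) :
    i ∈ su H P ↔ a i = a b := by
  have := algebraRat.charZero κ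
  constructor
  · intro hi
    have h1 : Submodule.span ℚ {v | ∃ i ∈ su H P, ∃ i' ∈ su H P, v = a i - a i'} = ⊥ :=
      Submodule.finrank_eq_zero.1 hr
    have h2 : a i - a b ∈ (⊥ : Submodule ℚ (Fin T → ℚ)) := by
      rw [← h1]
      exact Submodule.subset_span ⟨i, hi, b, hb, rfl⟩
    exact sub_eq_zero.1 ((Submodule.mem_bot ℚ).1 h2)
  · intro hi
    rw [mem_su] at hb ⊢
    intro h0
    have h1 := hg.con i b hi
    rw [h0, zero_mul] at h1
    have h2 : algebraMap ℚ κ (ω i) ≠ 0 := by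
      rw [eq_ratCast]
      exact_mod_cast hω i
    exact mul_ne_zero hb h2 h1.symm

end

end Pool.Agent.Y734.I
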