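import Mathlib
import Pool.Agent.Y734.I.Good

/-!
# Project Y734/I: the abstract theorem
-/

set_option autoImplicit false

namespace Pool.Agent.Y734.I

open MvPolynomial

section

variable {κ : Type} [Field κ] [Algebra ℚ κ] {N n r q T : ℕ}
  {𝓕 : Set (MvPolynomial (Fin (N + 1)) ℚ)} {H : Fin q → Fin (N + 1) → ℚ}
  {a : Fin q → Fin T → ℚ} {ω : Fin q → ℚ}

lemma aeval_map {κ κ' : Type} [Field κ] [Algebra ℚ κ] [Field κ'] [Algebra ℚ κ'] (f : κ →+* κ')
    (x : Fin (N + 1) → κ) (F : MvPolynomial (Fin (N + 1)) ℚ) :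
    f (aeval x F) = aeval (fun j => f (x j)) F := by
  induction F using MvPolynomial.induction_on with
  | C c =>
    rw [aeval_C, aeval_C]
    have : f.comp (algebraMap ℚ κ) = algebraMap ℚ κ' := Subsingleton.elim _ _
    rw [← this]
    rfl
  | add p q hp hq => simp only [map_add, hp, hq]
  | mul_X p i hp => simp only [map_mul, aeval_X, hp]

lemma ev_map {κ κ' : Type} [Field κ] [Algebra ℚ κ] [Field κ'] [Algebra ℚ κ'] (f : κ →+* κ')
    (l : Fin (N + 1) → ℚ) (x : Fin (N + 1) → κ) : f (ev l x) = ev l (fun j => f (x j)) := by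
  rw [← aeval_lin, aeval_map, aeval_lin]

/-- tuples of algebraic points are conjugate to tuples of complex points -/
lemma to_C (P : Fin r → Fin (N + 1) → κ) (hP : ∀ k, P k ≠ 0)
    (halg : ∀ k j j', IsAlgebraic ℚ (P k j / P k j')) :
    ∃ p : Fin r → Fin (N + 1) → ℂ, (∀ k, p k ≠ 0) ∧
      (∀ k (l : Fin (N + 1) → ℚ), ev l (P k) = 0 → ev l (p k) = 0) ∧
      (∀ k d (F : MvPolynomial (Fin (N + 1)) ℚ), F.IsHomogeneous d → aeval (P k) F = 0 →
        aeval (p k) F = 0) ∧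
      (∀ i, nf H P i = 0 → nf H p i = 0) ∧ (∀ i, nf H P i ≠ 0 → nf H p i ≠ 0) ∧
      ∀ i i' (x y : ℚ), nf H P i * algebraMap ℚ κ x = nf H P i' * algebraMap ℚ κ y →
        nf H p i * algebraMap ℚ ℂ x = nf H p i' * algebraMap ℚ ℂ y := by
  have hj : ∀ k, ∃ j, P k j ≠ 0 := fun k => Function.ne_iff.1 (hP k)
  choose j hj using hj
  let K := algebraicClosure ℚ κ
  let x : Fin r → Fin (N + 1) → K := fun k j' =>
    ⟨P k j' / P k (j k), mem_algebraicClosure_iff.2 (halg k j' (j k))⟩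
  let i1 : Algebra ℚ K := K.algebra'
  have i2 : Algebra.IsAlgebraic ℚ K := algebraicClosure.isAlgebraic ℚ κ
  let φ : K →ₐ[ℚ] ℂ := IsAlgClosed.lift
  let g : K →+* κ := K.val.toRingHom
  have hx : ∀ k, (fun j' => g (x k j')) = fun j' => (P k (j k))⁻¹ * P k j' := by
    intro k
    funext j'
    change P k j' / P k (j k) = _
    rw [div_eq_mul_inv, mul_comm]
  let p : Fin r → Fin (N + 1) → ℂ := fun k j' => φ (x k j')
  have hev : ∀ k (l : Fin (N + 1) → ℚ), ev l (p k) = φ (ev l (x k)) := fun k l =>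
    (ev_map (φ : K →+* ℂ) l (x k)).symm
  have hev2 : ∀ k (l : Fin (N + 1) → ℚ), g (ev l (x k)) = (P k (j k))⁻¹ * ev l (P k) := by
    intro k l
    rw [ev_map, hx, ev_mul]
  set C : κ := ∏ k, (P k (j k))⁻¹ with hC
  have hC0 : C ≠ 0 := Finset.prod_ne_zero_iff.2 fun k _ => inv_ne_zero (hj k)
  have hnf : ∀ i, nf H p i = φ (nf H x i) := by
    intro i
    unfold nf
    rw [map_prod]
    exact Finset.prod_congr rfl fun k _ => hev k _
  have hnf2 : ∀ i, g (nf H x i) = C * nf H P i := by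
    intro i
    unfold nf
    rw [map_prod, hC, ← Finset.prod_mul_distrib]
    exact Finset.prod_congr rfl fun k _ => hev2 k _
  have hφ : Function.Injective φ := φ.toRingHom.injective
  have hg : Function.Injective g := g.injective
  refine ⟨p, ?_, ?_, ?_, ?_, ?_, ?_⟩
  · intro k h0
    have h1 : p k (j k) = 1 := by
      have : x k (j k) = 1 := by
        apply hg
        change P k (j k) / P k (j k) = g 1
        rw [div_self (hj k), map_one]
      simp only [p]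
      rw [this, map_one]
    rw [h0] at h1
    exact zero_ne_one h1
  · intro k l h
    rw [hev]
    have h1 : ev l (x k) = 0 := by
      apply hg
      rw [hev2, h, mul_zero, map_zero]
    rw [h1, map_zero]
  · intro k d F hF h
    have h1 : aeval (x k) F = 0 := by
      apply hg
      rw [aeval_map, hx, aeval_mul hF, h, mul_zero, map_zero]
    have h2 : aeval (p k) F = φ (aeval (x k) F) := (aeval_map (φ : K →+* ℂ) (x k) F).symm
    rw [h2, h1, map_zero]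
  · intro i h
    have h1 : nf H x i = 0 := by
      apply hg
      rw [hnf2, h, mul_zero, map_zero]
    rw [hnf, h1, map_zero]
  · intro i h
    rw [hnf]
    intro h1
    have h2 : nf H x i = 0 := hφ (by rw [h1, map_zero])
    have h3 := hnf2 i
    rw [h2, map_zero] at h3
    exact mul_ne_zero hC0 h h3.symm
  · intro i i' y z h
    have h1 : nf H x i * algebraMap ℚ K y = nf H x i' * algebraMap ℚ K z := by
      apply hg
      have hc : ∀ y : ℚ, g (algebraMap ℚ K y) = algebraMap ℚ κ y := fun y => rfl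
      rw [map_mul, map_mul, hnf2, hnf2, hc, hc, mul_assoc, mul_assoc, h]
    have h2 := congrArg φ h1
    rw [map_mul, map_mul, ← hnf, ← hnf, AlgHom.commutes, AlgHom.commutes] at h2
    exact h2

/-- the classes of the norms at the vertices, and the tuples of points -/
theorem vert (hstep : StepStmt) (hnv : NvStmt) (hred : RedStmt) (hmono : MonoStmt)
    (h𝓕 : ∀ F ∈ 𝓕, ∃ d, F.IsHomogeneous d)
    (hH : GPX 𝓕 n H) (hq : r * n + 1 ≤ q) (hω : ∀ i, ω i ≠ 0) (k₀ : Fin r)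
    (P : Fin r → Fin (N + 1) → κ) (hg : Good 𝓕 H a ω P) (htd : (1 : Cardinal) ≤ trd (rat (P k₀)))
    {j : Fin q} (hj : j ∈ su H P) :
    ∃ C : Finset (Fin q), C.Nonempty ∧ C ⊆ su H P ∧ j ∉ C ∧
      (∀ b ∈ C, ∀ i, i ∈ C ↔ a i = a b) ∧
      ∃ p : Fin r → Fin (N + 1) → ℂ, (∀ k, p k ≠ 0) ∧ (∀ k, OnX 𝓕 (p k)) ∧
        ev (H j) (p k₀) = 0 ∧ (∀ l : Fin (N + 1) → ℚ, ev l (P k₀) = 0 → ev l (p k₀) = 0) ∧
        (∀ i ∉ C, nf H p i = 0) ∧ ∃ c : ℂ, c ≠ 0 ∧ ∀ i ∈ C, nf H p i = c * (ω i : ℂ) := by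
  obtain ⟨κ₁, i1, i2, P₁, ⟨s₁⟩, h1, h2, -⟩ := pl hstep hnv hred hmono P hg.ne k₀ (H j)
    (ev_ne_of_nf ((mem_su j).1 hj) k₀) 0 (by simpa using htd)
  have hj' : j ∉ su H P₁ := fun h => (mem_su j).1 h (nf_eq_zero h1)
  obtain ⟨hg₁, -⟩ := hg.sp h𝓕 hH hq s₁ h2 hj hj'
  obtain ⟨κ₂, i3, i4, P₂, hg₂, hr₂, hs₂, hv₂⟩ :=
    descend hstep hnv h𝓕 hH hq _ κ₁ P₁ hg₁ rfl
  obtain ⟨b, hb⟩ := exists_nf_ne hH hq P₂ hg₂.ne hg₂.onX
  have hb' := (mem_su b).2 hb
  have halg : ∀ k j j', IsAlgebraic ℚ (P₂ k j / P₂ k j') := by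
    intro k j j'
    have h3 := tr hnv h𝓕 hH hq P₂ hg₂.ne hg₂.onX
    have h4 := trd_uset_le hg₂.rel (E := su H P₂) (fun i => mem_su i)
    rw [hr₂, Nat.cast_zero] at h4
    have h5 : trd (rats P₂) = 0 := nonpos_iff_eq_zero.1 (h3.trans h4)
    exact alg_of_trd h5 ⟨k, j, j', rfl⟩
  obtain ⟨p, hp1, hp2, hp3, hp4, hp5, hp6⟩ := to_C (H := H) P₂ hg₂.ne halg
  have hωb : ((ω b : ℚ) : ℂ) ≠ 0 := by exact_mod_cast hω b
  refine ⟨su H P₂, ⟨b, hb'⟩, hs₂.trans (su_sub s₁), fun h => hj' (hs₂ h), ?_, p, hp1, ?_, ?_, ?_,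
    ?_, nf H p b / (ω b : ℂ), ?_, ?_⟩
  · intro b₁ hb₁ i
    exact vertex hg₂ hω hr₂ hb₁ i
  · intro k F hF
    obtain ⟨d, hd⟩ := h𝓕 F hF
    exact hp3 k d F hd (hg₂.onX k F hF)
  · exact hp2 k₀ _ (hv₂ k₀ _ h1)
  · intro l hl
    exact hp2 k₀ _ (hv₂ k₀ _ (s₁.ev_zero hl))
  · intro i hi
    apply hp4
    by_contra h
    exact hi ((mem_su i).2 h)
  · exact div_ne_zero (hp5 b hb) hωb
  · intro i hi
    have h3 : a i = a b := (vertex hg₂ hω hr₂ hb' i).1 hi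
    have h4 := hp6 i b (ω b) (ω i) (hg₂.con i b h3)
    rw [eq_ratCast, eq_ratCast] at h4
    field_simp
    exact h4

/-- pigeonhole principle for classes -/
lemma pigeon {E : Finset (Fin q)} (hE : E.Nonempty) (C : Fin q → Finset (Fin q))
    (hne : ∀ j ∈ E, (C j).Nonempty) (hsub : ∀ j ∈ E, C j ⊆ E)
    (hcl : ∀ j ∈ E, ∀ b ∈ C j, ∀ i, i ∈ C j ↔ a i = a b) :
    ∃ j₀ ∈ E, (C j₀).card ≤ (E.filter fun j => C j = C j₀).card := by
  classical
  by_contra hno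
  push Not at hno
  have h1 : E.card = ∑ D ∈ E.image C, (E.filter fun j => C j = D).card :=
    Finset.card_eq_sum_card_image C E
  have h2 : ∑ D ∈ E.image C, (E.filter fun j => C j = D).card < ∑ D ∈ E.image C, D.card := by
    apply Finset.sum_lt_sum_of_nonempty (hE.image C)
    intro D hD
    obtain ⟨j, hj, rfl⟩ := Finset.mem_image.1 hD
    exact hno j hj
  have h3 : ∑ D ∈ E.image C, D.card = ((E.image C).biUnion id).card := by
    rw [Finset.card_biUnion]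
    · rfl
    · intro D hD D' hD' hne'
      obtain ⟨j, hj, rfl⟩ := Finset.mem_image.1 hD
      obtain ⟨j', hj', rfl⟩ := Finset.mem_image.1 hD'
      change Disjoint (C j) (C j')
      rw [Finset.disjoint_left]
      intro b hb hb'
      apply hne'
      ext i
      exact (hcl j hj b hb i).trans (hcl j' hj' b hb' i).symm
  have h4 : ((E.image C).biUnion id).card ≤ E.card := by
    apply Finset.card_le_card
    intro i hi
    obtain ⟨D, hD, hi⟩ := Finset.mem_biUnion.1 hi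
    obtain ⟨j, hj, rfl⟩ := Finset.mem_image.1 hD
    exact hsub j hj hi
  omega

/-- the abstract theorem -/
theorem abs_main (hstep : StepStmt) (hnv : NvStmt) (hred : RedStmt) (hmono : MonoStmt)
    (h𝓕 : ∀ F ∈ 𝓕, ∃ d, F.IsHomogeneous d) (hn : 1 ≤ n)
    (hH : GPX 𝓕 n H) (hG : GenPX 𝓕 n r H) (hq : r * n + 1 ≤ q) (hω : ∀ i, ω i ≠ 0) (k₀ : Fin r)
    (P : Fin r → Fin (N + 1) → κ) (hg : Good 𝓕 H a ω P)
    (htd : (n : Cardinal) ≤ trd (rat (P k₀))) : False := by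
  classical
  obtain ⟨κ₁, i1, i2, P₁, hg₁, htd₁, A, hA, hAv⟩ :=
    levels hstep hnv hred hmono h𝓕 hH hq k₀ κ P hg htd (n - 1) (by omega)
  have e : n - (n - 1) = 1 := by omega
  rw [e, Nat.cast_one] at htd₁
  set E := su H P₁ with hE
  have hEne : E.Nonempty := by
    obtain ⟨b, hb⟩ := exists_nf_ne hH hq P₁ hg₁.ne hg₁.onX
    exact ⟨b, (mem_su b).2 hb⟩
  have key : ∀ j : Fin q, ∃ C : Finset (Fin q), j ∈ E → (C.Nonempty ∧ C ⊆ E ∧ j ∉ C ∧
      (∀ b ∈ C, ∀ i, i ∈ C ↔ a i = a b) ∧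
      ∃ p : Fin r → Fin (N + 1) → ℂ, (∀ k, p k ≠ 0) ∧ (∀ k, OnX 𝓕 (p k)) ∧
        ev (H j) (p k₀) = 0 ∧ (∀ l : Fin (N + 1) → ℚ, ev l (P₁ k₀) = 0 → ev l (p k₀) = 0) ∧
        (∀ i ∉ C, nf H p i = 0) ∧ ∃ c : ℂ, c ≠ 0 ∧ ∀ i ∈ C, nf H p i = c * (ω i : ℂ)) := by
    intro j
    by_cases hj : j ∈ E
    · obtain ⟨C, hC⟩ := vert hstep hnv hred hmono h𝓕 hH hq hω k₀ P₁ hg₁ htd₁ hj
      exact ⟨C, fun _ => hC⟩
    · exact ⟨∅, fun h => absurd h hj⟩
  choose C hC using key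
  obtain ⟨j₀, hj₀, hcard⟩ := pigeon (a := a) hEne C (fun j hj => (hC j hj).1)
    (fun j hj => (hC j hj).2.1) (fun j hj => (hC j hj).2.2.2.1)
  obtain ⟨J, hJsub, hJcard⟩ := Finset.exists_subset_card_eq hcard
  have hAE : ∀ i ∈ A, i ∉ E := fun i hi h => (mem_su i).1 h (nf_eq_zero (hAv i hi))
  have hJ : ∀ j ∈ J, j ∈ E ∧ C j = C j₀ := fun j hj => Finset.mem_filter.1 (hJsub hj)
  refine hG (C j₀) A J (hC j₀ hj₀).1 (by omega) hJcard ?_ ?_ ?_ ω (fun i _ => hω i) ?_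
  · rw [Finset.disjoint_left]
    intro i hi hi'
    exact hAE i hi ((hC j₀ hj₀).2.1 hi')
  · rw [Finset.disjoint_left]
    intro i hi hi'
    obtain ⟨h1, h2⟩ := hJ i hi
    rw [← h2] at hi'
    exact (hC i h1).2.2.1 hi'
  · rw [Finset.disjoint_left]
    intro i hi hi'
    exact hAE i hi' (hJ i hi).1
  · intro j hj
    obtain ⟨h1, h2⟩ := hJ j hj
    obtain ⟨-, -, -, -, p, hp1, hp2, hp3, hp4, hp5, hp6⟩ := hC j h1
    rw [h2] at hp5 hp6
    refine ⟨p, hp1, hp2, ⟨k₀, ?_⟩, hp5, hp6⟩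
    intro i hi
    rcases Finset.mem_insert.1 hi with rfl | hi
    · exact hp3
    · exact hp4 _ (hAv i hi)

end

end Pool.Agent.Y734.I
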