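import Mathlib
import Pool.Agent.Y734.I.Stms

/-!
# Project Y734/I: the multiplicative group generated by germs of rational numbers
-/

set_option autoImplicit false

namespace Pool.Agent.Y734.I

open MvPolynomial Filter Pool.Agent.Y660.QP

section

variable {U : Ultrafilter ℕ} {Ω : Type} [Field Ω] [Algebra ℚ Ω] (g : Gm U Ω) {q : ℕ}

lemma gm_inv {f : ℕ → ℂ} (hf : ∀ t, f t ≠ 0) : (g.π f)⁻¹ = g.π (fun t => (f t)⁻¹) := by
  have h : g.π f * g.π (fun t => (f t)⁻¹) = 1 := by
    rw [← map_mul, ← map_one g.π]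
    congr 1
    funext t
    exact mul_inv_cancel₀ (hf t)
  exact (eq_inv_of_mul_eq_one_right h).symm

lemma gm_ne {f : ℕ → ℂ} (hf : ∀ t, f t ≠ 0) : g.π f ≠ 0 := by
  intro h
  obtain ⟨t, ht⟩ := ((g.ker f).1 h).exists
  exact hf t ht

lemma gm_zpow {f : ℕ → ℂ} (hf : ∀ t, f t ≠ 0) (e : ℤ) :
    (g.π f) ^ e = g.π (fun t => f t ^ e) := by
  cases e with
  | ofNat m =>
    rw [Int.ofNat_eq_natCast, zpow_natCast, ← map_pow]
    congr 1
  | negSucc m =>
    rw [zpow_negSucc, ← map_pow, gm_inv g (f := f ^ (m + 1)) (fun t => pow_ne_zero _ (hf t))]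
    congr 1

/-- the germ of a monomial -/
lemma gm_prod (ν : ℕ → Fin q → ℚ) (hν : ∀ t i, ν t i ≠ 0) (e : Fin q → ℤ) :
    ∏ i, (g.π (fun t => ((ν t i : ℚ) : ℂ))) ^ e i =
      g.π (fun t => ((∏ i, ν t i ^ e i : ℚ) : ℂ)) := by
  have h1 : ∀ i, (g.π (fun t => ((ν t i : ℚ) : ℂ))) ^ e i =
      g.π (fun t => ((ν t i : ℚ) : ℂ) ^ e i) := fun i =>
    gm_zpow g (fun t => by exact_mod_cast hν t i) (e i)
  rw [Finset.prod_congr rfl fun i _ => h1 i, ← map_prod]
  congr 1
  funext t
  simp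

/-- a germ of rational numbers with a constant power is constant -/
lemma gm_root {f : ℕ → ℚ} {M : ℕ} (hM : 1 ≤ M) {c : ℚ}
    (h : (g.π (fun t => ((f t : ℚ) : ℂ))) ^ M = algebraMap ℚ Ω c) :
    ∃ c' : ℚ, g.π (fun t => ((f t : ℚ) : ℂ)) = algebraMap ℚ Ω c' := by
  have h1 : ∀ᶠ t in (U : Filter ℕ), f t ^ M = c := by
    rw [← map_pow, ← g.rat, g.eq_iff] at h
    filter_upwards [h] with t ht
    have : ((f t ^ M : ℚ) : ℂ) = ((c : ℚ) : ℂ) := by
      push_cast
      exact ht
    exact_mod_cast this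
  have hfin : {x : ℚ | x ^ M = c}.Finite := by
    have hp : (Polynomial.X ^ M - Polynomial.C c : Polynomial ℚ) ≠ 0 :=
      Polynomial.X_pow_sub_C_ne_zero (by omega) c
    refine (Polynomial.finite_setOfPred_isRoot hp).subset ?_
    intro x hx
    simp only [Set.mem_ofPred_eq, Polynomial.IsRoot.def, Polynomial.eval_sub, Polynomial.eval_pow,
      Polynomial.eval_X, Polynomial.eval_C] at hx ⊢
    rw [hx, sub_self]
  have h2 : (⋃ x ∈ {x : ℚ | x ^ M = c}, {t | f t = x}) ∈ U := by
    refine Filter.mem_of_superset h1 ?_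
    intro t ht
    exact Set.mem_biUnion ht rfl
  obtain ⟨x, -, hx⟩ := (Ultrafilter.finite_biUnion_mem_iff hfin).1 h2
  refine ⟨x, ?_⟩
  rw [← g.rat, g.eq_iff]
  filter_upwards [hx] with t ht
  have ht' : f t = x := ht
  rw [ht']

/-- the exponents of the germs -/
theorem mult_data (ν : ℕ → Fin q → ℚ) (hν : ∀ t i, ν t i ≠ 0) :
    ∃ (T : ℕ) (a : Fin q → Fin T → ℚ) (ω : Fin q → ℚ), (∀ i, ω i ≠ 0) ∧
      (∀ i i', a i = a i' → g.π (fun t => ((ν t i : ℚ) : ℂ)) * algebraMap ℚ Ω (ω i') =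
        g.π (fun t => ((ν t i' : ℚ) : ℂ)) * algebraMap ℚ Ω (ω i)) ∧
      ∀ e : Fin q → ℤ, ∑ i, (e i : ℚ) • a i = 0 ↔
        ∃ c : ℚ, ∏ i, (g.π (fun t => ((ν t i : ℚ) : ℂ))) ^ e i = algebraMap ℚ Ω c := by
  classical
  set u : Fin q → Ω := fun i => g.π (fun t => ((ν t i : ℚ) : ℂ)) with hu
  have hu0 : ∀ i, u i ≠ 0 := fun i => gm_ne g fun t => by exact_mod_cast hν t i
  let R0 : Set (Fin q → ℚ) := {v | ∃ e : Fin q → ℤ, v = (fun i => (e i : ℚ)) ∧
    ∃ c : ℚ, ∏ i, u i ^ e i = algebraMap ℚ Ω c}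
  let V0 : Submodule ℚ (Fin q → ℚ) := Submodule.span ℚ R0
  -- integral vectors in `V0` are relations
  have key : ∀ v ∈ V0, ∃ M : ℕ, 1 ≤ M ∧ (M : ℚ) • v ∈ R0 := by
    intro v hv
    refine Submodule.span_induction (p := fun v _ => ∃ M : ℕ, 1 ≤ M ∧ (M : ℚ) • v ∈ R0)
      ?_ ?_ ?_ ?_ hv
    · intro v hv
      exact ⟨1, le_rfl, by simpa using hv⟩
    · refine ⟨1, le_rfl, fun _ => 0, ?_, 1, by simp⟩
      funext i
      simp
    · rintro v w - - ⟨M, hM, e, he, c, hc⟩ ⟨M', hM', e', he', c', hc'⟩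
      refine ⟨M * M', Nat.mul_pos hM hM', fun i => M' * e i + M * e' i, ?_, c ^ M' * c' ^ M, ?_⟩
      · funext i
        have h1 := congrFun he i
        have h2 := congrFun he' i
        simp only [Pi.smul_apply, Pi.add_apply, smul_eq_mul] at h1 h2 ⊢
        push_cast
        rw [← h1, ← h2]
        ring
      · have h1 : ∀ i, u i ^ ((M' : ℤ) * e i + M * e' i) = (u i ^ e i) ^ M' * (u i ^ e' i) ^ M := by
          intro i
          rw [zpow_add₀ (hu0 i), mul_comm (M' : ℤ), mul_comm (M : ℤ), zpow_mul, zpow_mul,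
            zpow_natCast, zpow_natCast]
        rw [Finset.prod_congr rfl fun i _ => h1 i, Finset.prod_mul_distrib, Finset.prod_pow,
          Finset.prod_pow, hc, hc', map_mul, map_pow, map_pow]
    · rintro s v - ⟨M, hM, e, he, c, hc⟩
      refine ⟨M * s.den, Nat.mul_pos hM s.den_pos, fun i => s.num * e i, ?_, c ^ s.num, ?_⟩
      · funext i
        have h1 := congrFun he i
        simp only [Pi.smul_apply, smul_eq_mul] at h1 ⊢
        push_cast
        rw [← h1, ← Rat.mul_den_eq_num s]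
        ring
      · have h1 : ∀ i, u i ^ (s.num * e i) = (u i ^ e i) ^ s.num := by
          intro i
          rw [mul_comm, zpow_mul]
        rw [Finset.prod_congr rfl fun i _ => h1 i, Finset.prod_zpow, hc, map_zpow₀]
  have key2 : ∀ e : Fin q → ℤ, (fun i => (e i : ℚ)) ∈ V0 ↔
      ∃ c : ℚ, ∏ i, u i ^ e i = algebraMap ℚ Ω c := by
    intro e
    constructor
    · intro h
      obtain ⟨M, hM, e', he', c, hc⟩ := key _ h
      have h1 : ∀ i, e' i = M * e i := by
        intro i
        have := congrFun he' i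
        simp only [Pi.smul_apply, smul_eq_mul] at this
        exact_mod_cast this.symm
      have h2 : (∏ i, u i ^ e i) ^ M = algebraMap ℚ Ω c := by
        rw [← hc, ← Finset.prod_pow]
        refine Finset.prod_congr rfl fun i _ => ?_
        rw [h1 i, mul_comm, zpow_mul, zpow_natCast]
      rw [hu, gm_prod g ν hν e] at h2 ⊢
      exact gm_root g hM h2
    · intro h
      exact Submodule.subset_span ⟨e, rfl, h⟩
  let Q := (Fin q → ℚ) ⧸ V0
  let β : Module.Basis (Fin (Module.finrank ℚ Q)) ℚ Q := Module.finBasis ℚ Q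
  let a : Fin q → Fin (Module.finrank ℚ Q) → ℚ := fun i => β.equivFun (V0.mkQ (Pi.single i 1))
  have ha : ∀ e : Fin q → ℤ, ∑ i, (e i : ℚ) • a i = 0 ↔
      ∃ c : ℚ, ∏ i, u i ^ e i = algebraMap ℚ Ω c := by
    intro e
    rw [← key2]
    have h1 : ∑ i, (e i : ℚ) • a i = β.equivFun (V0.mkQ (fun i => (e i : ℚ))) := by
      have h2 : (fun i => (e i : ℚ)) = ∑ i, (e i : ℚ) • (Pi.single i (1 : ℚ) : Fin q → ℚ) := by
        funext i
        simp [Finset.sum_apply, Pi.single_apply]
      rw [h2, map_sum, map_sum]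
      refine Finset.sum_congr rfl fun i _ => ?_
      rw [map_smul, map_smul]
    rw [h1, LinearEquiv.map_eq_zero_iff, Submodule.mkQ_apply, Submodule.Quotient.mk_eq_zero]
  have hcls : ∀ i i', a i = a i' → ∃ c : ℚ, u i = u i' * algebraMap ℚ Ω c := by
    intro i i' h
    by_cases hii : i = i'
    · exact ⟨1, by rw [hii, map_one, mul_one]⟩
    let e : Fin q → ℤ := Pi.single i 1 - Pi.single i' 1
    have h1 : ∑ j, (e j : ℚ) • a j = 0 := by
      have : ∀ j, (e j : ℚ) • a j = (if j = i then a j else 0) - (if j = i' then a j else 0) := by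
        intro j
        by_cases hj : j = i
        · subst hj
          simp [e, hii]
        · by_cases hj' : j = i'
          · subst hj'
            simp [e, hj]
          · simp [e, hj, hj']
      rw [Finset.sum_congr rfl fun j _ => this j, Finset.sum_sub_distrib]
      simp [h]
    obtain ⟨c, hc⟩ := (ha e).1 h1
    refine ⟨c, ?_⟩
    rw [← hc]
    have h2 : ∏ j, u j ^ e j = u i * (u i')⁻¹ := by
      have h3 : ∀ j, u j ^ e j = (if j = i then u j else 1) * (if j = i' then (u j)⁻¹ else 1) := by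
        intro j
        by_cases hj : j = i
        · subst hj
          simp [e, hii]
        · by_cases hj' : j = i'
          · subst hj'
            simp [e, hj]
          · simp [e, hj, hj']
      rw [Finset.prod_congr rfl fun j _ => h3 j, Finset.prod_mul_distrib]
      simp
    rw [h2]
    have := hu0 i'
    field_simp
  let rep : Fin q → Fin q := fun i => Classical.choose (⟨i, rfl⟩ : ∃ i', a i' = a i)
  have hrep : ∀ i, a (rep i) = a i := fun i =>
    Classical.choose_spec (⟨i, rfl⟩ : ∃ i', a i' = a i)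
  have hrep2 : ∀ i i', a i = a i' → rep i = rep i' := by
    intro i i' h
    simp only [rep]
    congr 1
    funext j
    rw [h]
  choose ω hω using fun i => hcls i (rep i) (hrep i).symm
  refine ⟨_, a, ω, ?_, ?_, ha⟩
  · intro i h0
    have := hω i
    rw [h0, map_zero, mul_zero] at this
    exact hu0 i this
  · intro i i' h
    change u i * _ = u i' * _
    rw [hω i, hω i', hrep2 i i' h]
    ring

end

end Pool.Agent.Y734.I
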