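import Mathlib
import Pool.Agent.Y734.I.Mult
import Pool.Agent.Y734.I.Abs

/-!
# Project Y734/I: the theorem for germs
-/

set_option autoImplicit false

namespace Pool.Agent.Y734.I

open MvPolynomial Filter Pool.Agent.Y660.QP

section

variable {κ : Type} [Field κ] [Algebra ℚ κ] {N n r q T : ℕ}
  {H : Fin q → Fin (N + 1) → ℚ}

/-- quotients of norms are in the field of the ratios of the coordinates -/
lemma nf_div_mem (P : Fin r → Fin (N + 1) → κ) (hP : ∀ k, P k ≠ 0) (i i' : Fin q) :
    nf H P i / nf H P i' ∈ IntermediateField.adjoin ℚ (rats P) := by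
  set K := IntermediateField.adjoin ℚ (rats P)
  have h1 : ∀ k, ∃ j, P k j ≠ 0 := fun k => Function.ne_iff.1 (hP k)
  choose j hj using h1
  have h2 : ∀ k (l : Fin (N + 1) → ℚ), ev l (P k) / P k (j k) ∈ K := by
    intro k l
    unfold ev
    rw [Finset.sum_div]
    refine Subfield.sum_mem _ fun j' _ => ?_
    rw [mul_div_assoc]
    exact K.mul_mem (K.algebraMap_mem _)
      (IntermediateField.subset_adjoin ℚ _ ⟨k, j', j k, rfl⟩)
  have h3 : nf H P i / nf H P i' =
      ∏ k, (ev (H i) (P k) / P k (j k)) / (ev (H i') (P k) / P k (j k)) := by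
    unfold nf
    rw [← Finset.prod_div_distrib]
    exact Finset.prod_congr rfl fun k _ => (div_div_div_cancel_right₀ (hj k) _ _).symm
  rw [h3]
  exact prod_mem fun k _ => K.div_mem (h2 k _) (h2 k _)

/-- the theorem for germs of points -/
theorem germ_main (hstep : StepStmt) (hnv : NvStmt) (hred : RedStmt) (hmono : MonoStmt)
    (hind : IndStmt) {𝓕 : Set (MvPolynomial (Fin (N + 1)) ℚ)}
    (h𝓕 : ∀ F ∈ 𝓕, ∃ d, F.IsHomogeneous d) (hn : 1 ≤ n) (hH : GPX 𝓕 n H) (hG : GenPX 𝓕 n r H)
    (hq : r * n + 1 ≤ q) {U : Ultrafilter ℕ} {Ω : Type} [Field Ω] [Algebra ℚ Ω] (g : Gm U Ω)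
    (P : Fin r → Fin (N + 1) → Ω) (hP : ∀ k, P k ≠ 0) (hX : ∀ k, OnX 𝓕 (P k)) (k₀ : Fin r)
    (htd : (n : Cardinal) ≤ trd (rat (P k₀))) (S : Finset ℕ) (hS : ∀ p ∈ S, p.Prime)
    (ν : ℕ → Fin q → ℚ) (hν : ∀ t i, ν t i ≠ 0)
    (hνS : ∀ t i i' (p : ℕ), p.Prime → p ∉ S → padicValRat p (ν t i) = padicValRat p (ν t i'))
    (hνP : ∀ i, nf H P i = g.π (fun t => ((ν t i : ℚ) : ℂ))) : False := by
  classical
  obtain ⟨T, a, ω, hω, hcon, hrel⟩ := mult_data g ν hν
  have hu0 : ∀ i, nf H P i ≠ 0 := fun i => by
    rw [hνP]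
    exact gm_ne g fun t => by exact_mod_cast hν t i
  have hrel' : ∀ e : Fin q → ℤ, ∑ i, (e i : ℚ) • a i = 0 ↔
      ∃ c : ℚ, ∏ i, nf H P i ^ e i = algebraMap ℚ Ω c := by
    intro e
    rw [hrel e]
    simp only [hνP]
  have hRel : Rel H a P := by
    intro e _ _ he
    obtain ⟨c, hc⟩ := (hrel' e).1 he
    rw [hc]
    exact isAlgebraic_algebraMap c
  have hsu : ∀ i, i ∈ su H P := fun i => (mem_su i).2 (hu0 i)
  have hrk : (I.rk a (su H P) : Cardinal) ≤ trd (rats P) := by
    rcases (su H P).eq_empty_or_nonempty with h0 | ⟨b, hb⟩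
    · have : I.rk a (su H P) = 0 := by
        unfold I.rk
        rw [h0]
        have : {v : Fin T → ℚ | ∃ i ∈ (∅ : Finset (Fin q)), ∃ i' ∈ (∅ : Finset (Fin q)),
            v = a i - a i'} = ∅ := by
          ext v
          simp
        rw [this, Submodule.span_empty, finrank_bot]
      rw [this]
      simp
    obtain ⟨B, hBE, -, hspan, hli⟩ := exists_linearIndepOn_extension (K := ℚ)
      (v := fun i => a i - a b) (linearIndepOn_empty ℚ _)
      (Set.empty_subset ((su H P : Finset (Fin q)) : Set (Fin q)))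
    have hBfin : B.Finite := Set.toFinite B
    obtain ⟨B', rfl⟩ : ∃ B' : Finset (Fin q), (B' : Set (Fin q)) = B :=
      ⟨hBfin.toFinset, hBfin.coe_toFinset⟩
    have hspan2 : Submodule.span ℚ ((fun i => a i - a b) '' (su H P)) =
        Submodule.span ℚ ((fun i => a i - a b) '' B') := by
      apply le_antisymm
      · rw [Submodule.span_le]
        exact hspan
      · exact Submodule.span_mono (Set.image_mono hBE)
    have hrk : I.rk a (su H P) = B'.card := by
      unfold I.rk
      rw [span_eq a hb, hspan2, Set.image_eq_range]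
      have h1 := finrank_span_eq_card (R := ℚ) (b := fun i : B' => a i - a b) hli
      rw [Fintype.card_coe] at h1
      exact h1
    rw [hrk]
    let φ : Fin B'.card ≃ B' := B'.equivFin.symm
    let f : Fin B'.card → ℕ → ℚ := fun m t => ν t (φ m) / ν t b
    have hf0 : ∀ m t, f m t ≠ 0 := fun m t => div_ne_zero (hν _ _) (hν _ _)
    have hfg : ∀ m, g.π (fun t => ((f m t : ℚ) : ℂ)) = nf H P (φ m) / nf H P b := by
      intro m
      rw [hνP, hνP, div_eq_mul_inv, gm_inv g (fun t => by exact_mod_cast hν t b), ← map_mul]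
      congr 1
      funext t
      simp only [f, Pi.mul_apply]
      push_cast
      rw [div_eq_mul_inv]
    have hAI := hind U Ω g S hS B'.card f hf0 (by
      intro m t p hp hpS
      have := Fact.mk hp
      simp only [f]
      rw [padicValRat.div (hν _ _) (hν _ _), hνS t (φ m) b p hp hpS, sub_self]) (by
      intro e he c hc
      apply he
      -- the exponents
      let e' : Fin q → ℤ := fun i => (if h : i ∈ B' then e (φ.symm ⟨i, h⟩) else 0) -
        (if i = b then ∑ m, e m else 0)
      have hsumB : ∀ (M : Type) [AddCommMonoid M] (F : Fin q → ℤ → M), (∀ i, F i 0 = 0) →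
          ∑ i, F i (if h : i ∈ B' then e (φ.symm ⟨i, h⟩) else 0) = ∑ m, F (φ m) (e m) := by
        intro M _ F hF
        rw [← Finset.sum_subset (Finset.subset_univ B') (fun i _ hi => by simp [hi, hF]),
          ← Finset.sum_coe_sort B', ← φ.sum_comp]
        refine Finset.sum_congr rfl fun m _ => ?_
        simp
      have h1 : ∃ c : ℚ, ∏ i, nf H P i ^ e' i = algebraMap ℚ Ω c := by
        refine ⟨c, ?_⟩
        rw [← hc]
        simp only [hfg]
        have h2 : ∀ i, nf H P i ^ e' i =
            nf H P i ^ (if h : i ∈ B' then e (φ.symm ⟨i, h⟩) else 0) *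
              (if i = b then (nf H P i ^ (∑ m, e m))⁻¹ else 1) := by
          intro i
          simp only [e']
          rw [zpow_sub₀ (hu0 i), div_eq_mul_inv]
          congr 1
          split_ifs
          · rfl
          · simp
        rw [Finset.prod_congr rfl fun i _ => h2 i, Finset.prod_mul_distrib,
          Finset.prod_ite_eq' Finset.univ b, if_pos (Finset.mem_univ b)]
        have h3 : ∏ i, nf H P i ^ (if h : i ∈ B' then e (φ.symm ⟨i, h⟩) else 0) =
            ∏ m, nf H P (φ m) ^ e m := by
          rw [← Finset.prod_subset (Finset.subset_univ B') (fun i _ hi => by simp [hi]),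
            ← Finset.prod_coe_sort B', ← φ.prod_comp]
          refine Finset.prod_congr rfl fun m _ => ?_
          simp
        have h4 : ∏ m, (nf H P (φ m) / nf H P b) ^ e m =
            (∏ m, nf H P (φ m) ^ e m) * (nf H P b ^ (∑ m, e m))⁻¹ := by
          have h5 : ∀ t : Finset (Fin B'.card), ∏ m ∈ t, nf H P b ^ e m =
              nf H P b ^ (∑ m ∈ t, e m) := by
            intro t
            induction t using Finset.induction_on with
            | empty => simp
            | insert x t hx ih =>
              rw [Finset.prod_insert hx, Finset.sum_insert hx, ih, zpow_add₀ (hu0 b)]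
          rw [← h5, ← div_eq_mul_inv, ← Finset.prod_div_distrib]
          exact Finset.prod_congr rfl fun i _ => div_zpow _ _ _
        rw [h3, h4]
      have h2 := (hrel' e').2 h1
      have h3 : ∑ m, (e m : ℚ) • (a (φ m) - a b) = 0 := by
        have h4 : ∑ i, (e' i : ℚ) • a i = ∑ m, (e m : ℚ) • a (φ m) - (∑ m, (e m : ℚ)) • a b := by
          have h5 : ∀ i, (e' i : ℚ) • a i =
              (((if h : i ∈ B' then e (φ.symm ⟨i, h⟩) else 0 : ℤ)) : ℚ) • a i -
                (if i = b then (∑ m, (e m : ℚ)) • a i else 0) := by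
            intro i
            simp only [e']
            push_cast
            rw [sub_smul]
            congr 1
            split_ifs <;> simp
          rw [Finset.sum_congr rfl fun i _ => h5 i, Finset.sum_sub_distrib,
            hsumB _ (fun i z => (z : ℚ) • a i) (fun i => by simp),
            Finset.sum_ite_eq' Finset.univ b, if_pos (Finset.mem_univ b)]
        rw [h4] at h2
        simp only [smul_sub, Finset.sum_sub_distrib, ← Finset.sum_smul]
        exact h2
      have hli2 : LinearIndependent ℚ (fun m => a (φ m) - a b) :=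
        LinearIndependent.comp hli φ φ.injective
      have h5 := Fintype.linearIndependent_iff.1 hli2 (fun m => (e m : ℚ)) h3
      funext m
      exact_mod_cast h5 m)
    refine le_trd hAI fun m => ?_
    rw [hfg]
    exact nf_div_mem P hP _ _
  exact abs_main hstep hnv hred hmono h𝓕 hn hH hG hq hω k₀ P
    ⟨hP, hX, hRel, fun i i' h => by rw [hνP, hνP]; exact hcon i i' h, hrk⟩ htd

end

end Pool.Agent.Y734.I
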