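import Mathlib
import Pool.Agent.Y734.I.Ger

/-!
# Project Y734/I: integral points of bounded degree on projective varieties
-/

set_option autoImplicit false

namespace Pool.Agent.Y734.I

open MvPolynomial NumberField Filter Pool.Agent.Y660.QP

/-- the forms in the ideal of the variety -/
def forms {N : ℕ} (𝔭 : Ideal (MvPolynomial (Fin (N + 1)) ℚ)) :
    Set (MvPolynomial (Fin (N + 1)) ℚ) := {F | F ∈ 𝔭 ∧ ∃ d, F.IsHomogeneous d}

/-- the forms which are not in the ideal -/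
def NForm {N : ℕ} (𝔭 : Ideal (MvPolynomial (Fin (N + 1)) ℚ)) : Type :=
  {Φ : MvPolynomial (Fin (N + 1)) ℚ // Φ ∉ 𝔭 ∧ ∃ k, Φ.IsHomogeneous k}

instance ctbl {N : ℕ} : Countable (MvPolynomial (Fin (N + 1)) ℚ) := by
  have : Countable (AddMonoidAlgebra ℚ (Fin (N + 1) →₀ ℕ)) := by
    have : Countable ((Fin (N + 1) →₀ ℕ) →₀ ℚ) := inferInstance
    exact (AddMonoidAlgebra.coeffEquiv (R := ℚ) (M := Fin (N + 1) →₀ ℕ)).injective.countable
  exact this

/-- the points under consideration -/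
structure IPt {N : ℕ} (𝓕 : Set (MvPolynomial (Fin (N + 1)) ℚ)) {q : ℕ}
    (H : Fin q → Fin (N + 1) → ℚ) (S : Finset ℕ) (C : ℝ) (L : Type) [Field L] [NumberField L]
    (x : Fin (N + 1) → L) : Prop where
  ne : x ≠ 0
  onX : ∀ F ∈ 𝓕, aeval x F = 0
  off : aeval x (∏ i, Pool.Agent.Y734.lin (n := N) (H i)) ≠ 0
  int : (q : ℝ) * height (n := N) x ≤
    proximity (n := N) S (∏ i, Pool.Agent.Y734.lin (H i)) q x + C

/-- norms of linear forms as products over the embeddings -/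
lemma norm_eq {N d q : ℕ} {L : Type} [Field L] [NumberField L] (H : Fin q → Fin (N + 1) → ℚ)
    (x : Fin (N + 1) → L) (σ : Fin d ≃ (L →ₐ[ℚ] ℂ)) (i : Fin q) :
    nf H (fun k j => σ k (x j)) i =
      ((Algebra.norm ℚ (aeval x (Pool.Agent.Y734.lin (n := N) (H i))) : ℚ) : ℂ) := by
  have h1 := Algebra.norm_eq_prod_embeddings ℚ ℂ (aeval x (Pool.Agent.Y734.lin (n := N) (H i)))
  rw [eq_ratCast] at h1
  rw [h1, ← σ.prod_comp]
  unfold nf
  refine Finset.prod_congr rfl fun k _ => ?_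
  rw [aeval_lin]
  exact (ev_map (σ k : L →+* ℂ) (H i) x).symm

theorem top_main (hstep : StepStmt) (hnv : NvStmt) (hred : RedStmt) (hmono : MonoStmt)
    (hind : IndStmt) (hlg : LgStmt) {N n r q : ℕ} (hn : 1 ≤ n)
    (𝔭 : Ideal (MvPolynomial (Fin (N + 1)) ℚ)) (hprime : 𝔭.IsPrime)
    (κ₁ : Type) [Field κ₁] [Algebra ℚ κ₁] (x₁ : Fin (N + 1) → κ₁) (hx₁ : x₁ ≠ 0)
    (hI : ∀ F ∈ forms 𝔭, aeval x₁ F = 0) (hdim : (n : Cardinal) ≤ trd (rat x₁))
    (H : Fin q → Fin (N + 1) → ℚ) (hH : GPX (forms 𝔭) n H)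
    (hG : ∀ d, 1 ≤ d → d ≤ r → GenPX (forms 𝔭) n d H) (hq : r * n + 1 ≤ q)
    (S : Finset ℕ) (hS : ∀ p ∈ S, p.Prime) (C : ℝ) :
    ∃ (d : ℕ) (Z : MvPolynomial (Fin (N + 1)) ℚ), Z.IsHomogeneous d ∧ Z ∉ 𝔭 ∧
      ∀ (L : Type) [Field L] [NumberField L], Module.finrank ℚ L ≤ r →
        ∀ x : Fin (N + 1) → L, IPt (forms 𝔭) H S C L x → aeval x Z = 0 := by
  classical
  -- one degree
  by_contra hcon
  have step1 : ∃ d, 1 ≤ d ∧ d ≤ r ∧ ∀ (k : ℕ) (Z : MvPolynomial (Fin (N + 1)) ℚ),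
      Z.IsHomogeneous k → Z ∉ 𝔭 → ∃ (L : Type) (_ : Field L) (_ : NumberField L)
        (x : Fin (N + 1) → L), Module.finrank ℚ L = d ∧ IPt (forms 𝔭) H S C L x ∧
          aeval x Z ≠ 0 := by
    by_contra hno
    apply hcon
    have h1 : ∀ d : ℕ, ∃ (k : ℕ) (Z : MvPolynomial (Fin (N + 1)) ℚ), Z.IsHomogeneous k ∧
        Z ∉ 𝔭 ∧ (1 ≤ d → d ≤ r → ∀ (L : Type) [Field L] [NumberField L], Module.finrank ℚ L = d →
          ∀ x : Fin (N + 1) → L, IPt (forms 𝔭) H S C L x → aeval x Z = 0) := by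
      intro d
      by_cases hd : 1 ≤ d ∧ d ≤ r
      · by_contra hno2
        apply hno
        refine ⟨d, hd.1, hd.2, fun k Z hZ hZ' => ?_⟩
        by_contra hno3
        apply hno2
        refine ⟨k, Z, hZ, hZ', fun _ _ L _ _ hL x hx => ?_⟩
        by_contra hne
        exact hno3 ⟨L, inferInstance, inferInstance, x, hL, hx, hne⟩
      · refine ⟨0, 1, isHomogeneous_one _ _, fun h => hprime.ne_top ((Ideal.eq_top_iff_one _).2 h),
          fun h h' => absurd ⟨h, h'⟩ hd⟩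
    choose k Z hZ1 hZ2 hZ3 using h1
    refine ⟨∑ d ∈ Finset.range (r + 1), k d, ∏ d ∈ Finset.range (r + 1), Z d,
      IsHomogeneous.prod _ _ _ fun d _ => hZ1 d, ?_, ?_⟩
    · intro h
      obtain ⟨d, _, hd⟩ := (Ideal.IsPrime.prod_mem_iff (hp := hprime)).1 h
      exact hZ2 d hd
    · intro L _ _ hL x hx
      rw [map_prod]
      refine Finset.prod_eq_zero (Finset.mem_range.2 (Nat.lt_succ_of_le hL)) ?_
      exact hZ3 _ Module.finrank_pos hL L rfl x hx
  obtain ⟨d, hd1, hdr, hbad⟩ := step1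
  have hdq : d * n + 1 ≤ q := (Nat.add_le_add_right (Nat.mul_le_mul_right n hdr) 1).trans hq
  -- a generic sequence
  have : Countable (NForm 𝔭) := by
    unfold NForm
    infer_instance
  have : Nonempty (NForm 𝔭) :=
    ⟨⟨1, fun h => hprime.ne_top ((Ideal.eq_top_iff_one _).2 h), 0, isHomogeneous_one _ _⟩⟩
  obtain ⟨e, he⟩ := exists_surjective_nat (NForm 𝔭)
  have hseq : ∀ t : ℕ, ∃ (L : Type) (_ : Field L) (_ : NumberField L) (x : Fin (N + 1) → L),
      Module.finrank ℚ L = d ∧ IPt (forms 𝔭) H S C L x ∧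
        ∀ s ≤ t, aeval x (e s).1 ≠ 0 := by
    intro t
    choose k hk using fun s : ℕ => (e s).2.2
    obtain ⟨L, i1, i2, x, h1, h2, h3⟩ := hbad (∑ s ∈ Finset.range (t + 1), k s)
      (∏ s ∈ Finset.range (t + 1), (e s).1) (IsHomogeneous.prod _ _ _ fun s _ => hk s) (by
        intro h
        obtain ⟨s, _, hs⟩ := (Ideal.IsPrime.prod_mem_iff (hp := hprime)).1 h
        exact (e s).2.1 hs)
    refine ⟨L, i1, i2, x, h1, h2, fun s hs h0 => h3 ?_⟩
    rw [map_prod]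
    exact Finset.prod_eq_zero (Finset.mem_range.2 (Nat.lt_succ_of_le hs)) h0
  choose L i1 i2 x hfin hx hgen using hseq
  have hσ : ∀ t, Nonempty (Fin d ≃ (L t →ₐ[ℚ] ℂ)) := by
    intro t
    have h1 : Fintype.card (L t →ₐ[ℚ] ℂ) = d := by
      rw [AlgHom.card ℚ (L t) ℂ, hfin t]
    exact ⟨(Fintype.equivFinOfCardEq h1).symm⟩
  let σ : ∀ t, Fin d ≃ (L t →ₐ[ℚ] ℂ) := fun t => Classical.choice (hσ t)
  let z : ℕ → Fin d → Fin (N + 1) → ℂ := fun t k j => σ t k (x t j)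
  let ν : ℕ → Fin q → ℚ := fun t i =>
    Algebra.norm ℚ (aeval (x t) (Pool.Agent.Y734.lin (n := N) (H i)))
  have hν : ∀ t i, ν t i ≠ 0 := by
    intro t i
    have h1 := (hx t).off
    rw [map_prod] at h1
    have h2 := Finset.prod_ne_zero_iff.1 h1 i (Finset.mem_univ _)
    exact Algebra.norm_ne_zero_iff.2 h2
  obtain ⟨S', hS', hLG⟩ := hlg N q H S hS r C
  have hνS : ∀ t i i' (p : ℕ), p.Prime → p ∉ S' →
      padicValRat p (ν t i) = padicValRat p (ν t i') := by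
    intro t i i' p hp hpS
    exact hLG (L t) ((hfin t).le.trans hdr) (x t) (hx t).ne (hx t).off (hx t).int i i' p hp hpS
  -- germs
  let U : Ultrafilter ℕ := Filter.hyperfilter ℕ
  have hU : (U : Filter ℕ) ≤ atTop := by
    rw [← Nat.cofinite_eq_atTop]
    exact Filter.hyperfilter_le_cofinite
  obtain ⟨Ω, i3, i4, ⟨g⟩⟩ := ex_gm U
  let P : Fin d → Fin (N + 1) → Ω := fun k j => g.π (fun t => z t k j)
  have hzform : ∀ t k (Φ : MvPolynomial (Fin (N + 1)) ℚ),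
      aeval (z t k) Φ = σ t k (aeval (x t) Φ) := fun t k Φ =>
    (aeval_map (σ t k : L t →+* ℂ) (x t) Φ).symm
  have hPgen : ∀ k (Φ : MvPolynomial (Fin (N + 1)) ℚ) (m : ℕ), Φ.IsHomogeneous m → Φ ∉ 𝔭 →
      aeval (P k) Φ ≠ 0 := by
    intro k Φ m hΦ hΦ'
    have h1 : aeval (P k) Φ = g.π (fun t => aeval (z t k) Φ) := g.aeval (fun t => z t k) Φ
    rw [h1]
    intro h0
    have h2 := (g.ker _).1 h0
    obtain ⟨s, hs⟩ := he ⟨Φ, hΦ', m, hΦ⟩
    have h3 : ∀ᶠ t in (U : Filter ℕ), s ≤ t := hU (eventually_ge_atTop s)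
    obtain ⟨t, ht1, ht2⟩ := (h2.and h3).exists
    have h4 := hgen t s ht2
    rw [hs] at h4
    rw [hzform] at ht1
    exact h4 ((map_eq_zero (σ t k : L t →+* ℂ)).1 ht1)
  have hP : ∀ k, P k ≠ 0 := by
    intro k h0
    obtain ⟨j, hj⟩ := Function.ne_iff.1 hx₁
    have hX : (X j : MvPolynomial (Fin (N + 1)) ℚ) ∉ 𝔭 := by
      intro h
      have := hI (X j) ⟨h, 1, isHomogeneous_X _ _⟩
      rw [aeval_X] at this
      exact hj this
    have h1 := hPgen k (X j) 1 (isHomogeneous_X _ _) hX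
    rw [aeval_X, h0] at h1
    exact h1 rfl
  have hX : ∀ k, OnX (forms 𝔭) (P k) := by
    intro k F hF
    have h1 : aeval (P k) F = g.π (fun t => aeval (z t k) F) := g.aeval (fun t => z t k) F
    rw [h1, g.ker]
    refine Eventually.of_forall fun t => ?_
    rw [hzform, (hx t).onX F hF, map_zero]
  have hνP : ∀ i, nf H P i = g.π (fun t => ((ν t i : ℚ) : ℂ)) := by
    intro i
    have h1 : ∀ k, ev (H i) (P k) = g.π (fun t => ev (H i) (z t k)) := by
      intro k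
      rw [← aeval_lin]
      have h2 : aeval (P k) (Pool.Agent.Y734.lin (n := N) (H i)) =
        g.π (fun t => aeval (z t k) (Pool.Agent.Y734.lin (n := N) (H i))) :=
        g.aeval (fun t => z t k) _
      rw [h2]
      congr 1
      funext t
      rw [aeval_lin]
    unfold nf
    rw [Finset.prod_congr rfl fun k _ => h1 k, ← map_prod]
    congr 1
    funext t
    rw [Finset.prod_apply]
    exact norm_eq H (x t) (σ t) i
  let k₀ : Fin d := ⟨0, hd1⟩
  have htd : (n : Cardinal) ≤ trd (rat (P k₀)) := by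
    refine hdim.trans (hmono Ω κ₁ N (P k₀) x₁ hx₁ ?_)
    intro m Φ hΦ h0
    by_contra hne
    refine hPgen k₀ Φ m hΦ ?_ h0
    intro hmem
    exact hne (hI Φ ⟨hmem, m, hΦ⟩)
  exact germ_main hstep hnv hred hmono hind (fun F hF => hF.2) hn hH (hG d hd1 hdr) hdq g P hP hX
    k₀ htd S' hS' ν hν hνS hνP

end Pool.Agent.Y734.I
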