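import Mathlib
import Pool.Agent.Y734.I.Top

/-!
# Project Y734/I: integral points of bounded degree on projective varieties, statements of lemmas

`X ⊂ ℙᴺ` is the variety of the homogeneous prime ideal `𝔭`, of dimension `n`, and the hyperplanes
are generic. The condition on `Ψ` below says that `n + 1` hyperplanes with `Ψ ≠ 0` have no common
point on `X`.
-/

set_option autoImplicit false

namespace Pool.Agent.Y734.I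

open MvPolynomial

/-- `n + 1` hyperplanes `h` with `Ψ(h) ≠ 0` have no common point on the variety `𝓕` -/
def Psi {N : ℕ} (n : ℕ) (𝓕 : Set (MvPolynomial (Fin (N + 1)) ℚ))
    (Ψ : MvPolynomial (Fin (n + 1) × Fin (N + 1)) ℚ) : Prop :=
  Ψ ≠ 0 ∧ ∀ h : Fin (n + 1) → Fin (N + 1) → ℚ, eval (fun ij => h ij.1 ij.2) Ψ ≠ 0 →
    ∀ (κ : Type) [Field κ] [Algebra ℚ κ] (x : Fin (N + 1) → κ), x ≠ 0 → OnX 𝓕 x →
      ∃ i, ev (h i) x ≠ 0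

/-- Job EMPTY. -/
def EmptyStmt : Prop :=
  ∀ (N n : ℕ) (𝔭 : Ideal (MvPolynomial (Fin (N + 1)) ℚ)) (_ : 𝔭.IsPrime)
    (_ : ∀ F ∈ 𝔭, ∀ d, homogeneousComponent d F ∈ 𝔭)
    (_ : Algebra.trdeg ℚ (MvPolynomial (Fin (N + 1)) ℚ ⧸ 𝔭) = n + 1),
    ∃ Ψ : MvPolynomial (Fin (n + 1) × Fin (N + 1)) ℚ, Psi n (forms 𝔭) Ψ

/-- Job GPT. The generic point. -/
def GptStmt : Prop :=
  ∀ (N n : ℕ) (𝔭 : Ideal (MvPolynomial (Fin (N + 1)) ℚ)) (_ : 𝔭.IsPrime)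
    (_ : Algebra.trdeg ℚ (MvPolynomial (Fin (N + 1)) ℚ ⧸ 𝔭) = n + 1),
    ∃ (κ₁ : Type) (_ : Field κ₁) (_ : Algebra ℚ κ₁) (x₁ : Fin (N + 1) → κ₁), x₁ ≠ 0 ∧
      (∀ F ∈ 𝔭, aeval x₁ F = 0) ∧ (n : Cardinal) ≤ trd (rat x₁)

/-- Job HBARX. A degenerate arrangement without base points. -/
def HbarXStmt : Prop :=
  ∀ (N n r q : ℕ) (_ : 2 ≤ n) (_ : r * n + 2 ≤ q) (𝓕 : Set (MvPolynomial (Fin (N + 1)) ℚ))
    (Ψ : MvPolynomial (Fin (n + 1) × Fin (N + 1)) ℚ) (_ : Psi n 𝓕 Ψ)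
    (C A J : Finset (Fin q)) (_ : A.card + 1 = n)
    (_ : Disjoint A C) (_ : Disjoint J C) (_ : Disjoint J A) (φ : Fin q → Fin q)
    (_ : Set.BijOn φ J C),
    ∃ H : Fin q → Fin (N + 1) → ℚ,
      (∀ j ∈ J, H (φ j) ∈ Submodule.span ℚ (H '' (insert j A : Finset (Fin q)))) ∧
      ∀ (κ : Type) [Field κ] [Algebra ℚ κ] (p : Fin r → Fin (N + 1) → κ), (∀ k, p k ≠ 0) →
        (∀ k, OnX 𝓕 (p k)) → ∃ i, nf H p i ≠ 0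

/-- Job GENX. The genericity condition holds outside a proper closed subset. -/
def GenXStmt : Prop :=
  ∀ (N n r q : ℕ) (_ : 2 ≤ n) (_ : r * n + 2 ≤ q) (𝓕 : Set (MvPolynomial (Fin (N + 1)) ℚ))
    (_ : ∀ F ∈ 𝓕, ∃ d, F.IsHomogeneous d)
    (Ψ : MvPolynomial (Fin (n + 1) × Fin (N + 1)) ℚ) (_ : Psi n 𝓕 Ψ),
    ∃ Φ : MvPolynomial (Fin q × Fin (N + 1)) ℚ, Φ ≠ 0 ∧ ∀ H : Fin q → Fin (N + 1) → ℚ,
      eval (fun ij => H ij.1 ij.2) Φ ≠ 0 → GPX 𝓕 n H ∧ GenPX 𝓕 n r H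

end Pool.Agent.Y734.I
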