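import Mathlib
import Pool.Agent.Y734.I.StmsX
import Pool.Agent.Y734.I.GENX.Main
import Pool.Agent.Y734.I.HBARX.B
import Pool.Agent.Y734.I.GPT.Main
import Pool.Agent.Y734.I.STEP.Main
import Pool.Agent.Y734.I.NV.Main
import Pool.Agent.Y734.I.IND.Ind
import Pool.Agent.Y734.I.LG.Main

/-!
# Project Y734/I: the theorem on varieties
-/

set_option autoImplicit false

namespace Pool.Agent.Y734.I

open MvPolynomial NumberField

theorem varX (hd : DimqStmt) (he : EmptyStmt) {N n r q : ℕ} (hn : 2 ≤ n) (hq : r * n + 2 ≤ q)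
    (𝔭 : Ideal (MvPolynomial (Fin (N + 1)) ℚ)) (hprime : 𝔭.IsPrime)
    (hhom : ∀ F ∈ 𝔭, ∀ d, homogeneousComponent d F ∈ 𝔭)
    (hdim : Algebra.trdeg ℚ (MvPolynomial (Fin (N + 1)) ℚ ⧸ 𝔭) = n + 1) :
    ∃ Φ : MvPolynomial (Fin q × Fin (N + 1)) ℚ, Φ ≠ 0 ∧
      ∀ H : Fin q → Fin (N + 1) → ℚ, eval (fun ij => H ij.1 ij.2) Φ ≠ 0 →
        ∀ S : Finset ℕ, (∀ p ∈ S, p.Prime) → ∀ C : ℝ,
          ∃ (d : ℕ) (Z : MvPolynomial (Fin (N + 1)) ℚ), Z.IsHomogeneous d ∧ Z ∉ 𝔭 ∧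
            ∀ (L : Type) [Field L] [NumberField L], Module.finrank ℚ L ≤ r →
              ∀ x : Fin (N + 1) → L, IPt (forms 𝔭) H S C L x → aeval x Z = 0 := by
  classical
  obtain ⟨Ψ, hΨ⟩ := he N n 𝔭 hprime hhom hdim
  have hforms : ∀ F ∈ forms 𝔭, ∃ d, F.IsHomogeneous d := fun F hF => hF.2
  have h1 : ∀ d : ℕ, d ≤ r → ∃ Φ : MvPolynomial (Fin q × Fin (N + 1)) ℚ, Φ ≠ 0 ∧
      ∀ H : Fin q → Fin (N + 1) → ℚ, eval (fun ij => H ij.1 ij.2) Φ ≠ 0 →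
        GPX (forms 𝔭) n H ∧ GenPX (forms 𝔭) n d H := by
    intro d hd
    exact GENX.genX HBARX.hbarX N n d q hn
      ((Nat.add_le_add_right (Nat.mul_le_mul_right n hd) 2).trans hq) (forms 𝔭) hforms Ψ hΨ
  choose! Φ hΦ0 hΦ using h1
  refine ⟨∏ d ∈ Finset.range (r + 1), Φ d, ?_, ?_⟩
  · rw [Finset.prod_ne_zero_iff]
    intro d hd
    exact hΦ0 d (Nat.lt_succ_iff.1 (Finset.mem_range.1 hd))
  · intro H hH S hS C
    rw [map_prod, Finset.prod_ne_zero_iff] at hH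
    have h2 : ∀ d, d ≤ r → GPX (forms 𝔭) n H ∧ GenPX (forms 𝔭) n d H := fun d hd' =>
      hΦ d hd' H (hH d (Finset.mem_range.2 (Nat.lt_succ_iff.2 hd')))
    obtain ⟨κ₁, i1, i2, x₁, hx₁, hI, htr⟩ := GPT.gpt N n 𝔭 hprime hdim
    exact top_main (STEP.step hd) NV.nv NV.red NV.mono IND.ind LG.lg (by omega) 𝔭 hprime κ₁ x₁
      hx₁ (fun F hF => hI F hF.1) htr H (h2 0 (Nat.zero_le _)).1 (fun d _ hdr => (h2 d hdr).2)
      (by omega) S hS C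

end Pool.Agent.Y734.I
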