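import Mathlib
import Pool.Agent.Y734.I.Top

/-!
# Project Y734/I: quadratic integral points on the complement of at least six lines

`H` are `q ≥ 6` lines of the plane over `ℚ`, any three of which have no common point. Statements of
the lemmas.
-/

set_option autoImplicit false

namespace Pool.Agent.Y734.I

open MvPolynomial NumberField Filter

/-- any three of the lines are linearly independent -/
def GP3 {q : ℕ} (H : Fin q → Fin 3 → ℚ) : Prop :=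
  ∀ i j k, i ≠ j → i ≠ k → j ≠ k → LinearIndependent ℚ ![H i, H j, H k]

/-- the common point of two lines -/
def crs (a b : Fin 3 → ℚ) : Fin 3 → ℚ :=
  ![a 1 * b 2 - a 2 * b 1, a 2 * b 0 - a 0 * b 2, a 0 * b 1 - a 1 * b 0]

/-- a generic point of the plane -/
def Gnr {Ω : Type} [Field Ω] [Algebra ℚ Ω] (P : Fin 3 → Ω) : Prop :=
  ∀ (F : MvPolynomial (Fin 3) ℚ) (d : ℕ), F.IsHomogeneous d → F ≠ 0 → aeval P F ≠ 0

/-- the product of the values at two points -/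
noncomputable def pr {Ω : Type} [Field Ω] [Algebra ℚ Ω] (l : Fin 3 → ℚ) (P Q : Fin 3 → Ω) : Ω :=
  ev (N := 2) l P * ev (N := 2) l Q

/-- Job GENS. Six lines which are not tangent to a conic satisfy the genericity conditions. -/
def GensStmt : Prop :=
  ∀ (H : Fin 6 → Fin 3 → ℚ) (_ : GP3 H)
    (_ : LinearIndependent ℚ (fun i => fun jk : Fin 3 × Fin 3 => H i jk.1 * H i jk.2)),
    GPX (N := 2) ∅ 2 H ∧ GenPX (N := 2) ∅ 2 1 H ∧ GenPX (N := 2) ∅ 2 2 H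

/-- Job UE. The unit equation for sequences of rational numbers along an ultrafilter: the terms
with constant quotients have sum zero. -/
def UeStmt : Prop :=
  ∀ (U : Ultrafilter ℕ) (S : Finset ℕ) (_ : ∀ p ∈ S, p.Prime) (m : ℕ) (f : Fin m → ℕ → ℚ)
    (_ : ∀ i t, f i t ≠ 0)
    (_ : ∀ i j t (p : ℕ), p.Prime → p ∉ S → padicValRat p (f i t) = padicValRat p (f j t))
    (c : Fin m → ℚ) (_ : ∀ᶠ t in (U : Filter ℕ), ∑ i, c i * f i t = 0) (i : Fin m)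
    (I : Finset (Fin m)) (_ : ∀ j, j ∈ I ↔ ∃ a : ℚ, ∀ᶠ t in (U : Filter ℕ), f j t = a * f i t),
    ∀ᶠ t in (U : Filter ℕ), ∑ j ∈ I, c j * f j t = 0

/-- Job ALGA. Five lines, three and two of the products proportional: impossible. -/
def AlgaStmt : Prop :=
  ∀ (Ω : Type) [Field Ω] [Algebra ℚ Ω] (H : Fin 5 → Fin 3 → ℚ) (_ : GP3 H) (P Q : Fin 3 → Ω)
    (_ : Gnr P) (_ : Gnr Q) (a b c : ℚ) (_ : pr (H 1) P Q = algebraMap ℚ Ω a * pr (H 0) P Q)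
    (_ : pr (H 2) P Q = algebraMap ℚ Ω b * pr (H 0) P Q)
    (_ : pr (H 4) P Q = algebraMap ℚ Ω c * pr (H 3) P Q), False

/-- six lines tangent to a conic, and the products proportional in pairs -/
structure Pairs {Ω : Type} [Field Ω] [Algebra ℚ Ω] (H : Fin 6 → Fin 3 → ℚ) (c : Fin 6 → ℚ)
    (P Q : Fin 3 → Ω) : Prop where
  gp : GP3 H
  c0 : ∀ i, c i ≠ 0
  rel : ∀ j k, ∑ i, c i * (H i j * H i k) = 0
  gP : Gnr P
  gQ : Gnr Q
  h0 : algebraMap ℚ Ω (c 0) * pr (H 0) P Q + algebraMap ℚ Ω (c 1) * pr (H 1) P Q = 0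
  h1 : algebraMap ℚ Ω (c 2) * pr (H 2) P Q + algebraMap ℚ Ω (c 3) * pr (H 3) P Q = 0
  h2 : algebraMap ℚ Ω (c 4) * pr (H 4) P Q + algebraMap ℚ Ω (c 5) * pr (H 5) P Q = 0

/-- Job ALGB. The three vertices are not collinear. -/
def AlgbStmt : Prop :=
  ∀ (Ω : Type) [Field Ω] [Algebra ℚ Ω] (H : Fin 6 → Fin 3 → ℚ) (c : Fin 6 → ℚ) (P Q : Fin 3 → Ω)
    (_ : Pairs H c P Q)
    (_ : LinearIndependent ℚ ![crs (H 0) (H 1), crs (H 2) (H 3), crs (H 4) (H 5)]),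
    ∃ (l : Fin 3 → Fin 3 → ℚ) (κ : Fin 3 → ℚ), LinearIndependent ℚ l ∧ (∀ i, κ i ≠ 0) ∧
      (∀ i j, algebraMap ℚ Ω (κ j) * pr (l i) P Q = algebraMap ℚ Ω (κ i) * pr (l j) P Q) ∧
      H 0 ∈ Submodule.span ℚ {l 1, l 2} ∧ H 2 ∈ Submodule.span ℚ {l 2, l 0} ∧
      H 4 ∈ Submodule.span ℚ {l 0, l 1} ∧
      (∀ e : Fin 3 → ℤ, e ≠ 0 → ∀ a : ℚ,
        ∏ i, (pr (H ((![0, 2, 4] : Fin 3 → Fin 6) i)) P Q / pr (l 0) P Q) ^ e i ≠
          algebraMap ℚ Ω a) ∧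
      ¬ AlgebraicIndependent ℚ
        (fun i => pr (H ((![0, 2, 4] : Fin 3 → Fin 6) i)) P Q / pr (l 0) P Q)

/-- Job ALGC. The three vertices are collinear: `Q` is the image of `P` under an involution which
permutes the lines. -/
def AlgcStmt : Prop :=
  ∀ (Ω : Type) [Field Ω] [Algebra ℚ Ω] (H : Fin 6 → Fin 3 → ℚ) (c : Fin 6 → ℚ) (P Q : Fin 3 → Ω)
    (_ : Pairs H c P Q)
    (_ : ¬ LinearIndependent ℚ ![crs (H 0) (H 1), crs (H 2) (H 3), crs (H 4) (H 5)]),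
    ∃ T : Matrix (Fin 3) (Fin 3) ℚ, T * T = 1 ∧
      (∀ i, ∃ j, j ≠ i ∧ ∃ a : ℚ, Matrix.vecMul (H i) T = a • H j) ∧
      ∃ a : Ω, a ≠ 0 ∧ ∀ j, Q j = a * ∑ k, algebraMap ℚ Ω (T j k) * P k

/-- Job LGB. The norms of three further linear forms. -/
def LgbStmt : Prop :=
  ∀ (q : ℕ) (H : Fin q → Fin 3 → ℚ) (l : Fin 3 → Fin 3 → ℚ) (_ : LinearIndependent ℚ l)
    (κ : Fin 3 → ℚ) (_ : ∀ i, κ i ≠ 0) (i₀ i₁ i₂ : Fin q)
    (_ : H i₀ ∈ Submodule.span ℚ {l 1, l 2}) (_ : H i₁ ∈ Submodule.span ℚ {l 2, l 0})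
    (_ : H i₂ ∈ Submodule.span ℚ {l 0, l 1}) (S : Finset ℕ) (_ : ∀ p ∈ S, p.Prime) (C : ℝ),
    ∃ S' : Finset ℕ, (∀ p ∈ S', p.Prime) ∧
      ∀ (L : Type) [Field L] [NumberField L], Module.finrank ℚ L ≤ 2 →
        ∀ x : Fin 3 → L, IPt (N := 2) ∅ H S C L x →
          (∀ i, Algebra.norm ℚ (aeval x (Pool.Agent.Y734.lin (n := 2) (l i))) ≠ 0) →
          (∀ i j, κ j * Algebra.norm ℚ (aeval x (Pool.Agent.Y734.lin (n := 2) (l i))) =
            κ i * Algebra.norm ℚ (aeval x (Pool.Agent.Y734.lin (n := 2) (l j)))) →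
          ∀ (i : Fin 3) (j : Fin q) (p : ℕ), p.Prime → p ∉ S' →
            padicValRat p (Algebra.norm ℚ (aeval x (Pool.Agent.Y734.lin (n := 2) (l i)))) =
              padicValRat p (Algebra.norm ℚ (aeval x (Pool.Agent.Y734.lin (n := 2) (H j))))

end Pool.Agent.Y734.I
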