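import Mathlib
import Pool.Agent.Y734.I.StmsB

/-!
# Project Y734/I: linear algebra for the lines
-/

set_option autoImplicit false

namespace Pool.Agent.Y734.I

open MvPolynomial

/-- scalar product -/
def dt3 (a b : Fin 3 → ℚ) : ℚ := a 0 * b 0 + a 1 * b 1 + a 2 * b 2

lemma dt3_ne {a b c : Fin 3 → ℚ} (h : LinearIndependent ℚ ![a, b, c]) : dt3 a (crs b c) ≠ 0 := by
  intro h0
  have h1 : (Matrix.of ![a, b, c]).det = dt3 a (crs b c) := by
    rw [Matrix.det_fin_three]
    simp [dt3, crs]
    ring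
  have h2 : IsUnit (Matrix.of ![a, b, c]) := by
    rw [← Matrix.linearIndependent_rows_iff_isUnit]
    exact h
  rw [Matrix.isUnit_iff_isUnit_det, h1, h0] at h2
  exact not_isUnit_zero h2

lemma dt3_left (b c : Fin 3 → ℚ) : dt3 b (crs b c) = 0 := by
  simp [dt3, crs]
  ring

lemma dt3_right (b c : Fin 3 → ℚ) : dt3 c (crs b c) = 0 := by
  simp [dt3, crs]
  ring

/-- all coefficients of a linear relation between the squares of six lines are nonzero -/
lemma cne {H : Fin 6 → Fin 3 → ℚ} (hH : GP3 H) {c : Fin 6 → ℚ}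
    (hrel : ∀ j k, ∑ i, c i * (H i j * H i k) = 0) (hc : ∃ i, c i ≠ 0) : ∀ i, c i ≠ 0 := by
  have hbil : ∀ x y : Fin 3 → ℚ, ∑ i, c i * (dt3 (H i) x * dt3 (H i) y) = 0 := by
    intro x y
    have h1 : ∑ i, c i * (dt3 (H i) x * dt3 (H i) y) =
        ∑ j, ∑ k, (∑ i, c i * (H i j * H i k)) * (x j * y k) := by
      simp only [Finset.sum_mul]
      rw [Finset.sum_congr rfl fun j _ => Finset.sum_comm, Finset.sum_comm]
      refine Finset.sum_congr rfl fun i _ => ?_
      simp only [Fin.sum_univ_three, dt3]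
      ring
    rw [h1]
    simp only [hrel, zero_mul, Finset.sum_const_zero]
  -- four others
  have hex : ∀ m n : Fin 6, m ≠ n → ∃ i j k l : Fin 6, [i, j, k, l, m, n].Nodup := by decide
  have key : ∀ m n : Fin 6, m ≠ n → c m = 0 → c n = 0 := by
    intro m n hmn hm
    obtain ⟨i, j, k, l, hnd⟩ := hex m n hmn
    have h1 := hbil (crs (H i) (H j)) (crs (H k) (H l))
    have hsum : ∀ F : Fin 6 → ℚ, ∑ s, F s = F i + F j + F k + F l + F m + F n := by
      intro F
      have h2 : (Finset.univ : Finset (Fin 6)) = ([i, j, k, l, m, n] : List (Fin 6)).toFinset := by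
        symm
        rw [← Finset.card_eq_iff_eq_univ, List.toFinset_card_of_nodup hnd]
        simp
      rw [h2, List.sum_toFinset _ hnd]
      simp
      ring
    rw [hsum, dt3_left, dt3_right, dt3_left (H k) (H l), dt3_right (H k) (H l), hm] at h1
    simp only [List.nodup_cons, List.mem_cons, not_or, List.not_mem_nil,
      not_false_eq_true] at hnd
    have h3 := dt3_ne (hH n i j (by tauto) (by tauto) (by tauto))
    have h4 := dt3_ne (hH n k l (by tauto) (by tauto) (by tauto))
    have h5 : c n * (dt3 (H n) (crs (H i) (H j)) * dt3 (H n) (crs (H k) (H l))) = 0 := by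
      linarith
    exact (mul_eq_zero.1 h5).resolve_right (mul_ne_zero h3 h4)
  obtain ⟨i₀, hi₀⟩ := hc
  intro i hi
  by_cases h : i = i₀
  · exact hi₀ (h ▸ hi)
  · exact hi₀ (key i i₀ h hi)

end Pool.Agent.Y734.I
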