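import Mathlib
import Pool.Agent.Y734.I.StmsB

/-!
# Project Y734/I: quadratic integral points off the lines and conics with at most four points on `D`

Third theorem: for `q ≥ 6` lines of the plane over `ℚ` in general position, six of which are not
tangent to a conic, all but finitely many of the `(D, S)`-integral points of degree at most two are
on the lines and conics over `ℚ` which meet `D` in at most four points. Statements of the lemmas.
-/

set_option autoImplicit false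

namespace Pool.Agent.Y734.I

open MvPolynomial NumberField Filter

/-- the value of a symmetric form at `h` -/
def qv (h : Fin 3 → ℚ) (M : Matrix (Fin 3) (Fin 3) ℚ) : ℚ := ∑ j, ∑ k, h j * M j k * h k

/-- the curve `G = 0` and the lines `H i` have at most four common points -/
def At4 {q : ℕ} (H : Fin q → Fin 3 → ℚ) (G : MvPolynomial (Fin 3) ℚ) : Prop :=
  ∀ p : Fin 5 → Fin 3 → ℂ, (∀ k, p k ≠ 0) → (∀ k, aeval (p k) G = 0) →
    (∀ k, ∃ i, ev (N := 2) (H i) (p k) = 0) → ∃ k l, k ≠ l ∧ ∃ c : ℂ, p k = c • p l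

/-- `G = 0` is a line or a conic which meets the lines in at most four points -/
structure Crv {q : ℕ} (H : Fin q → Fin 3 → ℚ) (G : MvPolynomial (Fin 3) ℚ) : Prop where
  deg : ∃ d, (d = 1 ∨ d = 2) ∧ G.IsHomogeneous d
  ne : G ≠ 0
  at4 : At4 H G

/-- Job TOR. The closure of a sequence of units contains a torus: there are exponents `α i`, equal
if and only if the units are proportional, such that equations of degree at most `D` which hold for
`f i t` also hold for `f i t z ^ (α i)`. -/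
def TorStmt : Prop :=
  ∀ (U : Ultrafilter ℕ) (S : Finset ℕ) (_ : ∀ p ∈ S, p.Prime) (m : ℕ) (f : Fin m → ℕ → ℚ)
    (_ : ∀ i t, f i t ≠ 0)
    (_ : ∀ i j t (p : ℕ), p.Prime → p ∉ S → padicValRat p (f i t) = padicValRat p (f j t))
    (D : ℕ), ∃ α : Fin m → ℤ,
      (∀ i j, α i = α j ↔ ∃ a : ℚ, ∀ᶠ t in (U : Filter ℕ), f j t = a * f i t) ∧
      ∀ (d : ℕ) (F : MvPolynomial (Fin m) ℚ), d ≤ D → F.IsHomogeneous d →
        (∀ᶠ t in (U : Filter ℕ), eval (fun i => f i t) F = 0) →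
          ∀ᶠ t in (U : Filter ℕ), ∀ z : ℚ, z ≠ 0 → eval (fun i => f i t * z ^ α i) F = 0

/-- Job FAC, part 1. A singular symmetric matrix is a symmetric product. -/
def FacStmt : Prop :=
  ∀ (M : Matrix (Fin 3) (Fin 3) ℂ) (_ : M.IsSymm) (_ : M.det = 0),
    ∃ p q : Fin 3 → ℂ, ∀ j k, M j k = p j * q k + q j * p k

/-- Job FAC, part 2. The factors of a symmetric product are unique. -/
def SymeqStmt : Prop :=
  ∀ (p q u v : Fin 3 → ℂ) (c : ℂ) (_ : c ≠ 0) (_ : p ≠ 0) (_ : q ≠ 0)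
    (_ : ∀ j k, p j * q k + q j * p k = c * (u j * v k + v j * u k)),
    (∃ a : ℂ, p = a • u) ∨ (∃ a : ℂ, p = a • v)

/-- the determinant of the matrix whose rows are the first row of `A`, the second row of `B` and the
third row of `C` -/
def D3 (A B C : Matrix (Fin 3) (Fin 3) ℚ) : ℚ := (Matrix.of ![A 0, B 1, C 2]).det

/-- Job DET. The coefficients of the determinant of `∑ z ^ w M w`. -/
def DetStmt : Prop :=
  ∀ (W : Finset ℤ) (M : ℤ → Matrix (Fin 3) (Fin 3) ℚ)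
    (_ : ∀ z : ℚ, z ≠ 0 → (∑ w ∈ W, z ^ w • M w).det = 0) (e : ℤ),
    ∑ a ∈ W, ∑ b ∈ W, ∑ c ∈ W, (if a + b + c = e then D3 (M a) (M b) (M c) else 0) = 0

/-- a family of singular symmetric matrices `∑ z ^ w M w` with values `κ i z ^ (α i)` at the
lines -/
structure Fm {q : ℕ} (H : Fin q → Fin 3 → ℚ) (κ : Fin q → ℚ) (α : Fin q → ℤ)
    (M : ℤ → Matrix (Fin 3) (Fin 3) ℚ) : Prop where
  hq : 6 ≤ q
  gp : GP3 H
  κ0 : ∀ i, κ i ≠ 0
  symm : ∀ w, (M w).IsSymm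
  val : ∀ w i, qv (H i) (M w) = if α i = w then κ i else 0
  det : ∀ z : ℚ, z ≠ 0 → (∑ w ∈ Finset.univ.image α, z ^ w • M w).det = 0

/-- `x` is a factor of `∑ M w` -/
def Pt {q : ℕ} (α : Fin q → ℤ) (M : ℤ → Matrix (Fin 3) (Fin 3) ℚ) (x : Fin 3 → ℂ) : Prop :=
  x ≠ 0 ∧ ∃ x' : Fin 3 → ℂ, x' ≠ 0 ∧
    ∀ j k, (((∑ w ∈ Finset.univ.image α, M w) j k : ℚ) : ℂ) = x j * x' k + x' j * x k

/-- the conclusion of the algebraic theorem -/
def Cn {q : ℕ} (H : Fin q → Fin 3 → ℚ) (α : Fin q → ℤ) (M : ℤ → Matrix (Fin 3) (Fin 3) ℚ) : Prop :=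
  ∃ G : MvPolynomial (Fin 3) ℚ, Crv H G ∧ ∀ x, Pt α M x → aeval x G = 0

/-- Job LINE. Two exponents. -/
def LineStmt : Prop :=
  ∀ (q : ℕ) (H : Fin q → Fin 3 → ℚ) (κ : Fin q → ℚ) (α : Fin q → ℤ)
    (M : ℤ → Matrix (Fin 3) (Fin 3) ℚ) (_ : Fm H κ α M) (a b : ℤ) (_ : a < b)
    (_ : ∀ i, α i = a ∨ α i = b) (_ : ∃ i, α i = a) (_ : ∃ i, α i = b), Cn H α M

/-- Job SIZE. At least three exponents: there are six lines, with exponents in three pairs. -/
def SizeStmt : Prop :=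
  ∀ (q : ℕ) (H : Fin q → Fin 3 → ℚ) (κ : Fin q → ℚ) (α : Fin q → ℤ)
    (M : ℤ → Matrix (Fin 3) (Fin 3) ℚ) (_ : Fm H κ α M) (_ : ∃ i j k, α i < α j ∧ α j < α k),
    q = 6 ∧ ∃ f : Fin 6 → Fin q, Function.Injective f ∧ α (f 0) = α (f 1) ∧ α (f 1) < α (f 2) ∧
      α (f 2) = α (f 3) ∧ α (f 3) < α (f 4) ∧ α (f 4) = α (f 5)

/-- three pairs of exponents -/
structure Tri (α : Fin 6 → ℤ) : Prop where
  h01 : α 0 = α 1
  h12 : α 1 < α 2
  h23 : α 2 = α 3
  h34 : α 3 < α 4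
  h45 : α 4 = α 5

/-- Job CON. Three pairs of exponents: the case of a conic. -/
def ConStmt : Prop :=
  ∀ (H : Fin 6 → Fin 3 → ℚ) (κ : Fin 6 → ℚ) (α : Fin 6 → ℤ)
    (M : ℤ → Matrix (Fin 3) (Fin 3) ℚ) (_ : Fm H κ α M) (_ : Tri α) (c₁ c₃ : ℚ)
    (_ : ∀ j k, M (α 0) j k = c₁ * (crs (H 2) (H 4) j * crs (H 3) (H 5) k +
      crs (H 3) (H 5) j * crs (H 2) (H 4) k))
    (_ : ∀ j k, M (α 4) j k = c₃ * (crs (H 0) (H 2) j * crs (H 1) (H 3) k +
      crs (H 1) (H 3) j * crs (H 0) (H 2) k)), Cn H α M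

/-- Job TRI. Three pairs of exponents. -/
def TriStmt : Prop :=
  ∀ (H : Fin 6 → Fin 3 → ℚ) (κ : Fin 6 → ℚ) (α : Fin 6 → ℤ)
    (M : ℤ → Matrix (Fin 3) (Fin 3) ℚ) (_ : Fm H κ α M) (_ : Tri α), Cn H α M

end Pool.Agent.Y734.I
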