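import Mathlib
import Pool.Agent.Y734.I.StmsH

/-!
# Project Y734/I: there are only finitely many curves with at most four points on `D`
-/

set_option autoImplicit false

namespace Pool.Agent.Y734.I

open MvPolynomial

/-- Job FINA. A quadratic form which is not the square of a linear form and has at most four common
points with six lines: the common points are on two of the lines. -/
def FinaStmt : Prop :=
  ∀ (H : Fin 6 → Fin 3 → ℚ) (_ : GP3 H) (G : MvPolynomial (Fin 3) ℚ) (_ : G.IsHomogeneous 2)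
    (_ : G ≠ 0) (_ : At4 H G),
    (∃ h : Fin 3 → ℚ, h ≠ 0 ∧ ∀ x : Fin 3 → ℂ, aeval x G = 0 ↔ ev (N := 2) h x = 0) ∨
      ∀ (i : Fin 6) (p : Fin 3 → ℂ), p ≠ 0 → ev (N := 2) (H i) p = 0 → aeval p G = 0 →
        ∃ j, j ≠ i ∧ ev (N := 2) (H j) p = 0

/-- Job FINB. There are only finitely many lines and conics which meet the lines in at most four
points. -/
def FinStmt : Prop :=
  ∀ (q : ℕ) (H : Fin q → Fin 3 → ℚ) (_ : 6 ≤ q) (_ : GP3 H),
    ∃ 𝒢 : Finset (MvPolynomial (Fin 3) ℚ), (∀ G ∈ 𝒢, Crv H G) ∧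
      ∀ G, Crv H G → ∃ G' ∈ 𝒢, ∀ x : Fin 3 → ℂ, aeval x G = 0 → aeval x G' = 0

end Pool.Agent.Y734.I
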