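import Mathlib

/-!
# Project Y734/I: combinatorics of the classes of proportional norms
-/

set_option autoImplicit false

namespace Pool.Agent.Y734.I

open Finset

lemma inj3 {q : ℕ} {i j k : Fin q} (h1 : i ≠ j) (h2 : i ≠ k) (h3 : j ≠ k) :
    Function.Injective ![i, j, k] := by
  intro a b hab
  fin_cases a <;> fin_cases b <;> simp_all

lemma inj5 {q : ℕ} {i j k m n : Fin q} (h1 : i ≠ j) (h2 : i ≠ k) (h3 : j ≠ k) (h4 : m ≠ i)
    (h5 : m ≠ j) (h6 : m ≠ k) (h7 : n ≠ i) (h8 : n ≠ j) (h9 : n ≠ k) (h10 : m ≠ n) :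
    Function.Injective ![i, j, k, m, n] := by
  intro a b hab
  fin_cases a <;> fin_cases b <;> simp_all

lemma inj6 {q : ℕ} {i j k m n p : Fin q} (h1 : i ≠ j) (h2 : i ≠ k) (h3 : j ≠ k) (h4 : m ≠ i)
    (h5 : m ≠ j) (h6 : m ≠ k) (h7 : n ≠ i) (h8 : n ≠ j) (h9 : n ≠ k) (h10 : m ≠ n)
    (h11 : p ≠ i) (h12 : p ≠ j) (h13 : p ≠ k) (h14 : p ≠ m) (h15 : p ≠ n) :
    Function.Injective ![i, j, k, m, n, p] := by
  intro a b hab
  fin_cases a <;> fin_cases b <;> simp_all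

section

variable {q : ℕ} (hq : 6 ≤ q) (r : Fin q → Fin q → Prop) (hsymm : ∀ i j, r i j → r j i)
  (htrans : ∀ i j k, r i j → r j k → r i k)
  (ha : ∀ f : Fin 6 → Fin q, Function.Injective f → ∀ i, ∃ j, j ≠ i ∧ r (f i) (f j))
  (hb : ∀ f : Fin 5 → Fin q, Function.Injective f → r (f 0) (f 1) → r (f 0) (f 2) →
    r (f 3) (f 4) → False)

include hq hsymm htrans ha hb in
/-- no class has three elements -/
lemma no_triple (i j k : Fin q) (h1 : i ≠ j) (h2 : i ≠ k) (h3 : j ≠ k) (hij : r i j)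
    (hik : r i k) : False := by
  classical
  have hc : ({i, j, k} : Finset (Fin q)).card = 3 := by
    rw [card_insert_of_notMem (by simp [h1, h2]), card_insert_of_notMem (by simp [h3]),
      card_singleton]
  obtain ⟨I, hI, hIc⟩ := exists_superset_card_eq (s := ({i, j, k} : Finset (Fin q))) (n := 6)
    (by omega) (by rw [Fintype.card_fin]; exact hq)
  have hd : (I \ {i, j, k}).card = 3 := by
    rw [card_sdiff_of_subset hI, hc, hIc]
  obtain ⟨m, n, p, hmn, hmp, hnp, hmnp⟩ := card_eq_three.1 hd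
  have hm : m ≠ i ∧ m ≠ j ∧ m ≠ k := by
    have : m ∈ I \ {i, j, k} := by rw [hmnp]; simp
    simpa using (mem_sdiff.1 this).2
  have hn : n ≠ i ∧ n ≠ j ∧ n ≠ k := by
    have : n ∈ I \ {i, j, k} := by rw [hmnp]; simp
    simpa using (mem_sdiff.1 this).2
  have hp : p ≠ i ∧ p ≠ j ∧ p ≠ k := by
    have : p ∈ I \ {i, j, k} := by rw [hmnp]; simp
    simpa using (mem_sdiff.1 this).2
  have hf := inj6 h1 h2 h3 hm.1 hm.2.1 hm.2.2 hn.1 hn.2.1 hn.2.2 hmn hp.1 hp.2.1 hp.2.2 hmp.symm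
    hnp.symm
  have hjk : r i i := htrans i j i hij (hsymm _ _ hij)
  -- a pair outside
  have b1 : ∀ a b, a ≠ b → (a ≠ i ∧ a ≠ j ∧ a ≠ k) → (b ≠ i ∧ b ≠ j ∧ b ≠ k) → ¬ r a b := by
    intro a b hab ha' hb' hr
    exact hb ![i, j, k, a, b] (inj5 h1 h2 h3 ha'.1 ha'.2.1 ha'.2.2 hb'.1 hb'.2.1 hb'.2.2 hab)
      hij hik hr
  have hm' : r i m := by
    obtain ⟨s, hs, hr⟩ := ha _ hf 3
    have hr' : r m (![i, j, k, m, n, p] s) := hr
    fin_cases s
    · exact hsymm _ _ hr'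
    · exact htrans _ _ _ hij (hsymm _ _ hr')
    · exact htrans _ _ _ hik (hsymm _ _ hr')
    · exact absurd rfl hs
    · exact absurd hr' (b1 m n hmn hm hn)
    · exact absurd hr' (b1 m p hmp hm hp)
  have hn' : r i n := by
    obtain ⟨s, hs, hr⟩ := ha _ hf 4
    have hr' : r n (![i, j, k, m, n, p] s) := hr
    fin_cases s
    · exact hsymm _ _ hr'
    · exact htrans _ _ _ hij (hsymm _ _ hr')
    · exact htrans _ _ _ hik (hsymm _ _ hr')
    · exact absurd hr' (b1 n m hmn.symm hn hm)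
    · exact absurd rfl hs
    · exact absurd hr' (b1 n p hnp hn hp)
  exact b1 m n hmn hm hn (htrans _ _ _ (hsymm _ _ hm') hn')

include hq hsymm htrans ha hb in
/-- there are exactly six lines, in three pairs -/
lemma comb : q = 6 ∧ ∃ f : Fin 6 → Fin q, Function.Injective f ∧ r (f 0) (f 1) ∧
    r (f 2) (f 3) ∧ r (f 4) (f 5) := by
  classical
  have hno := no_triple hq r hsymm htrans ha hb
  -- every element has a partner in every set of six elements
  have hpar : ∀ (I : Finset (Fin q)), I.card = 6 → ∀ i ∈ I, ∃ j ∈ I, j ≠ i ∧ r i j := by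
    intro I hI i hi
    let e := I.equivFinOfCardEq hI
    obtain ⟨s, hs, hr⟩ := ha (fun s => (e.symm s : Fin q))
      (fun a b hab => e.symm.injective (Subtype.ext hab)) (e ⟨i, hi⟩)
    simp only [Equiv.symm_apply_apply] at hr
    refine ⟨e.symm s, (e.symm s).2, ?_, hr⟩
    intro h
    apply hs
    have : e.symm s = ⟨i, hi⟩ := Subtype.ext h
    rw [← this, Equiv.apply_symm_apply]
  have hq6 : q = 6 := by
    by_contra hne
    have hq7 : 7 ≤ q := by omega
    let i : Fin q := ⟨0, by omega⟩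
    obtain ⟨I, hI, hIc⟩ := exists_superset_card_eq (s := ({i} : Finset (Fin q))) (n := 6)
      (by simp) (by rw [Fintype.card_fin]; exact hq)
    obtain ⟨j, -, hji, hij⟩ := hpar I hIc i (hI (mem_singleton_self i))
    obtain ⟨I', hI', hIc'⟩ := exists_subsuperset_card_eq (s := ({i} : Finset (Fin q)))
      (t := univ.erase j) (n := 6) (by simp [Ne.symm hji]) (by simp)
      (by rw [card_erase_of_mem (mem_univ _), card_univ, Fintype.card_fin]; omega)
    obtain ⟨k, hk, hki, hik⟩ := hpar I' hIc'.2 i (hI' (mem_singleton_self i))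
    have hkj : k ≠ j := ne_of_mem_erase (hIc'.1 hk)
    exact hno i j k hji.symm hki.symm hkj.symm hij hik
  refine ⟨hq6, ?_⟩
  subst hq6
  have hu : (univ : Finset (Fin 6)).card = 6 := by simp
  have hp : ∀ i : Fin 6, ∃ j, j ≠ i ∧ r i j := fun i => by
    obtain ⟨j, -, h⟩ := hpar univ hu i (mem_univ i)
    exact ⟨j, h⟩
  choose φ hφ1 hφ2 using hp
  obtain ⟨b, hb'⟩ : ∃ b : Fin 6, b ∉ ({0, φ 0} : Finset (Fin 6)) := by
    by_contra hcon
    push Not at hcon
    have h1 : (univ : Finset (Fin 6)) ⊆ {0, φ 0} := fun x _ => hcon x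
    have h2 := (card_le_card h1).trans card_le_two
    simp at h2
  obtain ⟨c, hc'⟩ : ∃ c : Fin 6, c ∉ ({0, φ 0, b, φ b} : Finset (Fin 6)) := by
    by_contra hcon
    push Not at hcon
    have h1 : (univ : Finset (Fin 6)) ⊆ {0, φ 0, b, φ b} := fun x _ => hcon x
    have h2 := (card_le_card h1).trans card_le_four
    simp at h2
  have b1 : b ≠ 0 ∧ b ≠ φ 0 := by simpa using hb'
  have c1 : c ≠ 0 ∧ c ≠ φ 0 ∧ c ≠ b ∧ c ≠ φ b := by simpa using hc'
  -- partners are unique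
  have huniq : ∀ i j, j ≠ i → r i j → j = φ i := by
    intro i j hji hij
    by_contra hne
    exact hno i j (φ i) hji.symm (hφ1 i).symm hne hij (hφ2 i)
  have hφφ : ∀ i, φ (φ i) = i := fun i => (huniq (φ i) i (hφ1 i).symm (hsymm _ _ (hφ2 i))).symm
  have hφinj : ∀ i j, φ i = φ j → i = j := fun i j h => by rw [← hφφ i, h, hφφ]
  have d1 : φ b ≠ 0 := fun h => b1.2 (by rw [← hφφ b, h])
  have d2 : φ b ≠ φ 0 := fun h => b1.1 (hφinj _ _ h)
  have d3 : φ c ≠ 0 := fun h => c1.2.1 (by rw [← hφφ c, h])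
  have d4 : φ c ≠ φ 0 := fun h => c1.1 (hφinj _ _ h)
  have d5 : φ c ≠ b := fun h => c1.2.2.2 (by rw [← hφφ c, h])
  have d6 : φ c ≠ φ b := fun h => c1.2.2.1 (hφinj _ _ h)
  refine ⟨![0, φ 0, b, φ b, c, φ c], ?_, hφ2 0, hφ2 b, hφ2 c⟩
  exact inj6 (hφ1 0).symm b1.1.symm b1.2.symm d1 d2 (hφ1 b) c1.1 c1.2.1 c1.2.2.1 c1.2.2.2.symm
    d3 d4 d5 d6 (hφ1 c)

end

end Pool.Agent.Y734.I
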