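import Mathlib
import Pool.Agent.Y734.I.StmsB

/-!
# Project Y734/I: generic sequences, conjugates, the relation between six squares
-/

set_option autoImplicit false

namespace Pool.Agent.Y734.I

open MvPolynomial NumberField Filter

/-- a generic sequence in a set of points which is not contained in a proper closed subset -/
theorem exists_seq {N r : ℕ}
    (𝒳 : ∀ (L : Type) [Field L] [NumberField L], (Fin (N + 1) → L) → Prop)
    (hcon : ¬ ∃ (d : ℕ) (Z : MvPolynomial (Fin (N + 1)) ℚ), Z.IsHomogeneous d ∧ Z ≠ 0 ∧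
      ∀ (L : Type) [Field L] [NumberField L], Module.finrank ℚ L ≤ r → ∀ x : Fin (N + 1) → L,
        𝒳 L x → aeval x Z = 0) :
    ∃ d, 1 ≤ d ∧ d ≤ r ∧ ∃ (L : ℕ → Type) (_ : ∀ t, Field (L t)) (_ : ∀ t, NumberField (L t))
      (x : ∀ t, Fin (N + 1) → L t), (∀ t, Module.finrank ℚ (L t) = d) ∧ (∀ t, 𝒳 (L t) (x t)) ∧
      ∀ (F : MvPolynomial (Fin (N + 1)) ℚ) (k : ℕ), F.IsHomogeneous k → F ≠ 0 →
        ∀ᶠ t in atTop, aeval (x t) F ≠ 0 := by
  classical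
  have step1 : ∃ d, 1 ≤ d ∧ d ≤ r ∧ ∀ (k : ℕ) (Z : MvPolynomial (Fin (N + 1)) ℚ),
      Z.IsHomogeneous k → Z ≠ 0 → ∃ (L : Type) (_ : Field L) (_ : NumberField L)
        (x : Fin (N + 1) → L), Module.finrank ℚ L = d ∧ 𝒳 L x ∧ aeval x Z ≠ 0 := by
    by_contra hno
    apply hcon
    have h1 : ∀ d : ℕ, ∃ (k : ℕ) (Z : MvPolynomial (Fin (N + 1)) ℚ), Z.IsHomogeneous k ∧
        Z ≠ 0 ∧ (1 ≤ d → d ≤ r → ∀ (L : Type) [Field L] [NumberField L], Module.finrank ℚ L = d →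
          ∀ x : Fin (N + 1) → L, 𝒳 L x → aeval x Z = 0) := by
      intro d
      by_cases hd : 1 ≤ d ∧ d ≤ r
      · by_contra hno2
        apply hno
        refine ⟨d, hd.1, hd.2, fun k Z hZ hZ' => ?_⟩
        by_contra hno3
        apply hno2
        refine ⟨k, Z, hZ, hZ', fun _ _ L _ _ hL x hx => ?_⟩
        by_contra hne
        exact hno3 ⟨L, inferInstance, inferInstance, x, hL, hx, hne⟩
      · exact ⟨0, 1, isHomogeneous_one _ _, one_ne_zero, fun h h' => absurd ⟨h, h'⟩ hd⟩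
    choose k Z hZ1 hZ2 hZ3 using h1
    refine ⟨∑ d ∈ Finset.range (r + 1), k d, ∏ d ∈ Finset.range (r + 1), Z d,
      IsHomogeneous.prod _ _ _ fun d _ => hZ1 d, ?_, ?_⟩
    · exact Finset.prod_ne_zero_iff.2 fun d _ => hZ2 d
    · intro L _ _ hL x hx
      rw [map_prod]
      refine Finset.prod_eq_zero (Finset.mem_range.2 (Nat.lt_succ_of_le hL)) ?_
      exact hZ3 _ Module.finrank_pos hL L rfl x hx
  obtain ⟨d, hd1, hdr, hbad⟩ := step1
  refine ⟨d, hd1, hdr, ?_⟩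
  obtain ⟨e, he⟩ := exists_surjective_nat (MvPolynomial (Fin (N + 1)) ℚ)
  have hseq : ∀ t : ℕ, ∃ (L : Type) (_ : Field L) (_ : NumberField L) (x : Fin (N + 1) → L),
      Module.finrank ℚ L = d ∧ 𝒳 L x ∧
        ∀ s ≤ t, e s ≠ 0 → (∃ k, (e s).IsHomogeneous k) → aeval x (e s) ≠ 0 := by
    intro t
    have h1 : ∀ s, ∃ (k : ℕ) (Z : MvPolynomial (Fin (N + 1)) ℚ), Z.IsHomogeneous k ∧ Z ≠ 0 ∧
        (e s ≠ 0 → (∃ k, (e s).IsHomogeneous k) → Z = e s) := by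
      intro s
      by_cases h : e s ≠ 0 ∧ ∃ k, (e s).IsHomogeneous k
      · obtain ⟨h0, k, hk⟩ := h
        exact ⟨k, e s, hk, h0, fun _ _ => rfl⟩
      · exact ⟨0, 1, isHomogeneous_one _ _, one_ne_zero, fun h1 h2 => absurd ⟨h1, h2⟩ h⟩
    choose k Z hZ1 hZ2 hZ3 using h1
    obtain ⟨L, i1, i2, x, h1, h2, h3⟩ := hbad (∑ s ∈ Finset.range (t + 1), k s)
      (∏ s ∈ Finset.range (t + 1), Z s) (IsHomogeneous.prod _ _ _ fun s _ => hZ1 s)
      (Finset.prod_ne_zero_iff.2 fun s _ => hZ2 s)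
    refine ⟨L, i1, i2, x, h1, h2, fun s hs h0 hk h4 => h3 ?_⟩
    rw [map_prod]
    refine Finset.prod_eq_zero (Finset.mem_range.2 (Nat.lt_succ_of_le hs)) ?_
    rw [hZ3 s h0 hk]
    exact h4
  choose L i1 i2 x hfin hx hgen using hseq
  refine ⟨L, i1, i2, x, hfin, hx, fun F k hF hF0 => ?_⟩
  obtain ⟨s, rfl⟩ := he F
  filter_upwards [eventually_ge_atTop s] with t ht
  exact hgen t s ht hF0 ⟨k, hF⟩

/-- the conjugation of a quadratic field -/
lemma exists_conj (L : Type) [Field L] [NumberField L] (h : Module.finrank ℚ L = 2)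
    (σ₀ σ₁ : L →ₐ[ℚ] ℂ) (hne : σ₀ ≠ σ₁) :
    ∃ τ : L ≃ₐ[ℚ] L, τ ≠ 1 ∧ ∀ y, σ₁ y = σ₀ (τ y) := by
  have : Algebra.IsQuadraticExtension ℚ L := ⟨h⟩
  let _ : Algebra L ℂ := σ₀.toRingHom.toAlgebra
  have : IsScalarTower ℚ L ℂ := IsScalarTower.of_algebraMap_eq fun x => (σ₀.commutes x).symm
  have h1 : ∀ y, σ₁ y = σ₀ (σ₁.restrictNormal' L y) := by
    intro y
    exact (σ₁.restrictNormal_commutes L y).symm
  refine ⟨σ₁.restrictNormal' L, ?_, h1⟩
  intro h2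
  apply hne
  ext y
  rw [h1 y, h2]
  rfl

end Pool.Agent.Y734.I
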