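import Mathlib
import Pool.Agent.Y734.I.StmsB
import Pool.Agent.Y734.I.QComb
import Pool.Agent.Y734.I.QSeq
import Pool.Agent.Y734.I.QAlg
import Pool.Agent.Y734.I.Mult

/-!
# Project Y734/I: quadratic integral points on the complement of at least six lines
-/

set_option autoImplicit false

namespace Pool.Agent.Y734.I

open MvPolynomial NumberField Filter Pool.Agent.Y660.QP

/-- the conjugate of `x` is the image of `x` under an involution which permutes the lines without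
fixing one -/
def Sym {q : ℕ} (H : Fin q → Fin 3 → ℚ) (L : Type) [Field L] [NumberField L] (x : Fin 3 → L) :
    Prop :=
  ∃ T : Matrix (Fin 3) (Fin 3) ℚ, T * T = 1 ∧
    (∀ i, ∃ j, j ≠ i ∧ ∃ a : ℚ, Matrix.vecMul (H i) T = a • H j) ∧
    ∃ τ : L ≃ₐ[ℚ] L, τ ≠ 1 ∧ ∃ c : L, c ≠ 0 ∧
      ∀ j, τ (x j) = c * ∑ k, algebraMap ℚ L (T j k) * x k

lemma ev_lin {κ : Type} [Field κ] [Algebra ℚ κ] (l : Fin 3 → ℚ) (x : Fin 3 → κ) :
    aeval x (Pool.Agent.Y734.lin (n := 2) l) = ev (N := 2) l x := by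
  rw [aeval_lin]

/-- a nonzero form does not vanish at a generic point -/
lemma Gnr.ev_ne {Ω : Type} [Field Ω] [Algebra ℚ Ω] {P : Fin 3 → Ω} (hP : Gnr P)
    {l : Fin 3 → ℚ} (hl : l ≠ 0) : ev (N := 2) l P ≠ 0 := by
  rw [← ev_lin]
  refine hP _ 1 ?_ ?_
  · unfold Pool.Agent.Y734.lin
    refine IsHomogeneous.sum _ _ _ fun j _ => ?_
    have := (isHomogeneous_C (Fin (2 + 1)) (l j)).mul (isHomogeneous_X ℚ j)
    rwa [zero_add] at this
  · intro h
    apply hl
    funext j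
    have h1 : aeval (fun k => if k = j then (1 : ℚ) else 0) (Pool.Agent.Y734.lin (n := 2) l) = 0 := by
      rw [h, map_zero]
    rw [ev_lin] at h1
    unfold ev at h1
    simpa using h1

lemma pr_ne {Ω : Type} [Field Ω] [Algebra ℚ Ω] {P Q : Fin 3 → Ω} (hP : Gnr P) (hQ : Gnr Q)
    {l : Fin 3 → ℚ} (hl : l ≠ 0) : pr l P Q ≠ 0 := mul_ne_zero (hP.ev_ne hl) (hQ.ev_ne hl)

lemma GP3.ne {q : ℕ} {H : Fin q → Fin 3 → ℚ} (hH : GP3 H) (hq : 3 ≤ q) (i : Fin q) : H i ≠ 0 := by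
  classical
  obtain ⟨j, hj⟩ : ∃ j : Fin q, j ≠ i := by
    by_contra hcon
    push Not at hcon
    have h1 : (Finset.univ : Finset (Fin q)) ⊆ {i} := fun x _ => by simp [hcon x]
    have h2 := Finset.card_le_card h1
    simp at h2
    omega
  obtain ⟨k, hk⟩ : ∃ k : Fin q, k ∉ ({i, j} : Finset (Fin q)) := by
    by_contra hcon
    push Not at hcon
    have h1 : (Finset.univ : Finset (Fin q)) ⊆ {i, j} := fun x _ => hcon x
    have h2 := (Finset.card_le_card h1).trans Finset.card_le_two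
    simp at h2
    omega
  have hk' : k ≠ i ∧ k ≠ j := by simpa using hk
  have := (hH i j k hj.symm hk'.1.symm hk'.2.symm).ne_zero 0
  simpa using this

lemma GP3.comp {q m : ℕ} {H : Fin q → Fin 3 → ℚ} (hH : GP3 H) {f : Fin m → Fin q}
    (hf : Function.Injective f) : GP3 (fun i => H (f i)) :=
  fun i j k h1 h2 h3 => hH _ _ _ (fun h => h1 (hf h)) (fun h => h2 (hf h)) (fun h => h3 (hf h))

end Pool.Agent.Y734.I
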