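import Mathlib
import Pool.Agent.Y734.I.QMain

/-!
# Project Y734/I: the classes of proportional norms
-/

set_option autoImplicit false

namespace Pool.Agent.Y734.I

open MvPolynomial NumberField Filter Pool.Agent.Y660.QP

lemma ev3 {κ : Type} [Field κ] [Algebra ℚ κ] (l : Fin 3 → ℚ) (x : Fin 3 → κ) :
    ev (N := 2) l x = algebraMap ℚ κ (l 0) * x 0 + algebraMap ℚ κ (l 1) * x 1 +
      algebraMap ℚ κ (l 2) * x 2 :=
  Fin.sum_univ_three _

/-- data of a generic sequence of pairs of conjugate points -/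
structure QD {q : ℕ} (H : Fin q → Fin 3 → ℚ) {U : Ultrafilter ℕ} {Ω : Type} [Field Ω]
    [Algebra ℚ Ω] (g : Gm U Ω) (z : ℕ → Fin 2 → Fin 3 → ℂ) (ν : ℕ → Fin q → ℚ) (S : Finset ℕ) :
    Prop where
  ν0 : ∀ t i, ν t i ≠ 0
  hS : ∀ p ∈ S, p.Prime
  hνS : ∀ t i i' (p : ℕ), p.Prime → p ∉ S → padicValRat p (ν t i) = padicValRat p (ν t i')
  hν : ∀ t i, ev (N := 2) (H i) (z t 0) * ev (N := 2) (H i) (z t 1) = ((ν t i : ℚ) : ℂ)
  gn : ∀ k, Gnr (fun j => g.π (fun t => z t k j))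

/-- the norms are proportional -/
def Rl {q : ℕ} (U : Ultrafilter ℕ) (ν : ℕ → Fin q → ℚ) (i j : Fin q) : Prop :=
  ∃ a : ℚ, ∀ᶠ t in (U : Filter ℕ), ν t j = a * ν t i

section

variable {q : ℕ} {H : Fin q → Fin 3 → ℚ} {U : Ultrafilter ℕ} {Ω : Type} [Field Ω]
  [Algebra ℚ Ω] {g : Gm U Ω} {z : ℕ → Fin 2 → Fin 3 → ℂ} {ν : ℕ → Fin q → ℚ} {S : Finset ℕ}

lemma Rl.symm (hν0 : ∀ t i, ν t i ≠ 0) {i j : Fin q} (h : Rl U ν i j) : Rl U ν j i := by
  obtain ⟨a, ha⟩ := h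
  obtain ⟨t, ht⟩ := ha.exists
  have ha0 : a ≠ 0 := by
    rintro rfl
    rw [zero_mul] at ht
    exact hν0 t j ht
  refine ⟨a⁻¹, ?_⟩
  filter_upwards [ha] with t ht
  rw [ht, ← mul_assoc, inv_mul_cancel₀ ha0, one_mul]

lemma Rl.trans {i j k : Fin q} (h : Rl U ν i j) (h' : Rl U ν j k) : Rl U ν i k := by
  obtain ⟨a, ha⟩ := h
  obtain ⟨b, hb⟩ := h'
  refine ⟨b * a, ?_⟩
  filter_upwards [ha, hb] with t h1 h2
  rw [h2, h1, mul_assoc]

lemma evg (l : Fin 3 → ℚ) (k : Fin 2) :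
    ev (N := 2) l (fun j => g.π (fun t => z t k j)) = g.π (fun t => ev (N := 2) l (z t k)) := by
  rw [← ev_lin]
  have h2 : aeval (fun j => g.π (fun t => z t k j)) (Pool.Agent.Y734.lin (n := 2) l) =
    g.π (fun t => aeval (z t k) (Pool.Agent.Y734.lin (n := 2) l)) :=
    g.aeval (fun t => z t k) _
  rw [h2]
  congr 1
  funext t
  rw [ev_lin]

lemma prg (l : Fin 3 → ℚ) :
    pr l (fun j => g.π (fun t => z t 0 j)) (fun j => g.π (fun t => z t 1 j)) =
      g.π (fun t => ev (N := 2) l (z t 0) * ev (N := 2) l (z t 1)) := by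
  unfold pr
  rw [evg, evg, ← map_mul]
  rfl

lemma QD.prH (D : QD H g z ν S) (i : Fin q) :
    pr (H i) (fun j => g.π (fun t => z t 0 j)) (fun j => g.π (fun t => z t 1 j)) =
      g.π (fun t => ((ν t i : ℚ) : ℂ)) := by
  rw [prg]
  congr 1
  funext t
  exact D.hν t i

lemma QD.rl_pr (D : QD H g z ν S) {i j : Fin q} (h : Rl U ν i j) : ∃ a : ℚ,
    pr (H j) (fun j => g.π (fun t => z t 0 j)) (fun j => g.π (fun t => z t 1 j)) =
      algebraMap ℚ Ω a *
        pr (H i) (fun j => g.π (fun t => z t 0 j)) (fun j => g.π (fun t => z t 1 j)) := by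
  obtain ⟨a, ha⟩ := h
  refine ⟨a, ?_⟩
  rw [D.prH, D.prH, ← g.rat, ← map_mul, g.eq_iff]
  filter_upwards [ha] with t ht
  rw [Pi.mul_apply, ht]
  push_cast
  rfl

/-- a relation between the squares gives a relation between the norms -/
lemma QD.sum_eq (D : QD H g z ν S) {m : ℕ} (f : Fin m → Fin q) (c : Fin m → ℚ)
    (hrel : ∀ j k, ∑ i, c i * (H (f i) j * H (f i) k) = 0) (t : ℕ) :
    ∑ i, c i * ν t (f i) = 0 := by
  have h1 : ((∑ i, c i * ν t (f i) : ℚ) : ℂ) = 0 := by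
    push_cast
    have h2 : ∀ i, (c i : ℂ) * (ν t (f i) : ℂ) =
        ∑ j, ∑ k, ((c i * (H (f i) j * H (f i) k) : ℚ) : ℂ) * (z t 0 j * z t 1 k) := by
      intro i
      rw [← D.hν t (f i)]
      rw [ev3, ev3]
      simp only [eq_ratCast, Fin.sum_univ_three]
      push_cast
      ring
    rw [Finset.sum_congr rfl fun i _ => h2 i, Finset.sum_comm]
    refine Finset.sum_eq_zero fun j _ => ?_
    rw [Finset.sum_comm]
    refine Finset.sum_eq_zero fun k _ => ?_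
    rw [← Finset.sum_mul, ← Rat.cast_sum, hrel, Rat.cast_zero, zero_mul]
  exact_mod_cast h1

/-- the sum over a class -/
lemma QD.class_sum (hue : UeStmt) (D : QD H g z ν S) {m : ℕ} (f : Fin m → Fin q)
    (c : Fin m → ℚ) (hsum : ∀ᶠ t in (U : Filter ℕ), ∑ i, c i * ν t (f i) = 0) (i : Fin m)
    (I : Finset (Fin m)) (hI : ∀ j, j ∈ I ↔ Rl U ν (f i) (f j)) :
    ∀ᶠ t in (U : Filter ℕ), ∑ j ∈ I, c j * ν t (f j) = 0 :=
  hue U S D.hS m (fun i t => ν t (f i)) (fun i t => D.ν0 t _)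
    (fun i j t p hp hpS => D.hνS t _ _ p hp hpS) c hsum i I hI

/-- every line has a partner, if there is a relation without zero coefficients -/
lemma QD.partner (hue : UeStmt) (D : QD H g z ν S) {m : ℕ} (f : Fin m → Fin q)
    (c : Fin m → ℚ) (hc : ∀ i, c i ≠ 0)
    (hsum : ∀ᶠ t in (U : Filter ℕ), ∑ i, c i * ν t (f i) = 0) (i : Fin m) :
    ∃ j, j ≠ i ∧ Rl U ν (f i) (f j) := by
  classical
  by_contra hcon
  push Not at hcon
  have h1 := D.class_sum hue f c hsum i {i} (by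
    intro j
    rw [Finset.mem_singleton]
    constructor
    · rintro rfl
      exact ⟨1, Eventually.of_forall fun t => by rw [one_mul]⟩
    · intro h
      by_contra hne
      exact hcon j hne h)
  obtain ⟨t, ht⟩ := h1.exists
  rw [Finset.sum_singleton] at ht
  exact mul_ne_zero (hc i) (D.ν0 t _) ht

end

end Pool.Agent.Y734.I
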