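import Mathlib
import Pool.Agent.Y734.I.QCls

/-!
# Project Y734/I: quadratic integral points, the theorem
-/

set_option autoImplicit false

namespace Pool.Agent.Y734.I

open MvPolynomial NumberField Filter Pool.Agent.Y660.QP

section

variable {q : ℕ} {H : Fin q → Fin 3 → ℚ} {U : Ultrafilter ℕ} {Ω : Type} [Field Ω]
  [Algebra ℚ Ω] {g : Gm U Ω} {z : ℕ → Fin 2 → Fin 3 → ℂ} {ν : ℕ → Fin q → ℚ} {S : Finset ℕ}

/-- six lines with dependent squares -/
lemma not_indep {H : Fin 6 → Fin 3 → ℚ} (hH : GP3 H)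
    (h : ¬ LinearIndependent ℚ (fun i => fun jk : Fin 3 × Fin 3 => H i jk.1 * H i jk.2)) :
    ∃ c : Fin 6 → ℚ, (∀ i, c i ≠ 0) ∧ ∀ j k, ∑ i, c i * (H i j * H i k) = 0 := by
  rw [Fintype.not_linearIndependent_iff] at h
  obtain ⟨c, hc, hc0⟩ := h
  have hrel : ∀ j k, ∑ i, c i * (H i j * H i k) = 0 := by
    intro j k
    have := congrFun hc (j, k)
    simpa using this
  exact ⟨c, cne hH hrel hc0, hrel⟩

/-- six lines with independent squares: contradiction -/
lemma QD.indep (hstep : StepStmt) (hnv : NvStmt) (hred : RedStmt) (hmono : MonoStmt)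
    (hind : IndStmt) (hgens : GensStmt) (hH : GP3 H) (D : QD H g z ν S)
    (htd : (2 : Cardinal) ≤ trd (rat (fun j => g.π (fun t => z t 0 j))))
    (f : Fin 6 → Fin q) (hf : Function.Injective f)
    (hli : LinearIndependent ℚ
      (fun i => fun jk : Fin 3 × Fin 3 => H (f i) jk.1 * H (f i) jk.2)) : False := by
  obtain ⟨h1, h2, h3⟩ := hgens (fun i => H (f i)) (hH.comp hf) hli
  refine germ_main (N := 2) (n := 2) (r := 2) (q := 6) hstep hnv hred hmono hind (𝓕 := ∅)
    (fun F hF => absurd hF (Set.notMem_empty F)) (by norm_num) h1 h3 (by norm_num) g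
    (fun k j => g.π (fun t => z t k j)) ?_ (fun k F hF => absurd hF (Set.notMem_empty F)) 0 htd
    S D.hS (fun t i => ν t (f i)) (fun t i => D.ν0 t _)
    (fun t i i' p hp hpS => D.hνS t _ _ p hp hpS) ?_
  · intro k h0
    have h4 := D.gn k (X 0) 1 (isHomogeneous_X _ _) (X_ne_zero _)
    rw [aeval_X] at h4
    exact h4 (congrFun h0 0)
  · intro i
    have h4 := D.prH (f i)
    unfold pr at h4
    rw [← h4]
    unfold nf
    rw [Fin.prod_univ_two]

/-- the class of an element in a set of six lines without triples -/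
lemma class_eq {m : ℕ} (hν0 : ∀ t i, ν t i ≠ 0)
    (hno : ∀ i j k : Fin q, i ≠ j → i ≠ k → j ≠ k → Rl U ν i j → Rl U ν i k → False)
    (f : Fin m → Fin q) (hf : Function.Injective f) (i j : Fin m) (hij : i ≠ j)
    (h : Rl U ν (f i) (f j)) (k : Fin m) :
    k ∈ ({i, j} : Finset (Fin m)) ↔ Rl U ν (f i) (f k) := by
  constructor
  · intro hk
    rw [Finset.mem_insert, Finset.mem_singleton] at hk
    rcases hk with rfl | rfl
    · exact ⟨1, Eventually.of_forall fun t => by rw [one_mul]⟩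
    · exact h
  · intro hk
    by_contra hne
    rw [Finset.mem_insert, Finset.mem_singleton, not_or] at hne
    exact hno (f i) (f j) (f k) (fun h => hij (hf h)) (fun h => hne.1 (hf h).symm)
      (fun h => hne.2 (hf h).symm) h hk

/-- the sum over a pair -/
lemma QD.pair_sum (hue : UeStmt) (D : QD H g z ν S)
    (hno : ∀ i j k : Fin q, i ≠ j → i ≠ k → j ≠ k → Rl U ν i j → Rl U ν i k → False)
    (f : Fin 6 → Fin q) (hf : Function.Injective f) (c : Fin 6 → ℚ)
    (hsum : ∀ᶠ t in (U : Filter ℕ), ∑ i, c i * ν t (f i) = 0) (i j : Fin 6) (hij : i ≠ j)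
    (h : Rl U ν (f i) (f j)) :
    algebraMap ℚ Ω (c i) * pr (H (f i)) (fun j => g.π (fun t => z t 0 j))
        (fun j => g.π (fun t => z t 1 j)) +
      algebraMap ℚ Ω (c j) * pr (H (f j)) (fun j => g.π (fun t => z t 0 j))
        (fun j => g.π (fun t => z t 1 j)) = 0 := by
  have h1 := D.class_sum hue f c hsum i {i, j} (class_eq D.ν0 hno f hf i j hij h)
  rw [D.prH, D.prH, ← g.rat, ← g.rat, ← map_mul, ← map_mul, ← map_add, g.ker]
  filter_upwards [h1] with t ht
  rw [Finset.sum_pair hij] at ht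
  simp only [Pi.add_apply, Pi.mul_apply]
  exact_mod_cast ht

end

end Pool.Agent.Y734.I
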