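import Mathlib
import Pool.Agent.Y734.I.QTop
import Pool.Agent.Y734.I.GPT.Main

/-!
# Project Y734/I: quadratic integral points, the theorem
-/

set_option autoImplicit false

namespace Pool.Agent.Y734.I

open MvPolynomial NumberField Filter Pool.Agent.Y660.QP

/-- a generic point of the plane has transcendence degree at least two -/
lemma Gnr.trd_ge (hmono : MonoStmt) {Ω : Type} [Field Ω] [Algebra ℚ Ω] {P : Fin 3 → Ω}
    (hP : Gnr P) : (2 : Cardinal) ≤ trd (rat (N := 2) P) := by
  have h1 : Algebra.trdeg ℚ (MvPolynomial (Fin (2 + 1)) ℚ ⧸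
      (⊥ : Ideal (MvPolynomial (Fin (2 + 1)) ℚ))) = (2 : ℕ) + 1 := by
    rw [(AlgEquiv.quotientBot ℚ (MvPolynomial (Fin (2 + 1)) ℚ)).trdeg_eq,
      MvPolynomial.trdeg_of_isDomain]
    simp
    norm_num
  obtain ⟨κ₁, i1, i2, x₁, hx₁, -, htr⟩ := GPT.gpt 2 2 ⊥ Ideal.isPrime_bot h1
  refine le_trans ?_ (hmono Ω κ₁ 2 P x₁ hx₁ ?_)
  · exact_mod_cast htr
  · intro d Φ hΦ h0
    by_cases hΦ0 : Φ = 0
    · rw [hΦ0, map_zero]
    · exact absurd h0 (hP Φ d hΦ hΦ0)

/-- four lines: a relation with nonzero coefficients -/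
lemma four {H : Fin 4 → Fin 3 → ℚ} (hH : GP3 H) :
    ∃ c : Fin 4 → ℚ, (∀ i, c i ≠ 0) ∧ ∀ j, ∑ i, c i * H i j = 0 := by
  have h1 : ¬ LinearIndependent ℚ H := by
    intro h
    have h2 := h.fintype_card_le_finrank
    simp at h2
  rw [Fintype.not_linearIndependent_iff] at h1
  obtain ⟨c, hc, i₀, hi₀⟩ := h1
  have hrel : ∀ j, ∑ i, c i * H i j = 0 := by
    intro j
    have := congrFun hc j
    simpa using this
  refine ⟨c, fun i hi => ?_, hrel⟩
  have h2 : LinearIndependent ℚ (fun k => H (i.succAbove k)) := by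
    have h3 := hH (i.succAbove 0) (i.succAbove 1) (i.succAbove 2)
      (fun h => by simpa using Fin.succAbove_right_injective h)
      (fun h => by simpa using Fin.succAbove_right_injective h)
      (fun h => by simpa using Fin.succAbove_right_injective h)
    convert h3 using 1
    funext k
    fin_cases k <;> rfl
  have h3 : ∑ k, c (i.succAbove k) • H (i.succAbove k) = 0 := by
    rw [Fin.sum_univ_succAbove _ i, hi, zero_smul, zero_add] at hc
    exact hc
  have h4 := Fintype.linearIndependent_iff.1 h2 (fun k => c (i.succAbove k)) h3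
  rcases eq_or_ne i₀ i with rfl | hne
  · exact hi₀ hi
  · obtain ⟨k, rfl⟩ := Fin.exists_succAbove_eq hne
    exact hi₀ (h4 k)

end Pool.Agent.Y734.I
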