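import Mathlib
import Pool.Agent.Y734.I.StmsH
import Pool.Agent.Y734.I.QFin

/-!
# Project Y734/I: different rational points
-/

set_option autoImplicit false

namespace Pool.Agent.Y734.I

open MvPolynomial NumberField Filter

/-- three independent forms have no common zero -/
lemma eq_zero_of_three {K : Type} [Field K] [Algebra ℚ K] {a b c : Fin 3 → ℚ}
    (h : LinearIndependent ℚ ![a, b, c]) {x : Fin 3 → K} (ha : ev (N := 2) a x = 0)
    (hb : ev (N := 2) b x = 0) (hc : ev (N := 2) c x = 0) : x = 0 := by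
  have h2 : IsUnit (Matrix.of ![a, b, c]) := by
    rw [← Matrix.linearIndependent_rows_iff_isUnit]
    exact h
  rw [Matrix.isUnit_iff_isUnit_det] at h2
  have h3 : ((Matrix.of ![a, b, c]).map (algebraMap ℚ K)).det ≠ 0 := by
    have h4 : ((Matrix.of ![a, b, c]).map (algebraMap ℚ K)).det =
        algebraMap ℚ K (Matrix.of ![a, b, c]).det := (RingHom.map_det _ _).symm
    rw [h4]
    exact (map_ne_zero _).2 h2.ne_zero
  by_contra hx
  apply h3
  rw [← Matrix.exists_mulVec_eq_zero_iff]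
  refine ⟨x, hx, ?_⟩
  funext i
  fin_cases i
  · exact ha
  · exact hb
  · exact hc

/-- every line of four has a partner -/
lemma partner_four (hue : UeStmt) {q : ℕ} {H : Fin q → Fin 3 → ℚ} (hH : GP3 H)
    {U : Ultrafilter ℕ} (z : ℕ → Fin 3 → ℂ)
    (ν : ℕ → Fin q → ℚ) (hν0 : ∀ t i, ν t i ≠ 0) (S : Finset ℕ) (hS : ∀ p ∈ S, p.Prime)
    (hνS : ∀ t i i' (p : ℕ), p.Prime → p ∉ S → padicValRat p (ν t i) = padicValRat p (ν t i'))
    (hν : ∀ t i, ev (N := 2) (H i) (z t) = ((ν t i : ℚ) : ℂ)) (f : Fin 4 → Fin q)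
    (hf : Function.Injective f) (i : Fin 4) : ∃ j, j ≠ i ∧ Rl U ν (f i) (f j) := by
  classical
  obtain ⟨c, hc, hrel⟩ := four (hH.comp hf)
  have hsum : ∀ t, ∑ i, c i * ν t (f i) = 0 := by
    intro t
    have h1 : ((∑ i, c i * ν t (f i) : ℚ) : ℂ) = 0 := by
      push_cast
      have h2 : ∀ i, (c i : ℂ) * (ν t (f i) : ℂ) =
          ∑ j, ((c i * H (f i) j : ℚ) : ℂ) * z t j := by
        intro i
        rw [← hν t (f i), ev3]
        simp only [eq_ratCast, Fin.sum_univ_three]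
        push_cast
        ring
      rw [Finset.sum_congr rfl fun i _ => h2 i, Finset.sum_comm]
      refine Finset.sum_eq_zero fun j _ => ?_
      rw [← Finset.sum_mul, ← Rat.cast_sum, hrel, Rat.cast_zero, zero_mul]
    exact_mod_cast h1
  by_contra hcon
  push Not at hcon
  have h1 := hue U S hS 4 (fun i t => ν t (f i)) (fun i t => hν0 t _)
    (fun i j t p hp hpS => hνS t _ _ p hp hpS) c (Eventually.of_forall hsum) i {i} (by
      intro j
      rw [Finset.mem_singleton]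
      constructor
      · rintro rfl
        exact ⟨1, Eventually.of_forall fun t => by rw [one_mul]⟩
      · intro h
        by_contra hne
        exact hcon j hne h)
  obtain ⟨t, ht⟩ := h1.exists
  rw [Finset.sum_singleton] at ht
  exact mul_ne_zero (hc i) (hν0 t _) ht

/-- among five lines all are related -/
lemma all_rel {q : ℕ} (hq : 6 ≤ q) (R : Fin q → Fin q → Prop) (hsymm : ∀ i j, R i j → R j i)
    (htrans : ∀ i j k, R i j → R j k → R i k)
    (h4 : ∀ f : Fin 4 → Fin q, Function.Injective f → ∀ i, ∃ j, j ≠ i ∧ R (f i) (f j))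
    (i j : Fin q) (hij : i ≠ j) : R i j := by
  classical
  have hex : ∀ s : Finset (Fin q), s.card ≤ 5 → ∃ k, k ∉ s := by
    intro s hs
    by_contra hcon
    push Not at hcon
    have h1 : (Finset.univ : Finset (Fin q)) ⊆ s := fun x _ => hcon x
    have h2 := Finset.card_le_card h1
    simp at h2
    omega
  obtain ⟨k, hk⟩ := hex {i, j} (Finset.card_le_two.trans (by norm_num))
  obtain ⟨l, hl⟩ := hex {i, j, k} (Finset.card_le_three.trans (by norm_num))
  obtain ⟨m, hm⟩ := hex {i, j, k, l} (Finset.card_le_four.trans (by norm_num))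
  simp only [Finset.mem_insert, Finset.mem_singleton, not_or] at hk hl hm
  have key : ∀ a b c d : Fin q, a ≠ b → a ≠ c → a ≠ d → b ≠ c → b ≠ d → c ≠ d →
      R a b ∨ R a c ∨ R a d := by
    intro a b c d h1 h2 h3 h5 h6 h7
    obtain ⟨e, he, hR⟩ := h4 ![a, b, c, d] (by
      intro x y hxy
      have h1' := h1.symm
      have h2' := h2.symm
      have h3' := h3.symm
      have h5' := h5.symm
      have h6' := h6.symm
      have h7' := h7.symm
      fin_cases x <;> fin_cases y <;> simp at hxy ⊢ <;> contradiction) 0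
    fin_cases e
    · exact absurd rfl he
    · exact Or.inl hR
    · exact Or.inr (Or.inl hR)
    · exact Or.inr (Or.inr hR)
  by_contra hR
  have hR' : ¬ R j i := fun h => hR (hsymm _ _ h)
  have n : ∀ x, R i x → ¬ R j x := fun x h h' => hR (htrans i x j h (hsymm _ _ h'))
  have a1 := (key i j k l hij (Ne.symm hk.1) (Ne.symm hl.1) (Ne.symm hk.2) (Ne.symm hl.2.1)
    (Ne.symm hl.2.2)).resolve_left hR
  have a2 := (key j i k l hij.symm (Ne.symm hk.2) (Ne.symm hl.2.1) (Ne.symm hk.1) (Ne.symm hl.1)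
    (Ne.symm hl.2.2)).resolve_left hR'
  have a3 := (key i j k m hij (Ne.symm hk.1) (Ne.symm hm.1) (Ne.symm hk.2) (Ne.symm hm.2.1)
    (Ne.symm hm.2.2.1)).resolve_left hR
  have a4 := (key j i k m hij.symm (Ne.symm hk.2) (Ne.symm hm.2.1) (Ne.symm hk.1) (Ne.symm hm.1)
    (Ne.symm hm.2.2.1)).resolve_left hR'
  have a5 := (key i j l m hij (Ne.symm hl.1) (Ne.symm hm.1) (Ne.symm hl.2.1) (Ne.symm hm.2.1)
    (Ne.symm hm.2.2.2)).resolve_left hR
  have a6 := (key j i l m hij.symm (Ne.symm hl.2.1) (Ne.symm hm.2.1) (Ne.symm hl.1) (Ne.symm hm.1)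
    (Ne.symm hm.2.2.2)).resolve_left hR'
  by_cases h : R i k
  · have h1 := a2.resolve_left (n k h)
    have h2 := a4.resolve_left (n k h)
    rcases a5 with h3 | h3
    · exact n l h3 h1
    · exact n m h3 h2
  · have h1 := a1.resolve_left h
    have h2 := a3.resolve_left h
    rcases a6 with h3 | h3
    · exact n l h1 h3
    · exact n m h2 h3

/-- points of degree one -/
theorem deg_one' (hue : UeStmt) {q : ℕ} (hq : 6 ≤ q) {H : Fin q → Fin 3 → ℚ} (hH : GP3 H)
    {U : Ultrafilter ℕ} (hU : (U : Filter ℕ) ≤ atTop) (z : ℕ → Fin 3 → ℂ)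
    (ν : ℕ → Fin q → ℚ) (hν0 : ∀ t i, ν t i ≠ 0) (S : Finset ℕ) (hS : ∀ p ∈ S, p.Prime)
    (hνS : ∀ t i i' (p : ℕ), p.Prime → p ∉ S → padicValRat p (ν t i) = padicValRat p (ν t i'))
    (hν : ∀ t i, ev (N := 2) (H i) (z t) = ((ν t i : ℚ) : ℂ)) :
    ∃ s t, s < t ∧ ∃ c : ℂ, z t = c • z s := by
  have hall : ∀ i j, i ≠ j → Rl U ν i j := all_rel hq (Rl U ν) (fun i j h => h.symm hν0)
    (fun i j k h h' => h.trans h') (partner_four hue hH z ν hν0 S hS hνS hν)
  let i₀ : Fin q := ⟨0, by omega⟩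
  let i₁ : Fin q := ⟨1, by omega⟩
  let i₂ : Fin q := ⟨2, by omega⟩
  have h01 : i₀ ≠ i₁ := by simp [i₀, i₁]
  have h02 : i₀ ≠ i₂ := by simp [i₀, i₂]
  have h12 : i₁ ≠ i₂ := by simp [i₁, i₂]
  obtain ⟨a, ha⟩ := hall i₀ i₁ h01
  obtain ⟨b, hb⟩ := hall i₀ i₂ h02
  obtain ⟨s, hs⟩ := (ha.and hb).exists
  obtain ⟨t, ht1, ht2⟩ := ((ha.and hb).and (hU (eventually_gt_atTop s))).exists
  refine ⟨s, t, ht2, ((ν t i₀ / ν s i₀ : ℚ) : ℂ), ?_⟩
  have hlin : ∀ (l : Fin 3 → ℚ) (c : ℂ), ev (N := 2) l (z t - c • z s) =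
      ev (N := 2) l (z t) - c * ev (N := 2) l (z s) := by
    intro l c
    rw [ev3, ev3, ev3]
    simp only [Pi.sub_apply, Pi.smul_apply, smul_eq_mul]
    ring
  have h0 := hν0 s i₀
  have h1 : z t - ((ν t i₀ / ν s i₀ : ℚ) : ℂ) • z s = 0 := by
    refine eq_zero_of_three (hH i₀ i₁ i₂ h01 h02 h12) ?_ ?_ ?_
    · rw [hlin, hν, hν, ← Rat.cast_mul, div_mul_cancel₀ _ h0, sub_self]
    · rw [hlin, hν, hν, ← Rat.cast_mul, ← Rat.cast_sub, ht1.1, hs.1]
      have : a * ν t i₀ - ν t i₀ / ν s i₀ * (a * ν s i₀) = 0 := by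
        field_simp
        ring
      rw [this, Rat.cast_zero]
    · rw [hlin, hν, hν, ← Rat.cast_mul, ← Rat.cast_sub, ht1.2, hs.2]
      have : b * ν t i₀ - ν t i₀ / ν s i₀ * (b * ν s i₀) = 0 := by
        field_simp
        ring
      rw [this, Rat.cast_zero]
  exact sub_eq_zero.1 h1

end Pool.Agent.Y734.I
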