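import Mathlib
import Pool.Agent.Y734.I.StmsH

/-!
# Project Y734/I: a sequence of different points
-/

set_option autoImplicit false

namespace Pool.Agent.Y734.I

open MvPolynomial NumberField Filter

/-- the embeddings of `x` are multiples of elements of `E` -/
def InE {N : ℕ} (E : Finset (Fin (N + 1) → ℂ)) (L : Type) [Field L] [NumberField L]
    (x : Fin (N + 1) → L) : Prop :=
  ∀ σ : L →ₐ[ℚ] ℂ, ∃ e ∈ E, ∃ c : ℂ, (fun j => σ (x j)) = c • e

/-- a sequence of different points in an infinite set of points of bounded degree -/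
theorem exists_inj_seq {N r : ℕ}
    (𝒳 : ∀ (L : Type) [Field L] [NumberField L], (Fin (N + 1) → L) → Prop)
    (hcon : ¬ ∃ E : Finset (Fin (N + 1) → ℂ),
      ∀ (L : Type) [Field L] [NumberField L], Module.finrank ℚ L ≤ r → ∀ x : Fin (N + 1) → L,
        𝒳 L x → InE E L x) :
    ∃ d, d + 1 ≤ r ∧ ∃ (L : ℕ → Type) (_ : ∀ t, Field (L t)) (_ : ∀ t, NumberField (L t))
      (x : ∀ t, Fin (N + 1) → L t) (σ : ∀ t, Fin (d + 1) ≃ (L t →ₐ[ℚ] ℂ)),
      (∀ t, Module.finrank ℚ (L t) = d + 1) ∧ (∀ t, 𝒳 (L t) (x t)) ∧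
      ∀ s t, s < t → ∀ (k : Fin (d + 1)) (c : ℂ),
        (fun j => σ t 0 (x t j)) ≠ c • (fun j => σ s k (x s j)) := by
  classical
  have step1 : ∃ d, d + 1 ≤ r ∧ ∀ E : Finset (Fin (N + 1) → ℂ),
      ∃ (L : Type) (_ : Field L) (_ : NumberField L) (x : Fin (N + 1) → L) (σ : L →ₐ[ℚ] ℂ),
        Module.finrank ℚ L = d + 1 ∧ 𝒳 L x ∧
          ∀ e ∈ E, ∀ c : ℂ, (fun j => σ (x j)) ≠ c • e := by
    by_contra hno
    apply hcon
    have h1 : ∀ d : ℕ, ∃ E : Finset (Fin (N + 1) → ℂ), d + 1 ≤ r →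
        ∀ (L : Type) [Field L] [NumberField L], Module.finrank ℚ L = d + 1 →
          ∀ x : Fin (N + 1) → L, 𝒳 L x → InE E L x := by
      intro d
      by_cases hd : d + 1 ≤ r
      · by_contra hno2
        apply hno
        refine ⟨d, hd, fun E => ?_⟩
        by_contra hno3
        apply hno2
        refine ⟨E, fun _ L _ _ hL x hx σ => ?_⟩
        by_contra hne
        push Not at hne
        exact hno3 ⟨L, inferInstance, inferInstance, x, σ, hL, hx, hne⟩
      · exact ⟨∅, fun h => absurd h hd⟩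
    choose E hE using h1
    refine ⟨(Finset.range r).biUnion E, fun L _ _ hL x hx σ => ?_⟩
    have h2 : 0 < Module.finrank ℚ L := Module.finrank_pos
    obtain ⟨d, hd⟩ : ∃ d, Module.finrank ℚ L = d + 1 := ⟨Module.finrank ℚ L - 1, by omega⟩
    obtain ⟨e, he, c, hc⟩ := hE d (hd ▸ hL) L hd x hx σ
    refine ⟨e, Finset.mem_biUnion.2 ⟨d, Finset.mem_range.2 (by omega), he⟩, c, hc⟩
  obtain ⟨d, hdr, hbad⟩ := step1
  choose L i1 i2 x σ hfin h𝒳 hσ using hbad
  let im : Finset (Fin (N + 1) → ℂ) → Finset (Fin (N + 1) → ℂ) := fun E =>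
    Finset.univ.image (fun τ : (L E →ₐ[ℚ] ℂ) => fun j => τ (x E j))
  let E : ℕ → Finset (Fin (N + 1) → ℂ) := fun t => Nat.rec ∅ (fun _ E => E ∪ im E) t
  have hE : ∀ t, E (t + 1) = E t ∪ im (E t) := fun t => rfl
  have hmono : ∀ s t, s < t → im (E s) ⊆ E t := by
    intro s t hst
    induction t with
    | zero => omega
    | succ t ih =>
      rw [hE]
      rcases Nat.lt_succ_iff_lt_or_eq.1 hst with h | h
      · exact (ih h).trans Finset.subset_union_left
      · rw [h]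
        exact Finset.subset_union_right
  have hequiv : ∀ F, ∃ e : Fin (d + 1) ≃ (L F →ₐ[ℚ] ℂ), e 0 = σ F := by
    intro F
    have h1 : Fintype.card (L F →ₐ[ℚ] ℂ) = d + 1 := by
      rw [AlgHom.card ℚ (L F) ℂ, hfin F]
    let e := (Fintype.equivFinOfCardEq h1).symm
    refine ⟨(Equiv.swap 0 (e.symm (σ F))).trans e, ?_⟩
    simp
  choose e he using hequiv
  refine ⟨d, hdr, fun t => L (E t), fun t => i1 (E t), fun t => i2 (E t), fun t => x (E t),
    fun t => e (E t), fun t => hfin _, fun t => h𝒳 _, ?_⟩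
  intro s t hst k c h
  rw [he] at h
  refine hσ (E t) _ (hmono s t hst ?_) c h
  exact Finset.mem_image.2 ⟨e (E s) k, Finset.mem_univ _, rfl⟩

end Pool.Agent.Y734.I
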