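import Mathlib
import Pool.Agent.Y734.I.StmsH
import Pool.Agent.Y734.I.QMain

/-!
# Project Y734/I: families of singular symmetric matrices
-/

set_option autoImplicit false

namespace Pool.Agent.Y734.I

open MvPolynomial

lemma image_comp {q m : ℕ} (α : Fin q → ℤ) {f : Fin m → Fin q} (hf : Function.Surjective f) :
    Finset.univ.image (fun i => α (f i)) = Finset.univ.image α := by
  ext w
  simp only [Finset.mem_image, Finset.mem_univ, true_and]
  constructor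
  · rintro ⟨i, hi⟩
    exact ⟨f i, hi⟩
  · rintro ⟨i, hi⟩
    obtain ⟨j, rfl⟩ := hf i
    exact ⟨j, hi⟩

lemma Fm.comp {q : ℕ} {H : Fin q → Fin 3 → ℚ} {κ : Fin q → ℚ} {α : Fin q → ℤ}
    {M : ℤ → Matrix (Fin 3) (Fin 3) ℚ} (F : Fm H κ α M) {m : ℕ} (hm : 6 ≤ m) {f : Fin m → Fin q}
    (hf : Function.Injective f) (hf' : Function.Surjective f) :
    Fm (fun i => H (f i)) (fun i => κ (f i)) (fun i => α (f i)) M where
  hq := hm
  gp := F.gp.comp hf
  κ0 := fun i => F.κ0 _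
  symm := F.symm
  val := fun w i => F.val w (f i)
  det := by
    intro z hz
    rw [image_comp α hf']
    exact F.det z hz

lemma Cn.of_comp {q : ℕ} {H : Fin q → Fin 3 → ℚ} {α : Fin q → ℤ}
    {M : ℤ → Matrix (Fin 3) (Fin 3) ℚ} {m : ℕ} {f : Fin m → Fin q}
    (hf' : Function.Surjective f) (h : Cn (fun i => H (f i)) (fun i => α (f i)) M) :
    Cn H α M := by
  obtain ⟨G, hG, hG'⟩ := h
  refine ⟨G, ⟨hG.deg, hG.ne, ?_⟩, ?_⟩
  · intro p hp hpG hpH
    refine hG.at4 p hp hpG fun k => ?_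
    obtain ⟨i, hi⟩ := hpH k
    obtain ⟨j, rfl⟩ := hf' i
    exact ⟨j, hi⟩
  · intro x hx
    refine hG' x ?_
    unfold Pt at hx ⊢
    rw [image_comp α hf']
    exact hx

/-- the algebraic theorem -/
theorem algh (hline : LineStmt) (hsize : SizeStmt) (htri : TriStmt) {q : ℕ}
    {H : Fin q → Fin 3 → ℚ} {κ : Fin q → ℚ} {α : Fin q → ℤ}
    {M : ℤ → Matrix (Fin 3) (Fin 3) ℚ} (F : Fm H κ α M) (hne : ∃ i j, α i ≠ α j) :
    Cn H α M := by
  classical
  obtain ⟨i₀, j₀, h0⟩ := hne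
  obtain ⟨i, -, hi⟩ := Finset.exists_min_image Finset.univ α ⟨i₀, Finset.mem_univ _⟩
  obtain ⟨j, -, hj⟩ := Finset.exists_max_image Finset.univ α ⟨i₀, Finset.mem_univ _⟩
  have hi' := fun k => hi k (Finset.mem_univ _)
  have hj' := fun k => hj k (Finset.mem_univ _)
  have hij : α i < α j := by
    rcases lt_or_gt_of_ne h0 with h | h
    · exact lt_of_le_of_lt (hi' i₀) (lt_of_lt_of_le h (hj' j₀))
    · exact lt_of_le_of_lt (hi' j₀) (lt_of_lt_of_le h (hj' i₀))
  by_cases hk : ∃ k, α i < α k ∧ α k < α j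
  · obtain ⟨k, hk1, hk2⟩ := hk
    obtain ⟨rfl, f, hf, h1, h2, h3, h4, h5⟩ := hsize q H κ α M F ⟨i, k, j, hk1, hk2⟩
    have hf' : Function.Surjective f := Finite.injective_iff_surjective.1 hf
    exact Cn.of_comp hf' (htri _ _ _ M (F.comp (by norm_num) hf hf') ⟨h1, h2, h3, h4, h5⟩)
  · push Not at hk
    refine hline q H κ α M F (α i) (α j) hij (fun k => ?_) ⟨i, rfl⟩ ⟨j, rfl⟩
    rcases (hi' k).lt_or_eq with h | h
    · exact Or.inr (le_antisymm (hj' k) (hk k h))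
    · exact Or.inl h.symm

end Pool.Agent.Y734.I
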