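import Mathlib
import Pool.Agent.Y734.I.StmsH
import Pool.Agent.Y734.I.QCls

/-!
# Project Y734/I: the basis of the symmetric matrices dual to the squares of six lines
-/

set_option autoImplicit false

namespace Pool.Agent.Y734.I

open MvPolynomial

/-- the first index of an entry -/
def pa : Fin 6 → Fin 3 := ![0, 0, 0, 1, 1, 2]

/-- the second index of an entry -/
def pb : Fin 6 → Fin 3 := ![0, 1, 2, 1, 2, 2]

/-- the position of an entry of a symmetric matrix -/
def pos (j k : Fin 3) : Fin 6 := (![![0, 1, 2], ![1, 3, 4], ![2, 4, 5]] : Fin 3 → Fin 3 → Fin 6) j k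

/-- the basis of the symmetric matrices dual to the squares of six lines -/
theorem dual_basis {H : Fin 6 → Fin 3 → ℚ}
    (hli : LinearIndependent ℚ (fun i => fun jk : Fin 3 × Fin 3 => H i jk.1 * H i jk.2)) :
    ∃ N : Fin 6 → Matrix (Fin 3) (Fin 3) ℚ, (∀ i, (N i).IsSymm) ∧
      (∀ i j, qv (H i) (N j) = if i = j then 1 else 0) ∧
      ∀ (K : Type) [Field K] [Algebra ℚ K] (p q : Fin 3 → K) (j k : Fin 3),
        p j * q k + q j * p k = ∑ i, 2 * (ev (N := 2) (H i) p * ev (N := 2) (H i) q) *
          algebraMap ℚ K (N i j k) := by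
  let A : Matrix (Fin 6) (Fin 6) ℚ := Matrix.of fun i e => H i (pa e) * H i (pb e)
  have hA : IsUnit A := by
    rw [← Matrix.linearIndependent_rows_iff_isUnit, Fintype.linearIndependent_iff]
    intro c hc i
    refine Fintype.linearIndependent_iff.1 hli c ?_ i
    funext jk
    obtain ⟨j, k⟩ := jk
    have h1 := congrFun hc (pos j k)
    simp only [Finset.sum_apply, Pi.smul_apply, smul_eq_mul, Pi.zero_apply] at h1 ⊢
    rw [← h1]
    refine Finset.sum_congr rfl fun i _ => ?_
    congr 1
    fin_cases j <;> fin_cases k <;> simp [A, pos, pa, pb, Matrix.row] <;> ring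
  obtain ⟨B, hAB, hBA⟩ : ∃ B : Matrix (Fin 6) (Fin 6) ℚ, A * B = 1 ∧ B * A = 1 := by
    obtain ⟨u, hu⟩ := hA
    exact ⟨(u⁻¹ : (Matrix (Fin 6) (Fin 6) ℚ)ˣ), by rw [← hu]; simp, by rw [← hu]; simp⟩
  have hAB' : ∀ i j, ∑ e, A i e * B e j = if i = j then 1 else 0 := by
    intro i j
    rw [← Matrix.mul_apply, hAB, Matrix.one_apply]
  have hBA' : ∀ e e', ∑ i, B e i * A i e' = if e = e' then 1 else 0 := by
    intro i j
    rw [← Matrix.mul_apply, hBA, Matrix.one_apply]
  let N : Fin 6 → Matrix (Fin 3) (Fin 3) ℚ := fun i =>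
    Matrix.of fun j k => B (pos j k) i / (if j = k then 1 else 2)
  refine ⟨N, ?_, ?_, ?_⟩
  · intro i
    ext j k
    fin_cases j <;> fin_cases k <;> simp [N, pos, Matrix.transpose]
  · intro i j
    rw [← hAB' i j]
    unfold qv
    simp only [Fin.sum_univ_succ, Fin.sum_univ_zero]
    simp [N, pos, A, pa, pb]
    ring
  · intro K _ _ p q j k
    have hchar : CharZero K := algebraRat.charZero K
    have two : (2 : K) ≠ 0 := two_ne_zero
    let s : Fin 6 → K := ![p 0 * q 0, p 0 * q 1 + p 1 * q 0, p 0 * q 2 + p 2 * q 0, p 1 * q 1,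
      p 1 * q 2 + p 2 * q 1, p 2 * q 2]
    have h1 : ∀ i, ev (N := 2) (H i) p * ev (N := 2) (H i) q =
        ∑ e, algebraMap ℚ K (A i e) * s e := by
      intro i
      rw [ev3, ev3]
      simp only [Fin.sum_univ_succ, Fin.sum_univ_zero]
      simp [A, s, pa, pb]
      ring
    have h2 : ∀ e', ∑ i, algebraMap ℚ K (B e' i) * (ev (N := 2) (H i) p * ev (N := 2) (H i) q) =
        s e' := by
      intro e'
      have h3 : ∀ i, algebraMap ℚ K (B e' i) * (ev (N := 2) (H i) p * ev (N := 2) (H i) q) =
          ∑ e, algebraMap ℚ K (B e' i * A i e) * s e := by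
        intro i
        rw [h1, Finset.mul_sum]
        refine Finset.sum_congr rfl fun e _ => ?_
        rw [map_mul]
        ring
      rw [Finset.sum_congr rfl fun i _ => h3 i, Finset.sum_comm]
      have h4 : ∀ e, ∑ i, algebraMap ℚ K (B e' i * A i e) * s e = if e' = e then s e else 0 := by
        intro e
        rw [← Finset.sum_mul, ← map_sum, hBA']
        split_ifs <;> simp
      rw [Finset.sum_congr rfl fun e _ => h4 e]
      simp
    have h5 : ∑ i, 2 * (ev (N := 2) (H i) p * ev (N := 2) (H i) q) *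
        algebraMap ℚ K (N i j k) = 2 / (if j = k then 1 else 2) * s (pos j k) := by
      rw [← h2, Finset.mul_sum]
      refine Finset.sum_congr rfl fun i _ => ?_
      have h6 : algebraMap ℚ K (N i j k) = algebraMap ℚ K (B (pos j k) i) /
          (if j = k then 1 else 2) := by
        simp only [N, Matrix.of_apply]
        rw [map_div₀]
        congr 1
        split_ifs <;> simp
      rw [h6]
      ring
    rw [h5]
    fin_cases j <;> fin_cases k <;> simp [pos, s] <;> ring_nf

end Pool.Agent.Y734.I
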