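import Mathlib

/-!
# Project Y734/I: Laurent polynomials
-/

set_option autoImplicit false

namespace Pool.Agent.Y734.I

/-- the coefficients of a Laurent polynomial which vanishes at all rational numbers -/
theorem laurent (W : Finset ℤ) (a : ℤ → ℚ) (h : ∀ z : ℚ, z ≠ 0 → ∑ w ∈ W, z ^ w * a w = 0) :
    ∀ w ∈ W, a w = 0 := by
  classical
  let K : ℕ := ∑ w ∈ W, w.natAbs
  have hK : ∀ w ∈ W, 0 ≤ w + K := by
    intro w hw
    have h1 : w.natAbs ≤ K := Finset.single_le_sum (f := fun w : ℤ => w.natAbs)
      (fun _ _ => Nat.zero_le _) hw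
    omega
  let P : Polynomial ℚ := ∑ w ∈ W, Polynomial.C (a w) * Polynomial.X ^ (w + K).toNat
  have hP : P = 0 := by
    apply Polynomial.eq_zero_of_infinite_isRoot
    have h1 : (Set.univ \ {(0 : ℚ)}).Infinite := Set.infinite_univ.diff (Set.finite_singleton 0)
    refine h1.mono ?_
    rintro z ⟨-, hz⟩
    have hz' : z ≠ 0 := hz
    change Polynomial.IsRoot P z
    rw [Polynomial.IsRoot, Polynomial.eval_finset_sum]
    have h2 : ∀ w ∈ W, Polynomial.eval z (Polynomial.C (a w) * Polynomial.X ^ (w + K).toNat) =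
        z ^ K * (z ^ w * a w) := by
      intro w hw
      rw [Polynomial.eval_mul, Polynomial.eval_C, Polynomial.eval_pow, Polynomial.eval_X]
      have h3 : z ^ (w + K).toNat = z ^ K * z ^ w := by
        rw [← zpow_natCast, Int.toNat_of_nonneg (hK w hw), zpow_add₀ hz', zpow_natCast]
        ring
      rw [h3]
      ring
    rw [Finset.sum_congr rfl h2, ← Finset.mul_sum, h z hz', mul_zero]
  intro w hw
  have h1 : P.coeff (w + K).toNat = 0 := by rw [hP, Polynomial.coeff_zero]
  rw [Polynomial.finset_sum_coeff, Finset.sum_eq_single w] at h1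
  · simpa using h1
  · intro w' hw' hne
    rw [Polynomial.coeff_C_mul, Polynomial.coeff_X_pow, if_neg, mul_zero]
    intro h2
    have h3 := hK w hw
    have h4 := hK w' hw'
    apply hne
    omega
  · intro h2
    exact absurd hw h2

end Pool.Agent.Y734.I
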