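import Mathlib
import Pool.Agent.Y734.I.StmsH
import Pool.Agent.Y734.I.HDual
import Pool.Agent.Y734.I.HLau
import Pool.Agent.Y734.I.HAlg

/-!
# Project Y734/I: different quadratic points
-/

set_option autoImplicit false

namespace Pool.Agent.Y734.I

open MvPolynomial NumberField Filter

lemma qv_sum {ι : Type} (s : Finset ι) (h : Fin 3 → ℚ) (c : ι → ℚ)
    (N : ι → Matrix (Fin 3) (Fin 3) ℚ) :
    qv h (∑ i ∈ s, c i • N i) = ∑ i ∈ s, c i * qv h (N i) := by
  unfold qv
  simp only [Matrix.sum_apply, Matrix.smul_apply, smul_eq_mul, Fin.sum_univ_three,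
    Finset.mul_sum, Finset.sum_mul, ← Finset.sum_add_distrib]
  refine Finset.sum_congr rfl fun i _ => ?_
  ring

/-- points of degree two -/
theorem deg_two' (htor : TorStmt) (hsymeq : SymeqStmt) (hline : LineStmt) (hsize : SizeStmt)
    (htri : TriStmt) {q : ℕ} (hq : 6 ≤ q) {H : Fin q → Fin 3 → ℚ} (hH : GP3 H)
    (f : Fin 6 → Fin q)
    (hli : LinearIndependent ℚ
      (fun i => fun jk : Fin 3 × Fin 3 => H (f i) jk.1 * H (f i) jk.2))
    {U : Ultrafilter ℕ} (hU : (U : Filter ℕ) ≤ atTop) (z : ℕ → Fin 2 → Fin 3 → ℂ)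
    (hz : ∀ t k, z t k ≠ 0) (ν : ℕ → Fin q → ℚ) (hν0 : ∀ t i, ν t i ≠ 0) (S : Finset ℕ)
    (hS : ∀ p ∈ S, p.Prime)
    (hνS : ∀ t i i' (p : ℕ), p.Prime → p ∉ S → padicValRat p (ν t i) = padicValRat p (ν t i'))
    (hν : ∀ t i, ev (N := 2) (H i) (z t 0) * ev (N := 2) (H i) (z t 1) = ((ν t i : ℚ) : ℂ))
    (hne : ∀ s t, s < t → ∀ (k : Fin 2) (c : ℂ), z t 0 ≠ c • z s k) :
    ∃ t G, Crv H G ∧ aeval (z t 0) G = 0 := by
  classical
  obtain ⟨N, hNs, hNd, hN⟩ := dual_basis hli
  let κ : ℕ → Fin q → ℚ := fun t i => 2 * ν t i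
  have hκ0 : ∀ t i, κ t i ≠ 0 := fun t i => mul_ne_zero two_ne_zero (hν0 t i)
  have hκS : ∀ t i i' (p : ℕ), p.Prime → p ∉ S →
      padicValRat p (κ t i) = padicValRat p (κ t i') := by
    intro t i i' p hp hpS
    have := Fact.mk hp
    simp only [κ]
    rw [padicValRat.mul two_ne_zero (hν0 t i), padicValRat.mul two_ne_zero (hν0 t i'),
      hνS t i i' p hp hpS]
  -- the symmetric matrix
  have hM : ∀ t j k, (((∑ i, κ t (f i) • N i) j k : ℚ) : ℂ) =
      z t 0 j * z t 1 k + z t 1 j * z t 0 k := by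
    intro t j k
    rw [hN ℂ (z t 0) (z t 1) j k]
    simp only [Matrix.sum_apply, Matrix.smul_apply, smul_eq_mul, hν, κ, eq_ratCast]
    push_cast
    rfl
  -- the equations
  let ℓ : Fin 3 → Fin 3 → MvPolynomial (Fin q) ℚ := fun j k => ∑ i, C (N i j k) * X (f i)
  have hℓ : ∀ j k, (ℓ j k).IsHomogeneous 1 := by
    intro j k
    refine IsHomogeneous.sum _ _ _ fun i _ => ?_
    have := (isHomogeneous_C (Fin q) (N i j k)).mul (isHomogeneous_X ℚ (f i))
    rwa [zero_add] at this
  have hℓe : ∀ (x : Fin q → ℚ) j k, eval x (ℓ j k) = (∑ i, x (f i) • N i) j k := by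
    intro x j k
    simp only [ℓ, map_sum, map_mul, eval_C, eval_X, Matrix.sum_apply, Matrix.smul_apply,
      smul_eq_mul]
    exact Finset.sum_congr rfl fun i _ => mul_comm _ _
  let F₁ : MvPolynomial (Fin q) ℚ := (Matrix.of ℓ).det
  have hF₁ : F₁.IsHomogeneous 3 := by
    have h3 : ∀ a b c d e g, (ℓ a b * ℓ c d * ℓ e g).IsHomogeneous 3 := fun a b c d e g =>
      ((hℓ a b).mul (hℓ c d)).mul (hℓ e g)
    simp only [F₁]
    rw [Matrix.det_fin_three]
    simp only [Matrix.of_apply]
    exact (((((h3 _ _ _ _ _ _).sub (h3 _ _ _ _ _ _)).sub (h3 _ _ _ _ _ _)).add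
      (h3 _ _ _ _ _ _)).add (h3 _ _ _ _ _ _)).sub (h3 _ _ _ _ _ _)
  have hF₁e : ∀ x : Fin q → ℚ, eval x F₁ = (∑ i, x (f i) • N i).det := by
    intro x
    simp only [F₁]
    rw [Matrix.det_fin_three, Matrix.det_fin_three]
    simp only [Matrix.of_apply, map_sub, map_add, map_mul, hℓe]
  have hF₁z : ∀ t, eval (fun i => κ t i) F₁ = 0 := by
    intro t
    rw [hF₁e]
    have h1 : (((∑ i, κ t (f i) • N i).det : ℚ) : ℂ) = 0 := by
      rw [Matrix.det_fin_three]
      push_cast
      simp only [hM]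
      ring
    exact_mod_cast h1
  let F₂ : Fin q → MvPolynomial (Fin q) ℚ := fun i =>
    (∑ j, C (qv (H i) (N j)) * X (f j)) - X i
  have hF₂ : ∀ i, (F₂ i).IsHomogeneous 1 := by
    intro i
    refine IsHomogeneous.sub (IsHomogeneous.sum _ _ _ fun j _ => ?_) (isHomogeneous_X _ _)
    have := (isHomogeneous_C (Fin q) (qv (H i) (N j))).mul (isHomogeneous_X ℚ (f j))
    rwa [zero_add] at this
  have hF₂e : ∀ (x : Fin q → ℚ) i, eval x (F₂ i) = ∑ j, x (f j) * qv (H i) (N j) - x i := by
    intro x i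
    simp only [F₂, map_sub, map_sum, map_mul, eval_C, eval_X]
    congr 1
    exact Finset.sum_congr rfl fun i _ => mul_comm _ _
  have hF₂z : ∀ t i, eval (fun i => κ t i) (F₂ i) = 0 := by
    intro t i
    rw [hF₂e, ← qv_sum, sub_eq_zero]
    have h1 : ((qv (H i) (∑ j, κ t (f j) • N j) : ℚ) : ℂ) = ((κ t i : ℚ) : ℂ) := by
      unfold qv
      push_cast
      simp only [hM]
      simp only [κ]
      push_cast
      rw [← hν t i, ev3, ev3]
      simp only [Fin.sum_univ_three, eq_ratCast]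
      ring
    exact_mod_cast h1
  -- the torus
  obtain ⟨α, hα1, hα2⟩ := htor U S hS q (fun i t => κ t i) (fun i t => hκ0 t i)
    (fun i j t p hp hpS => hκS t i j p hp hpS) 3
  have h1 := hα2 3 F₁ le_rfl hF₁ (Eventually.of_forall hF₁z)
  have h2 : ∀ᶠ t in (U : Filter ℕ), ∀ i, ∀ z : ℚ, z ≠ 0 →
      eval (fun i => κ t i * z ^ α i) (F₂ i) = 0 := by
    rw [Filter.eventually_all]
    exact fun i => hα2 1 (F₂ i) (by norm_num) (hF₂ i) (Eventually.of_forall fun t => hF₂z t i)
  by_cases hc : ∃ i j, α i ≠ α j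
  · obtain ⟨t, ht1, ht2⟩ := (h1.and h2).exists
    let M : ℤ → Matrix (Fin 3) (Fin 3) ℚ := fun w =>
      ∑ j, (if α (f j) = w then κ t (f j) else 0) • N j
    have hsum : ∀ y : ℚ, ∑ w ∈ Finset.univ.image α, y ^ w • M w =
        ∑ j, (κ t (f j) * y ^ α (f j)) • N j := by
      intro y
      simp only [M, Finset.smul_sum, smul_smul]
      rw [Finset.sum_comm]
      refine Finset.sum_congr rfl fun j _ => ?_
      rw [← Finset.sum_smul]
      congr 1
      rw [Finset.sum_eq_single (α (f j))]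
      · rw [if_pos rfl, mul_comm]
      · intro w _ hw
        rw [if_neg hw.symm, mul_zero]
      · intro h
        exact absurd (Finset.mem_image_of_mem α (Finset.mem_univ _)) h
    have hFm : Fm H (κ t) α M := by
      refine ⟨hq, hH, hκ0 t, ?_, ?_, ?_⟩
      · intro w
        simp only [M]
        refine Matrix.IsSymm.ext fun a b => ?_
        simp only [Matrix.sum_apply, Matrix.smul_apply]
        exact Finset.sum_congr rfl fun j _ => by rw [(hNs j).apply]
      · intro w i
        simp only [M]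
        rw [qv_sum]
        by_cases hw : w ∈ Finset.univ.image α
        · have h3 := laurent (Finset.univ.image α) (fun w =>
            ∑ j, (if α (f j) = w then κ t (f j) else 0) * qv (H i) (N j) -
              (if α i = w then κ t i else 0)) (by
            intro y hy
            have h4 := ht2 i y hy
            rw [hF₂e, ← qv_sum, ← hsum, qv_sum] at h4
            have h5 : ∑ w ∈ Finset.univ.image α, y ^ w * (if α i = w then κ t i else 0) =
                κ t i * y ^ α i := by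
              rw [Finset.sum_eq_single (α i)]
              · rw [if_pos rfl, mul_comm]
              · intro w _ hw
                rw [if_neg hw.symm, mul_zero]
              · intro h
                exact absurd (Finset.mem_image_of_mem α (Finset.mem_univ _)) h
            simp only [mul_sub]
            rw [Finset.sum_sub_distrib, h5]
            simp only [M, qv_sum] at h4
            exact h4) w hw
          exact sub_eq_zero.1 h3
        · have h3 : ∀ i, α i ≠ w := fun i h =>
            hw (Finset.mem_image.2 ⟨i, Finset.mem_univ _, h⟩)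
          rw [if_neg (h3 i)]
          exact Finset.sum_eq_zero fun j _ => by rw [if_neg (h3 _), zero_mul]
      · intro y hy
        have h3 := ht1 y hy
        rw [hF₁e] at h3
        rw [hsum]
        exact h3
    obtain ⟨G, hG, hG'⟩ := algh hline hsize htri hFm hc
    refine ⟨t, G, hG, hG' _ ⟨hz t 0, z t 1, hz t 1, fun j k => ?_⟩⟩
    have h3 := hsum 1
    simp only [one_zpow, one_smul, mul_one] at h3
    rw [h3]
    exact hM t j k
  · push Not at hc
    exfalso
    let i₀ : Fin q := ⟨0, by omega⟩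
    have h3 : ∀ j, ∃ a : ℚ, ∀ᶠ t in (U : Filter ℕ), κ t j = a * κ t i₀ := fun j =>
      (hα1 i₀ j).1 (hc i₀ j)
    choose a ha using h3
    have h4 : ∀ᶠ t in (U : Filter ℕ), ∀ j, κ t j = a j * κ t i₀ := Filter.eventually_all.2 ha
    obtain ⟨s, hs⟩ := h4.exists
    obtain ⟨t, ht1, ht2⟩ := (h4.and (hU (eventually_gt_atTop s))).exists
    have h5 : ∀ j, κ t j = κ t i₀ / κ s i₀ * κ s j := by
      intro j
      rw [ht1 j, hs j]
      have := hκ0 s i₀
      field_simp
    have h6 : ∑ i, κ t (f i) • N i = (κ t i₀ / κ s i₀) • ∑ i, κ s (f i) • N i := by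
      rw [Finset.smul_sum]
      refine Finset.sum_congr rfl fun i _ => ?_
      rw [smul_smul, ← h5]
    have h7 : ∀ j k, z t 0 j * z t 1 k + z t 1 j * z t 0 k =
        ((κ t i₀ / κ s i₀ : ℚ) : ℂ) * (z s 0 j * z s 1 k + z s 1 j * z s 0 k) := by
      intro j k
      rw [← hM, ← hM, h6, Matrix.smul_apply, smul_eq_mul]
      push_cast
      ring
    rcases hsymeq (z t 0) (z t 1) (z s 0) (z s 1) _
      (by exact_mod_cast div_ne_zero (hκ0 t i₀) (hκ0 s i₀)) (hz t 0) (hz t 1) h7 with h | h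
    · obtain ⟨b, hb⟩ := h
      exact hne s t ht2 0 b hb
    · obtain ⟨b, hb⟩ := h
      exact hne s t ht2 1 b hb

end Pool.Agent.Y734.I
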