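import Mathlib
import Pool.Agent.Y734.I.HTwo
import Pool.Agent.Y734.I.HOne
import Pool.Agent.Y734.I.HSeq
import Pool.Agent.Y734.I.StmsF

/-!
# Project Y734/I: quadratic integral points off the lines and conics with at most four points on `D`
-/

set_option autoImplicit false

namespace Pool.Agent.Y734.I

open MvPolynomial NumberField Filter Pool.Agent.Y660.QP

theorem h_main (hlg : LgStmt) (hue : UeStmt) (htor : TorStmt) (hsymeq : SymeqStmt)
    (hline : LineStmt) (hsize : SizeStmt) (htri : TriStmt) {q : ℕ} (hq : 6 ≤ q)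
    {H : Fin q → Fin 3 → ℚ} (hH : GP3 H) (f : Fin 6 → Fin q)
    (hli : LinearIndependent ℚ
      (fun i => fun jk : Fin 3 × Fin 3 => H (f i) jk.1 * H (f i) jk.2))
    (S : Finset ℕ) (hS : ∀ p ∈ S, p.Prime) (C : ℝ) :
    ∃ E : Finset (Fin 3 → ℂ), ∀ (L : Type) [Field L] [NumberField L], Module.finrank ℚ L ≤ 2 →
      ∀ x : Fin 3 → L, IPt (N := 2) ∅ H S C L x →
        InE (N := 2) E L x ∨ ∃ G, Crv H G ∧ aeval x G = 0 := by
  classical
  by_contra hcon
  obtain ⟨d, hd, L, i1, i2, x, σ, hfin, hx, hinj⟩ := exists_inj_seq (N := 2) (r := 2)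
    (fun L _ _ x => IPt (N := 2) ∅ H S C L x ∧ ¬ ∃ G, Crv H G ∧ aeval x G = 0) (by
      rintro ⟨E, h3⟩
      apply hcon
      refine ⟨E, fun L _ _ hL x hx => ?_⟩
      by_cases hs : ∃ G, Crv H G ∧ aeval x G = 0
      · exact Or.inr hs
      · exact Or.inl (h3 L hL x ⟨hx, hs⟩))
  let ν : ℕ → Fin q → ℚ := fun t i =>
    Algebra.norm ℚ (aeval (x t) (Pool.Agent.Y734.lin (n := 2) (H i)))
  have hν : ∀ t i, ν t i ≠ 0 := by
    intro t i
    have h1 := (hx t).1.off
    rw [map_prod] at h1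
    have h2 := Finset.prod_ne_zero_iff.1 h1 i (Finset.mem_univ _)
    exact Algebra.norm_ne_zero_iff.2 h2
  obtain ⟨S', hS', hLG⟩ := hlg 2 q H S hS 2 C
  have hνS : ∀ t i i' (p : ℕ), p.Prime → p ∉ S' →
      padicValRat p (ν t i) = padicValRat p (ν t i') := by
    intro t i i' p hp hpS
    exact hLG (L t) (by rw [hfin t]; exact hd) (x t) (hx t).1.ne (hx t).1.off (hx t).1.int i i' p
      hp hpS
  let U : Ultrafilter ℕ := Filter.hyperfilter ℕ
  have hU : (U : Filter ℕ) ≤ atTop := by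
    rw [← Nat.cofinite_eq_atTop]
    exact Filter.hyperfilter_le_cofinite
  have hz0 : ∀ t k, (fun j => σ t k (x t j)) ≠ 0 := by
    intro t k h0
    apply (hx t).1.ne
    funext j
    have h1 := congrFun h0 j
    exact (map_eq_zero (σ t k : L t →+* ℂ)).1 h1
  have haev : ∀ t k (G : MvPolynomial (Fin 3) ℚ), aeval (fun j => σ t k (x t j)) G = 0 →
      aeval (x t) G = 0 := by
    intro t k G hG
    have h3 : aeval (fun j => σ t k (x t j)) G = σ t k (aeval (x t) G) :=
      (aeval_map (σ t k : L t →+* ℂ) (x t) G).symm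
    rw [h3] at hG
    exact (map_eq_zero (σ t k : L t →+* ℂ)).1 hG
  obtain rfl | rfl : d = 0 ∨ d = 1 := by omega
  · obtain ⟨s, t, hst, c, hc⟩ := deg_one' hue hq hH hU (fun t j => σ t 0 (x t j)) ν hν S' hS' hνS
      (by
        intro t i
        have h1 := norm_eq (N := 2) H (x t) (σ t) i
        rw [← h1]
        unfold nf
        rw [Fin.prod_univ_one])
    exact hinj s t hst 0 c hc
  · obtain ⟨t, G, hG, hGx⟩ := deg_two' htor hsymeq hline hsize htri hq hH f hli hU
      (fun t k j => σ t k (x t j)) hz0 ν hν S' hS' hνS (by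
        intro t i
        have h1 := norm_eq (N := 2) H (x t) (σ t) i
        rw [← h1]
        unfold nf
        rw [Fin.prod_univ_two]) (fun s t hst k c => hinj s t hst k c)
    exact (hx t).2 ⟨G, hG, haev t 0 G hGx⟩

end Pool.Agent.Y734.I
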