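import Mathlib
import Pool.Agent.Y734.I.StmsH

/-!
# Project Y734/I: quadratic integral points on a line with at least five points on `D`
-/

set_option autoImplicit false

namespace Pool.Agent.Y734.I

open MvPolynomial NumberField Filter

/-- Job LIN5. A sequence of quadratic integral points on a line with at least five points on
`D`. -/
def Lin5Stmt : Prop :=
  ∀ (q : ℕ) (H : Fin q → Fin 3 → ℚ) (_ : 6 ≤ q) (_ : GP3 H) (l : Fin 3 → ℚ) (_ : l ≠ 0)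
    (_ : ¬ At4 H (Pool.Agent.Y734.lin (n := 2) l)) (U : Ultrafilter ℕ)
    (_ : (U : Filter ℕ) ≤ atTop) (z : ℕ → Fin 2 → Fin 3 → ℂ) (_ : ∀ t k, z t k ≠ 0)
    (_ : ∀ t k, ev (N := 2) l (z t k) = 0) (ν : ℕ → Fin q → ℚ) (_ : ∀ t i, ν t i ≠ 0)
    (S : Finset ℕ) (_ : ∀ p ∈ S, p.Prime)
    (_ : ∀ t i i' (p : ℕ), p.Prime → p ∉ S → padicValRat p (ν t i) = padicValRat p (ν t i'))
    (_ : ∀ t i, ev (N := 2) (H i) (z t 0) * ev (N := 2) (H i) (z t 1) = ((ν t i : ℚ) : ℂ)),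
    ∃ s t, s < t ∧ ∃ (k : Fin 2) (c : ℂ), z t 0 = c • z s k

end Pool.Agent.Y734.I
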