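import Mathlib
import Pool.Agent.Y734.I.HTop
import Pool.Agent.Y734.I.StmsG
import Pool.Agent.Y734.Fin2
import Pool.Agent.W180.TP.Nor

/-!
# Project Y734/I: quadratic integral points for at least seven lines
-/

set_option autoImplicit false

namespace Pool.Agent.Y734.I

open MvPolynomial NumberField Filter Pool.Agent.Y660.QP
open scoped LinearAlgebra.Projectivization

/-- the bound for quadratic points -/
def QpuStmt : Prop :=
  ∀ (q : ℕ) (H : Fin q → Fin 3 → ℚ) (_ : Pool.Agent.Y734.GenPos H),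
    ∃ Λ : Finset (Fin 3 → ℚ), (∀ ℓ ∈ Λ, ℓ ≠ 0) ∧
      ∀ (S : Finset ℕ) (_ : ∀ p ∈ S, p.Prime) (ε : ℝ) (_ : 0 < ε),
        ∃ C : ℝ, ∀ (L : Type) [Field L] [NumberField L], Module.finrank ℚ L ≤ 2 →
          ∀ x : Fin 3 → L, x ≠ 0 →
            aeval x (∏ i, Pool.Agent.Y734.lin (n := 2) (H i)) ≠ 0 →
            (∀ ℓ ∈ Λ, aeval x (Pool.Agent.Y734.lin (n := 2) ℓ) ≠ 0) →
              proximity (n := 2) S (∏ i, Pool.Agent.Y734.lin (H i)) q x ≤
                (6 + ε) * height (n := 2) x + C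

/-- points of bounded height and degree -/
theorem north (B : ℝ) : ∃ E : Finset (Fin 3 → ℂ), ∀ (L : Type) [Field L] [NumberField L],
    Module.finrank ℚ L ≤ 2 → ∀ x : Fin 3 → L, x ≠ 0 → height (n := 2) x ≤ B →
      InE (N := 2) E L x := by
  classical
  have hfin := Pool.Agent.W180.TP.northcott_pts ℂ 3 2 (2 * max B 0)
  refine ⟨hfin.toFinset.image fun P => P.rep, fun L _ _ hL x hx hB σ => ?_⟩
  have h0 : (fun j => σ (x j)) ≠ 0 := by
    intro h
    apply hx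
    funext j
    exact (map_eq_zero (σ : L →+* ℂ)).1 (congrFun h j)
  let P : ℙ ℂ (Fin 3 → ℂ) := Projectivization.mk ℂ _ h0
  obtain ⟨a, ha⟩ := Projectivization.exists_smul_eq_mk_rep ℂ (fun j => σ (x j)) h0
  have hP : P ∈ hfin.toFinset := by
    rw [Set.Finite.mem_toFinset]
    refine ⟨L, inferInstance, inferInstance, (σ : L →+* ℂ), x, (a : ℂ), ?_, hL, ?_⟩
    · exact ha.symm
    · have h1 : (0 : ℝ) < Module.finrank ℚ L := by
        exact_mod_cast Module.finrank_pos (R := ℚ) (M := L)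
      have h2 : Height.logHeight x = height (n := 2) x * Module.finrank ℚ L := by
        unfold height
        rw [div_mul_cancel₀ _ h1.ne']
      rw [h2]
      have h3 : (Module.finrank ℚ L : ℝ) ≤ 2 := by exact_mod_cast hL
      calc height (n := 2) x * Module.finrank ℚ L
          ≤ max B 0 * Module.finrank ℚ L :=
            mul_le_mul_of_nonneg_right (hB.trans (le_max_left _ _)) h1.le
        _ ≤ max B 0 * 2 := mul_le_mul_of_nonneg_left h3 (le_max_right _ _)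
        _ = 2 * max B 0 := mul_comm _ _
  refine ⟨P.rep, Finset.mem_image_of_mem _ hP, ((a⁻¹ : ℂˣ) : ℂ), ?_⟩
  rw [← ha]
  change (fun j => σ (x j)) = ((a⁻¹ : ℂˣ) : ℂ) • ((a : ℂ) • (fun j => σ (x j)))
  rw [smul_smul, ← Units.val_mul, inv_mul_cancel, Units.val_one, one_smul]

/-- integral points on a line with at least five points on `D` -/
theorem line_fin (hlg : LgStmt) (hue : UeStmt) (hlin : Lin5Stmt) {q : ℕ} (hq : 6 ≤ q)
    {H : Fin q → Fin 3 → ℚ} (hH : GP3 H) {l : Fin 3 → ℚ} (hl : l ≠ 0)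
    (hl5 : ¬ At4 H (Pool.Agent.Y734.lin (n := 2) l)) (S : Finset ℕ) (hS : ∀ p ∈ S, p.Prime)
    (C : ℝ) :
    ∃ E : Finset (Fin 3 → ℂ), ∀ (L : Type) [Field L] [NumberField L], Module.finrank ℚ L ≤ 2 →
      ∀ x : Fin 3 → L, IPt (N := 2) ∅ H S C L x →
        aeval x (Pool.Agent.Y734.lin (n := 2) l) = 0 → InE (N := 2) E L x := by
  classical
  by_contra hcon
  obtain ⟨d, hd, L, i1, i2, x, σ, hfin, hx, hinj⟩ := exists_inj_seq (N := 2) (r := 2)
    (fun L _ _ x => IPt (N := 2) ∅ H S C L x ∧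
      aeval x (Pool.Agent.Y734.lin (n := 2) l) = 0) (by
      rintro ⟨E, h3⟩
      exact hcon ⟨E, fun L _ _ hL x hx hx' => h3 L hL x ⟨hx, hx'⟩⟩)
  let ν : ℕ → Fin q → ℚ := fun t i =>
    Algebra.norm ℚ (aeval (x t) (Pool.Agent.Y734.lin (n := 2) (H i)))
  have hν : ∀ t i, ν t i ≠ 0 := by
    intro t i
    have h1 := (hx t).1.off
    rw [map_prod] at h1
    have h2 := Finset.prod_ne_zero_iff.1 h1 i (Finset.mem_univ _)
    exact Algebra.norm_ne_zero_iff.2 h2
  obtain ⟨S', hS', hLG⟩ := hlg 2 q H S hS 2 C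
  have hνS : ∀ t i i' (p : ℕ), p.Prime → p ∉ S' →
      padicValRat p (ν t i) = padicValRat p (ν t i') := by
    intro t i i' p hp hpS
    exact hLG (L t) (by rw [hfin t]; exact hd) (x t) (hx t).1.ne (hx t).1.off (hx t).1.int i i' p
      hp hpS
  let U : Ultrafilter ℕ := Filter.hyperfilter ℕ
  have hU : (U : Filter ℕ) ≤ atTop := by
    rw [← Nat.cofinite_eq_atTop]
    exact Filter.hyperfilter_le_cofinite
  have hz0 : ∀ t k, (fun j => σ t k (x t j)) ≠ 0 := by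
    intro t k h0
    apply (hx t).1.ne
    funext j
    have h1 := congrFun h0 j
    exact (map_eq_zero (σ t k : L t →+* ℂ)).1 h1
  have hev : ∀ t k, ev (N := 2) l (fun j => σ t k (x t j)) = 0 := by
    intro t k
    have h3 : aeval (fun j => σ t k (x t j)) (Pool.Agent.Y734.lin (n := 2) l) =
        σ t k (aeval (x t) (Pool.Agent.Y734.lin (n := 2) l)) :=
      (aeval_map (σ t k : L t →+* ℂ) (x t) _).symm
    rw [(hx t).2, map_zero, ev_lin] at h3
    exact h3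
  obtain rfl | rfl : d = 0 ∨ d = 1 := by omega
  · obtain ⟨s, t, hst, c, hc⟩ := deg_one' hue hq hH hU (fun t j => σ t 0 (x t j)) ν hν S' hS' hνS
      (by
        intro t i
        have h1 := norm_eq (N := 2) H (x t) (σ t) i
        rw [← h1]
        unfold nf
        rw [Fin.prod_univ_one])
    exact hinj s t hst 0 c hc
  · obtain ⟨s, t, hst, k, c, hc⟩ := hlin q H hq hH l hl hl5 U hU
      (fun t k j => σ t k (x t j)) hz0 hev ν hν S' hS' hνS (by
        intro t i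
        have h1 := norm_eq (N := 2) H (x t) (σ t) i
        rw [← h1]
        unfold nf
        rw [Fin.prod_univ_two])
    exact hinj s t hst k c hc

lemma lin_ne {l : Fin 3 → ℚ} (hl : l ≠ 0) : Pool.Agent.Y734.lin (n := 2) l ≠ 0 := by
  intro h
  apply hl
  funext j
  have h1 : aeval (fun k => if k = j then (1 : ℚ) else 0) (Pool.Agent.Y734.lin (n := 2) l) = 0 := by
    rw [h, map_zero]
  rw [ev_lin] at h1
  unfold ev at h1
  simpa using h1

/-- at least seven lines -/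
theorem seven_main (hqpu : QpuStmt) (hlg : LgStmt) (hue : UeStmt) (hlin : Lin5Stmt) {q : ℕ}
    (hq : 7 ≤ q) {H : Fin q → Fin 3 → ℚ} (hH : GP3 H) :
    ∃ 𝒢 : Finset (MvPolynomial (Fin 3) ℚ), (∀ G ∈ 𝒢, Crv H G) ∧
      ∀ (S : Finset ℕ) (_ : ∀ p ∈ S, p.Prime) (C : ℝ), ∃ E : Finset (Fin 3 → ℂ),
        ∀ (L : Type) [Field L] [NumberField L], Module.finrank ℚ L ≤ 2 →
          ∀ x : Fin 3 → L, IPt (N := 2) ∅ H S C L x →
            InE (N := 2) E L x ∨ ∃ G ∈ 𝒢, aeval x G = 0 := by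
  classical
  have hgp : Pool.Agent.Y734.GenPos H := hH
  obtain ⟨Λ, hΛ, h⟩ := hqpu q H hgp
  refine ⟨(Λ.image fun l => Pool.Agent.Y734.lin (n := 2) l).filter fun G => Crv H G,
    fun G hG => (Finset.mem_filter.1 hG).2, fun S hS C => ?_⟩
  obtain ⟨C₁, hC₁⟩ := h S hS (1 / 2) (by norm_num)
  obtain ⟨E₁, hE₁⟩ := north (2 * (C₁ + C))
  have hE₂ : ∀ l : Fin 3 → ℚ, ∃ E : Finset (Fin 3 → ℂ), l ≠ 0 →
      ¬ At4 H (Pool.Agent.Y734.lin (n := 2) l) →
      ∀ (L : Type) [Field L] [NumberField L], Module.finrank ℚ L ≤ 2 →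
        ∀ x : Fin 3 → L, IPt (N := 2) ∅ H S C L x →
          aeval x (Pool.Agent.Y734.lin (n := 2) l) = 0 → InE (N := 2) E L x := by
    intro l
    by_cases hl : l ≠ 0 ∧ ¬ At4 H (Pool.Agent.Y734.lin (n := 2) l)
    · obtain ⟨E, hE⟩ := line_fin hlg hue hlin (by omega) hH hl.1 hl.2 S hS C
      exact ⟨E, fun _ _ => hE⟩
    · exact ⟨∅, fun h1 h2 => absurd ⟨h1, h2⟩ hl⟩
  choose E₂ hE₂ using hE₂
  refine ⟨E₁ ∪ Λ.biUnion E₂, fun L _ _ hL x hx => ?_⟩
  by_cases hx' : ∀ ℓ ∈ Λ, aeval x (Pool.Agent.Y734.lin (n := 2) ℓ) ≠ 0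
  · left
    have h1 := hC₁ L hL x hx.ne hx.off hx'
    have h2 := hx.int
    have h3 : (0 : ℝ) ≤ height (n := 2) x := by
      unfold height
      have := Height.logHeight_nonneg x
      positivity
    have h4 : (7 : ℝ) ≤ q := by exact_mod_cast hq
    have h5 : (7 : ℝ) * height (n := 2) x ≤ q * height (n := 2) x :=
      mul_le_mul_of_nonneg_right h4 h3
    have h6 : height (n := 2) x ≤ 2 * (C₁ + C) := by linarith
    intro σ
    obtain ⟨e, he, c, hc⟩ := hE₁ L hL x hx.ne h6 σ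
    exact ⟨e, Finset.mem_union_left _ he, c, hc⟩
  · push Not at hx'
    obtain ⟨ℓ, hℓ, h0⟩ := hx'
    by_cases h4 : At4 H (Pool.Agent.Y734.lin (n := 2) ℓ)
    · right
      refine ⟨Pool.Agent.Y734.lin (n := 2) ℓ, Finset.mem_filter.2
        ⟨Finset.mem_image_of_mem _ hℓ, ⟨1, Or.inl rfl, lin_hom ℓ⟩, lin_ne (hΛ ℓ hℓ), h4⟩, h0⟩
    · left
      intro σ
      obtain ⟨e, he, c, hc⟩ := hE₂ ℓ (hΛ ℓ hℓ) h4 L hL x hx h0 σ
      exact ⟨e, Finset.mem_union_right _ (Finset.mem_biUnion.2 ⟨ℓ, hℓ, he⟩), c, hc⟩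

end Pool.Agent.Y734.I
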