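import Mathlib
import Pool.Agent.Y734.I.QFin

/-!
# Project Y734/I: quadratic integral points, the theorem
-/

set_option autoImplicit false

namespace Pool.Agent.Y734.I

open MvPolynomial NumberField Filter Pool.Agent.Y660.QP

/-- points of degree one -/
lemma deg_one (hue : UeStmt) {q : ℕ} (hq : 6 ≤ q) {H : Fin q → Fin 3 → ℚ} (hH : GP3 H)
    {U : Ultrafilter ℕ} {Ω : Type} [Field Ω] [Algebra ℚ Ω] (g : Gm U Ω) (z : ℕ → Fin 3 → ℂ)
    (ν : ℕ → Fin q → ℚ) (hν0 : ∀ t i, ν t i ≠ 0) (S : Finset ℕ) (hS : ∀ p ∈ S, p.Prime)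
    (hνS : ∀ t i i' (p : ℕ), p.Prime → p ∉ S → padicValRat p (ν t i) = padicValRat p (ν t i'))
    (hν : ∀ t i, ev (N := 2) (H i) (z t) = ((ν t i : ℚ) : ℂ))
    (hg : Gnr (fun j => g.π (fun t => z t j))) : False := by
  classical
  let f : Fin 4 → Fin q := Fin.castLE (by omega)
  have hf : Function.Injective f := Fin.castLE_injective _
  obtain ⟨c, hc, hrel⟩ := four (hH.comp hf)
  have hsum : ∀ t, ∑ i, c i * ν t (f i) = 0 := by
    intro t
    have h1 : ((∑ i, c i * ν t (f i) : ℚ) : ℂ) = 0 := by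
      push_cast
      have h2 : ∀ i, (c i : ℂ) * (ν t (f i) : ℂ) =
          ∑ j, ((c i * H (f i) j : ℚ) : ℂ) * z t j := by
        intro i
        rw [← hν t (f i), ev3]
        simp only [eq_ratCast, Fin.sum_univ_three]
        push_cast
        ring
      rw [Finset.sum_congr rfl fun i _ => h2 i, Finset.sum_comm]
      refine Finset.sum_eq_zero fun j _ => ?_
      rw [← Finset.sum_mul, ← Rat.cast_sum, hrel, Rat.cast_zero, zero_mul]
    exact_mod_cast h1
  have hpar : ∃ j, j ≠ 0 ∧ Rl U ν (f 0) (f j) := by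
    by_contra hcon
    push Not at hcon
    have h1 := hue U S hS 4 (fun i t => ν t (f i)) (fun i t => hν0 t _)
      (fun i j t p hp hpS => hνS t _ _ p hp hpS) c (Eventually.of_forall hsum) 0 {0} (by
        intro j
        rw [Finset.mem_singleton]
        constructor
        · rintro rfl
          exact ⟨1, Eventually.of_forall fun t => by rw [one_mul]⟩
        · intro h
          by_contra hne
          exact hcon j hne h)
    obtain ⟨t, ht⟩ := h1.exists
    rw [Finset.sum_singleton] at ht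
    exact mul_ne_zero (hc 0) (hν0 t _) ht
  obtain ⟨j, hj, a, ha⟩ := hpar
  have h1 : ev (N := 2) (H (f j) - a • H (f 0)) (fun j => g.π (fun t => z t j)) = 0 := by
    have h2 : ∀ l : Fin 3 → ℚ, ev (N := 2) l (fun j => g.π (fun t => z t j)) =
        g.π (fun t => ev (N := 2) l (z t)) := by
      intro l
      rw [← ev_lin]
      have h2 : aeval (fun j => g.π (fun t => z t j)) (Pool.Agent.Y734.lin (n := 2) l) =
        g.π (fun t => aeval (z t) (Pool.Agent.Y734.lin (n := 2) l)) := g.aeval z _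
      rw [h2]
      congr 1
      funext t
      rw [ev_lin]
    rw [h2, g.ker]
    filter_upwards [ha] with t ht
    have h3 : ev (N := 2) (H (f j) - a • H (f 0)) (z t) =
        ev (N := 2) (H (f j)) (z t) - (a : ℂ) * ev (N := 2) (H (f 0)) (z t) := by
      rw [ev3, ev3, ev3]
      simp only [Pi.sub_apply, Pi.smul_apply, smul_eq_mul, eq_ratCast]
      push_cast
      ring
    rw [h3, hν, hν, ht]
    push_cast
    ring
  have h2 : H (f j) - a • H (f 0) ≠ 0 := by
    intro h0
    obtain ⟨k, hk⟩ : ∃ k : Fin 4, k ∉ ({0, j} : Finset (Fin 4)) := by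
      by_contra hcon
      push Not at hcon
      have h1 : (Finset.univ : Finset (Fin 4)) ⊆ {0, j} := fun x _ => hcon x
      have h2 := (Finset.card_le_card h1).trans Finset.card_le_two
      simp at h2
    have hk' : k ≠ 0 ∧ k ≠ j := by simpa using hk
    have h3 := hH (f j) (f 0) (f k) (fun h => hj (hf h)) (fun h => hk'.2 (hf h).symm)
      (fun h => hk'.1 (hf h).symm)
    rw [Fintype.linearIndependent_iff] at h3
    have h4 := h3 ![1, -a, 0] (by
      rw [Fin.sum_univ_three]
      simp only [Matrix.cons_val_zero, Matrix.cons_val_one, Matrix.cons_val]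
      rw [one_smul, neg_smul, zero_smul, add_zero, ← sub_eq_add_neg]
      exact h0) 0
    simp at h4
  exact hg.ev_ne h2 h1

/-- `q` lines and points of degree two -/
theorem deg_two (hstep : StepStmt) (hnv : NvStmt) (hred : RedStmt) (hmono : MonoStmt)
    (hind : IndStmt) (hgens : GensStmt) (hue : UeStmt) (halga : AlgaStmt) (halgb : AlgbStmt)
    (halgc : AlgcStmt) (hlgb : LgbStmt)
    {q : ℕ} (hq : 6 ≤ q) {H : Fin q → Fin 3 → ℚ} (hH : GP3 H) (S₀ : Finset ℕ)
    (hS₀ : ∀ p ∈ S₀, p.Prime) (C : ℝ)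
    {U : Ultrafilter ℕ} {Ω : Type} [Field Ω] [Algebra ℚ Ω] (g : Gm U Ω)
    (L : ℕ → Type) [∀ t, Field (L t)] [∀ t, NumberField (L t)] (x : ∀ t, Fin 3 → L t)
    (hfin : ∀ t, Module.finrank ℚ (L t) = 2)
    (hx : ∀ t, IPt (N := 2) ∅ H S₀ C (L t) (x t)) (hsym : ∀ t, ¬ (q = 6 ∧ Sym H (L t) (x t)))
    (σ : ∀ t, Fin 2 ≃ (L t →ₐ[ℚ] ℂ)) (S : Finset ℕ)
    (D : QD H g (fun t k j => σ t k (x t j))
      (fun t i => Algebra.norm ℚ (aeval (x t) (Pool.Agent.Y734.lin (n := 2) (H i)))) S) :
    False := by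
  classical
  set ν : ℕ → Fin q → ℚ := fun t i =>
    Algebra.norm ℚ (aeval (x t) (Pool.Agent.Y734.lin (n := 2) (H i))) with hνd
  have htd := (D.gn 0).trd_ge hmono
  have hsymm : ∀ i j, Rl U ν i j → Rl U ν j i := fun i j h => h.symm D.ν0
  have htrans : ∀ i j k, Rl U ν i j → Rl U ν j k → Rl U ν i k := fun i j k h h' => h.trans h'
  have hdep : ∀ f : Fin 6 → Fin q, Function.Injective f → ∃ c : Fin 6 → ℚ, (∀ i, c i ≠ 0) ∧
      ∀ j k, ∑ i, c i * (H (f i) j * H (f i) k) = 0 := by
    intro f hf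
    refine not_indep (hH.comp hf) fun hli => ?_
    exact D.indep hstep hnv hred hmono hind hgens hH htd f hf hli
  have ha : ∀ f : Fin 6 → Fin q, Function.Injective f → ∀ i, ∃ j, j ≠ i ∧ Rl U ν (f i) (f j) := by
    intro f hf
    obtain ⟨c, hc, hrel⟩ := hdep f hf
    exact D.partner hue f c hc (Eventually.of_forall fun t => D.sum_eq f c hrel t)
  have hb : ∀ f : Fin 5 → Fin q, Function.Injective f → Rl U ν (f 0) (f 1) → Rl U ν (f 0) (f 2) →
      Rl U ν (f 3) (f 4) → False := by
    intro f hf h1 h2 h3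
    obtain ⟨a, ha⟩ := D.rl_pr h1
    obtain ⟨b, hb⟩ := D.rl_pr h2
    obtain ⟨c, hc⟩ := D.rl_pr h3
    exact halga Ω (fun i => H (f i)) (hH.comp hf) _ _ (D.gn 0) (D.gn 1) a b c ha hb hc
  obtain ⟨hq6, f, hf, h01, h23, h45⟩ := comb hq (Rl U ν) hsymm htrans ha hb
  have hno := no_triple hq (Rl U ν) hsymm htrans ha hb
  obtain ⟨c, hc, hrel⟩ := hdep f hf
  have hsum : ∀ᶠ t in (U : Filter ℕ), ∑ i, c i * ν t (f i) = 0 :=
    Eventually.of_forall fun t => D.sum_eq f c hrel t
  have hpairs : Pairs (fun i => H (f i)) c (fun j => g.π (fun t => σ t 0 (x t j)))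
      (fun j => g.π (fun t => σ t 1 (x t j))) :=
    ⟨hH.comp hf, hc, hrel, D.gn 0, D.gn 1,
      D.pair_sum hue hno f hf c hsum 0 1 (by decide) h01,
      D.pair_sum hue hno f hf c hsum 2 3 (by decide) h23,
      D.pair_sum hue hno f hf c hsum 4 5 (by decide) h45⟩
  have hnorm : ∀ (l : Fin 3 → ℚ) (t : ℕ),
      ev (N := 2) l (fun j => σ t 0 (x t j)) * ev (N := 2) l (fun j => σ t 1 (x t j)) =
        ((Algebra.norm ℚ (aeval (x t) (Pool.Agent.Y734.lin (n := 2) l)) : ℚ) : ℂ) := by
    intro l t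
    have h1 := norm_eq (N := 2) (q := 1) (fun _ => l) (x t) (σ t) 0
    rw [← h1]
    unfold nf
    rw [Fin.prod_univ_two]
  by_cases hV : LinearIndependent ℚ ![crs (H (f 0)) (H (f 1)), crs (H (f 2)) (H (f 3)),
      crs (H (f 4)) (H (f 5))]
  · obtain ⟨l, κ, hl, hκ, hκrel, hs0, hs2, hs4, hmult, hnotai⟩ := halgb Ω _ c _ _ hpairs hV
    obtain ⟨S', hS', hLG⟩ := hlgb q H l hl κ hκ (f 0) (f 2) (f 4) hs0 hs2 hs4 S₀ hS₀ C
    let μ : Fin 3 → ℕ → ℚ := fun i t =>
      Algebra.norm ℚ (aeval (x t) (Pool.Agent.Y734.lin (n := 2) (l i)))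
    have hprl : ∀ i, pr (l i) (fun j => g.π (fun t => σ t 0 (x t j)))
        (fun j => g.π (fun t => σ t 1 (x t j))) = g.π (fun t => ((μ i t : ℚ) : ℂ)) := by
      intro i
      have h1 := prg (g := g) (z := fun t k j => σ t k (x t j)) (l i)
      rw [h1]
      congr 1
      funext t
      exact hnorm (l i) t
    have hμ0 : ∀ᶠ t in (U : Filter ℕ), ∀ i, μ i t ≠ 0 := by
      rw [Filter.eventually_all]
      intro i
      by_contra hcon
      have h1 : ∀ᶠ t in (U : Filter ℕ), μ i t = 0 := by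
        rw [← Ultrafilter.eventually_not] at hcon
        filter_upwards [hcon] with t ht
        exact not_not.1 ht
      have h2 : g.π (fun t => ((μ i t : ℚ) : ℂ)) = 0 := by
        rw [g.ker]
        filter_upwards [h1] with t ht
        rw [ht, Rat.cast_zero]
      rw [← hprl i] at h2
      exact pr_ne (D.gn 0) (D.gn 1) (hl.ne_zero i) h2
    have hμκ : ∀ᶠ t in (U : Filter ℕ), ∀ i j, κ j * μ i t = κ i * μ j t := by
      rw [Filter.eventually_all]
      intro i
      rw [Filter.eventually_all]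
      intro j
      have h1 := hκrel i j
      rw [hprl, hprl, ← g.rat, ← g.rat, ← map_mul, ← map_mul, g.eq_iff] at h1
      filter_upwards [h1] with t ht
      simp only [Pi.mul_apply] at ht
      exact_mod_cast ht
    obtain ⟨G, hG⟩ : ∃ G : Set ℕ, G = {t | (∀ i, μ i t ≠ 0) ∧ ∀ i j, κ j * μ i t = κ i * μ j t} :=
      ⟨_, rfl⟩
    have hGU : ∀ᶠ t in (U : Filter ℕ), t ∈ G := by
      filter_upwards [hμ0, hμκ] with t h1 h2
      rw [hG]
      exact ⟨h1, h2⟩
    let s : Fin 3 → Fin 6 := ![0, 2, 4]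
    let F : Fin 3 → ℕ → ℚ := fun i t => if t ∈ G then ν t (f (s i)) / μ 0 t else 1
    have hF0 : ∀ i t, F i t ≠ 0 := by
      intro i t
      simp only [F]
      split_ifs with h
      · rw [hG] at h
        exact div_ne_zero (D.ν0 t _) (h.1 0)
      · exact one_ne_zero
    have hFS : ∀ i t (p : ℕ), p.Prime → p ∉ S' → padicValRat p (F i t) = 0 := by
      intro i t p hp hpS
      have := Fact.mk hp
      simp only [F]
      split_ifs with h
      · rw [hG] at h
        rw [padicValRat.div (D.ν0 t _) (h.1 0),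
          hLG (L t) (hfin t).le (x t) (hx t) h.1 h.2 0 (f (s i)) p hp hpS, sub_self]
      · exact padicValRat.one
    have hFg : ∀ i, g.π (fun t => ((F i t : ℚ) : ℂ)) =
        pr (H (f (s i))) (fun j => g.π (fun t => σ t 0 (x t j)))
          (fun j => g.π (fun t => σ t 1 (x t j))) /
        pr (l 0) (fun j => g.π (fun t => σ t 0 (x t j)))
          (fun j => g.π (fun t => σ t 1 (x t j))) := by
      intro i
      rw [eq_div_iff (pr_ne (D.gn 0) (D.gn 1) (hl.ne_zero 0)), hprl]
      have h1 := D.prH (f (s i))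
      rw [h1, ← map_mul, g.eq_iff]
      filter_upwards [hGU] with t ht
      simp only [F, Pi.mul_apply, if_pos ht]
      rw [hG] at ht
      have h2 : (μ 0 t : ℂ) ≠ 0 := by exact_mod_cast ht.1 0
      push_cast
      rw [div_mul_cancel₀ _ h2]
    have hAI := hind U Ω g S' hS' 3 F hF0 hFS (by
      intro e he a
      simp only [hFg]
      exact hmult e he a)
    simp only [hFg] at hAI
    exact hnotai hAI
  · obtain ⟨T, hT2, hTH, a, ha0, haT⟩ := halgc Ω _ c _ _ hpairs hV
    -- the relation for almost all `t`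
    have h1 : ∀ᶠ t in (U : Filter ℕ), ∀ j j', σ t 1 (x t j) *
        (∑ k, ((T j' k : ℚ) : ℂ) * σ t 0 (x t k)) =
          σ t 1 (x t j') * (∑ k, ((T j k : ℚ) : ℂ) * σ t 0 (x t k)) := by
      rw [Filter.eventually_all]
      intro j
      rw [Filter.eventually_all]
      intro j'
      have h2 : ∀ j, ∑ k, algebraMap ℚ Ω (T j k) * g.π (fun t => σ t 0 (x t k)) =
          g.π (fun t => ∑ k, ((T j k : ℚ) : ℂ) * σ t 0 (x t k)) := by
        intro j
        have h3 : (fun t => ∑ k, ((T j k : ℚ) : ℂ) * σ t 0 (x t k)) =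
            ∑ k, (fun _ => ((T j k : ℚ) : ℂ)) * (fun t => σ t 0 (x t k)) := by
          funext t
          simp
        rw [h3, map_sum]
        refine Finset.sum_congr rfl fun k _ => ?_
        rw [map_mul, g.rat]
      have h4 : g.π (fun t => σ t 1 (x t j)) *
          g.π (fun t => ∑ k, ((T j' k : ℚ) : ℂ) * σ t 0 (x t k)) =
          g.π (fun t => σ t 1 (x t j')) *
          g.π (fun t => ∑ k, ((T j k : ℚ) : ℂ) * σ t 0 (x t k)) := by
        rw [← h2, ← h2, haT j, haT j']
        ring
      rw [← map_mul, ← map_mul, g.eq_iff] at h4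
      exact h4
    obtain ⟨t, ht⟩ := h1.exists
    apply hsym t
    obtain ⟨τ, hτ1, hτ⟩ := exists_conj (L t) (hfin t) (σ t 0) (σ t 1)
      (fun h => by simpa using (σ t).injective h)
    refine ⟨hq6, T, hT2, ?_, τ, hτ1, ?_⟩
    · intro i
      have hsurj : Function.Surjective f := by
        subst hq6
        exact Finite.injective_iff_surjective.1 hf
      obtain ⟨s, rfl⟩ := hsurj i
      obtain ⟨s', hs', b, hb'⟩ := hTH s
      exact ⟨f s', fun h => hs' (hf h), b, hb'⟩
    · -- the constant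
      let y : Fin 3 → L t := fun j => ∑ k, algebraMap ℚ (L t) (T j k) * x t k
      have hy : ∀ j, σ t 0 (y j) = ∑ k, ((T j k : ℚ) : ℂ) * σ t 0 (x t k) := by
        intro j
        simp only [y, map_sum, map_mul]
        refine Finset.sum_congr rfl fun k _ => ?_
        congr 1
        rw [AlgHom.commutes]
        rfl
      have hcr : ∀ j j', τ (x t j) * y j' = τ (x t j') * y j := by
        intro j j'
        have h5 : σ t 0 (τ (x t j) * y j') = σ t 0 (τ (x t j') * y j) := by
          rw [map_mul, map_mul, hy, hy, ← hτ, ← hτ]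
          exact ht j j'
        exact (σ t 0).toRingHom.injective h5
      have hy0 : ∃ j, y j ≠ 0 := by
        by_contra hcon
        push Not at hcon
        apply (hx t).ne
        funext i
        have h2 : ∑ j, algebraMap ℚ (L t) (T i j) * y j = x t i := by
          simp only [y, Finset.mul_sum]
          rw [Finset.sum_comm]
          have h3 : ∀ k, ∑ j, algebraMap ℚ (L t) (T i j) * (algebraMap ℚ (L t) (T j k) * x t k) =
              algebraMap ℚ (L t) ((T * T) i k) * x t k := by
            intro k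
            rw [Matrix.mul_apply, map_sum, Finset.sum_mul]
            refine Finset.sum_congr rfl fun j _ => ?_
            rw [map_mul, mul_assoc]
          rw [Finset.sum_congr rfl fun k _ => h3 k, hT2]
          rw [Finset.sum_eq_single i]
          · rw [Matrix.one_apply_eq, map_one, one_mul]
          · intro k _ hk
            rw [Matrix.one_apply_ne hk.symm, map_zero, zero_mul]
          · intro h
            exact absurd (Finset.mem_univ i) h
        rw [← h2]
        exact Finset.sum_eq_zero fun j _ => by rw [hcon j, mul_zero]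
      obtain ⟨j₀, hj₀⟩ := hy0
      have hτx : τ (x t j₀) ≠ 0 := by
        intro h0
        apply (hx t).ne
        funext j
        have h2 := hcr j j₀
        rw [h0, zero_mul] at h2
        have h3 := (mul_eq_zero.1 h2).resolve_right hj₀
        exact (map_eq_zero τ).1 h3
      refine ⟨τ (x t j₀) / y j₀, div_ne_zero hτx hj₀, fun j => ?_⟩
      change τ (x t j) = τ (x t j₀) / y j₀ * y j
      rw [div_mul_eq_mul_div, eq_div_iff hj₀]
      exact hcr j j₀

end Pool.Agent.Y734.I
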