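import Mathlib
import Pool.Agent.Y734.I.QEnd

/-!
# Project Y734/I: quadratic integral points, the theorem
-/

set_option autoImplicit false

namespace Pool.Agent.Y734.I

open MvPolynomial NumberField Filter Pool.Agent.Y660.QP

theorem quad_main (hstep : StepStmt) (hnv : NvStmt) (hred : RedStmt) (hmono : MonoStmt)
    (hind : IndStmt) (hlg : LgStmt) (hgens : GensStmt) (hue : UeStmt) (halga : AlgaStmt)
    (halgb : AlgbStmt) (halgc : AlgcStmt) (hlgb : LgbStmt)
    {q : ℕ} (hq : 6 ≤ q) {H : Fin q → Fin 3 → ℚ} (hH : GP3 H) (S : Finset ℕ)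
    (hS : ∀ p ∈ S, p.Prime) (C : ℝ) :
    ∃ (d : ℕ) (Z : MvPolynomial (Fin 3) ℚ), Z.IsHomogeneous d ∧ Z ≠ 0 ∧
      ∀ (L : Type) [Field L] [NumberField L], Module.finrank ℚ L ≤ 2 →
        ∀ x : Fin 3 → L, IPt (N := 2) ∅ H S C L x → aeval x Z ≠ 0 →
          q = 6 ∧ Sym H L x := by
  classical
  by_contra hcon
  obtain ⟨d, hd1, hd2, L, i1, i2, x, hfin, hx, hgen⟩ := exists_seq (N := 2) (r := 2)
    (fun L _ _ x => IPt (N := 2) ∅ H S C L x ∧ ¬ (q = 6 ∧ Sym H L x)) (by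
      rintro ⟨d, Z, h1, h2, h3⟩
      apply hcon
      refine ⟨d, Z, h1, h2, fun L _ _ hL x hx hZ => ?_⟩
      by_contra hs
      exact hZ (h3 L hL x ⟨hx, hs⟩))
  have hσ : ∀ t, Nonempty (Fin d ≃ (L t →ₐ[ℚ] ℂ)) := by
    intro t
    have h1 : Fintype.card (L t →ₐ[ℚ] ℂ) = d := by
      rw [AlgHom.card ℚ (L t) ℂ, hfin t]
    exact ⟨(Fintype.equivFinOfCardEq h1).symm⟩
  let σ : ∀ t, Fin d ≃ (L t →ₐ[ℚ] ℂ) := fun t => Classical.choice (hσ t)
  let ν : ℕ → Fin q → ℚ := fun t i =>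
    Algebra.norm ℚ (aeval (x t) (Pool.Agent.Y734.lin (n := 2) (H i)))
  have hν : ∀ t i, ν t i ≠ 0 := by
    intro t i
    have h1 := (hx t).1.off
    rw [map_prod] at h1
    have h2 := Finset.prod_ne_zero_iff.1 h1 i (Finset.mem_univ _)
    exact Algebra.norm_ne_zero_iff.2 h2
  obtain ⟨S', hS', hLG⟩ := hlg 2 q H S hS 2 C
  have hνS : ∀ t i i' (p : ℕ), p.Prime → p ∉ S' →
      padicValRat p (ν t i) = padicValRat p (ν t i') := by
    intro t i i' p hp hpS
    exact hLG (L t) ((hfin t).le.trans hd2) (x t) (hx t).1.ne (hx t).1.off (hx t).1.int i i' p hp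
      hpS
  let U : Ultrafilter ℕ := Filter.hyperfilter ℕ
  have hU : (U : Filter ℕ) ≤ atTop := by
    rw [← Nat.cofinite_eq_atTop]
    exact Filter.hyperfilter_le_cofinite
  obtain ⟨Ω, i3, i4, ⟨g⟩⟩ := ex_gm U
  have hgn : ∀ k : Fin d, Gnr (fun j => g.π (fun t => σ t k (x t j))) := by
    intro k F m hF hF0
    have h1 : aeval (fun j => g.π (fun t => σ t k (x t j))) F =
        g.π (fun t => aeval (fun j => σ t k (x t j)) F) :=
      g.aeval (fun t j => σ t k (x t j)) F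
    rw [h1]
    intro h0
    have h2 := (g.ker _).1 h0
    obtain ⟨t, ht1, ht2⟩ := (h2.and (hU (hgen F m hF hF0))).exists
    have h3 : aeval (fun j => σ t k (x t j)) F = σ t k (aeval (x t) F) :=
      (aeval_map (σ t k : L t →+* ℂ) (x t) F).symm
    rw [h3] at ht1
    exact ht2 ((map_eq_zero (σ t k : L t →+* ℂ)).1 ht1)
  obtain rfl | rfl : d = 1 ∨ d = 2 := by omega
  · refine deg_one hue hq hH g (fun t j => σ t 0 (x t j)) ν hν S' hS' hνS ?_ (hgn 0)
    intro t i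
    have h1 := norm_eq (N := 2) H (x t) (σ t) i
    rw [← h1]
    unfold nf
    rw [Fin.prod_univ_one]
  · refine deg_two hstep hnv hred hmono hind hgens hue halga halgb halgc hlgb hq hH S hS C g L x
      hfin (fun t => (hx t).1) (fun t => (hx t).2) σ S' ⟨hν, hS', hνS, ?_, hgn⟩
    intro t i
    have h1 := norm_eq (N := 2) H (x t) (σ t) i
    rw [← h1]
    unfold nf
    rw [Fin.prod_univ_two]

end Pool.Agent.Y734.I
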