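import Mathlib
import Pool.Agent.Y734.I.HSeven
import Pool.Agent.Y734.I.Quad

/-!
# Project Y734/I: quadratic integral points, the complete theorem
-/

set_option autoImplicit false

namespace Pool.Agent.Y734.I

open MvPolynomial NumberField Filter Pool.Agent.Y660.QP

/-- six lines with independent squares, or at least seven lines -/
theorem fin_main (hqpu : QpuStmt) (hlg : LgStmt) (hue : UeStmt) (hlin : Lin5Stmt)
    (htor : TorStmt) (hsymeq : SymeqStmt) (hline : LineStmt) (hsize : SizeStmt)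
    (htri : TriStmt) (hfin : FinStmt) {q : ℕ} (hq : 6 ≤ q) {H : Fin q → Fin 3 → ℚ} (hH : GP3 H)
    (h6 : q = 6 → LinearIndependent ℚ
      (fun i => fun jk : Fin 3 × Fin 3 => H i jk.1 * H i jk.2)) :
    ∃ 𝒢 : Finset (MvPolynomial (Fin 3) ℚ), (∀ G ∈ 𝒢, Crv H G) ∧
      ∀ (S : Finset ℕ) (_ : ∀ p ∈ S, p.Prime) (C : ℝ), ∃ E : Finset (Fin 3 → ℂ),
        ∀ (L : Type) [Field L] [NumberField L], Module.finrank ℚ L ≤ 2 →
          ∀ x : Fin 3 → L, IPt (N := 2) ∅ H S C L x →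
            InE (N := 2) E L x ∨ ∃ G ∈ 𝒢, aeval x G = 0 := by
  by_cases h7 : 7 ≤ q
  · exact seven_main hqpu hlg hue hlin h7 hH
  · obtain rfl : q = 6 := by omega
    obtain ⟨𝒢, h𝒢, hG⟩ := hfin 6 H hq hH
    refine ⟨𝒢, h𝒢, fun S hS C => ?_⟩
    obtain ⟨E, hE⟩ := h_main hlg hue htor hsymeq hline hsize htri hq hH id (h6 rfl) S hS C
    refine ⟨E, fun L _ _ hL x hx => ?_⟩
    rcases hE L hL x hx with h | ⟨G, h1, h2⟩
    · exact Or.inl h
    · right
      obtain ⟨G', hG', h3⟩ := hG G h1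
      refine ⟨G', hG', ?_⟩
      obtain ⟨σ⟩ : Nonempty (L →+* ℂ) := inferInstance
      have h4 : aeval (fun j => σ (x j)) G = 0 := (aeval_map σ x G).symm.trans (by
        rw [h2, map_zero])
      have h5 : σ (aeval x G') = 0 := (aeval_map σ x G').trans (h3 _ h4)
      exact (map_eq_zero σ).1 h5

end Pool.Agent.Y734.I
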